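import Pool.Agent.Work.MP_292d0f_va.Interface

set_option autoImplicit false

/-! # Block POW: the tensor powers of a motive of a variety -/

open CategoryTheory MonoidalCategory
open Pool.Agent.Work.MP_c42eb9_num.Defs Pool.Agent.Work.MP_c42eb9_num

namespace Pool.VAS

universe v u w

section

variable (V : Type w) (A : Type u) [Category.{v} A] [MonoidalCategory A] [SymmetricCategory A]
  [Preadditive A] [MonoidalPreadditive A] [Linear ℚ A] [MonoidalLinear ℚ A]
  (M : ChowMotives V A)

theorem p_POW : Stmt_POW V A M := by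
  intro X n
  induction n with
  | zero =>
    obtain ⟨e⟩ := M.isoPt
    exact ⟨M.pt, ⟨e⟩⟩
  | succ n ih =>
    obtain ⟨Z, ⟨e⟩⟩ := ih
    obtain ⟨Z', ⟨e'⟩⟩ := M.prod X Z
    exact ⟨Z', ⟨e' ≪≫ whiskerLeftIso (M.h X) e⟩⟩

end

end Pool.VAS
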