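import Pool.Agent.Work.MP_292d0f_va.Interface

/-! # Block IND (helper54) -/

open CategoryTheory MonoidalCategory
open Pool.Agent.Work.MP_c42eb9_num.Defs Pool.Agent.Work.MP_c42eb9_num

namespace Pool.VAS

universe v u w

section

variable {A : Type u} [Category.{v} A] [MonoidalCategory A] [SymmetricCategory A]
  [Preadditive A] [MonoidalPreadditive A] [Linear ℚ A] [MonoidalLinear ℚ A]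

omit [SymmetricCategory A] [Preadditive A] [MonoidalPreadditive A] [Linear ℚ A]
  [MonoidalLinear ℚ A] [MonoidalCategory A] in
theorem IND_conj {X W W' : A} (F : X ⟶ W) (G : W ⟶ X) (j : W ≅ W') {q : X ⟶ X}
    (h : F ≫ G = q) : (F ≫ j.hom) ≫ j.inv ≫ G = q := by
  rw [Category.assoc, Iso.hom_inv_id_assoc]
  exact h

omit [SymmetricCategory A] [Preadditive A] [MonoidalPreadditive A] [Linear ℚ A]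
  [MonoidalLinear ℚ A] in
theorem IND_FG {t H T P Y' Z' : A} {inc : t ⟶ H} {pr : H ⟶ t} (hip : inc ≫ pr = 𝟙 t)
    {f : T ⟶ P ⊗ Y'} {g : P ⊗ Y' ⟶ T} {p : T ⟶ T} (hfg : f ≫ g = p) (hpp : p ≫ p = p)
    {q : t ⊗ T ⟶ t ⊗ T} (hqq : q ≫ q = q) (hpq : t ◁ p ≫ q = q)
    (θ : Z' ≅ H ⊗ Y') (σ : P ⊗ (H ⊗ Y') ≅ H ⊗ (P ⊗ Y')) :
    (q ≫ (inc ⊗ₘ f) ≫ σ.inv ≫ P ◁ θ.inv) ≫
      (P ◁ θ.hom ≫ σ.hom ≫ (pr ⊗ₘ (g ≫ p)) ≫ q) = q := by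
  have h1 : P ◁ θ.inv ≫ P ◁ θ.hom = 𝟙 _ := by
    rw [← whiskerLeft_comp, θ.inv_hom_id, whiskerLeft_id]
  have h2 : (inc ⊗ₘ f) ≫ (pr ⊗ₘ (g ≫ p)) = t ◁ p := by
    rw [tensorHom_comp_tensorHom, hip, ← Category.assoc f, hfg, hpp, id_tensorHom]
  calc _ = q ≫ (inc ⊗ₘ f) ≫ σ.inv ≫ (P ◁ θ.inv ≫ P ◁ θ.hom) ≫ σ.hom ≫
        (pr ⊗ₘ (g ≫ p)) ≫ q := by
        simp only [Category.assoc]
    _ = q ≫ ((inc ⊗ₘ f) ≫ (pr ⊗ₘ (g ≫ p))) ≫ q := by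
        rw [h1, Category.id_comp, Iso.inv_hom_id_assoc]
        simp only [Category.assoc]
    _ = q := by rw [h2, hpq, hqq]

omit [SymmetricCategory A] in
theorem IND_zero {t H T P Y' : A} {pr : H ⟶ t}
    {g : P ⊗ Y' ⟶ T} {p : T ⟶ T} (hpp : p ≫ p = p) {q : t ⊗ T ⟶ t ⊗ T}
    (σ : P ⊗ (H ⊗ Y') ≅ H ⊗ (P ⊗ Y'))
    (hσ : ∀ (a : 𝟙_ A ⟶ H) (b : 𝟙_ A ⟶ Y'), P ◁ ((λ_ (𝟙_ A)).inv ≫ (a ⊗ₘ b)) ≫ σ.hom =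
      (ρ_ P).hom ≫ (λ_ P).inv ≫ (a ⊗ₘ ((ρ_ P).inv ≫ P ◁ b)))
    (hz : ∀ z : 𝟙_ A ⟶ H ⊗ Y', z ∈ Submodule.span ℚ
      {y | ∃ (a : 𝟙_ A ⟶ H) (b : 𝟙_ A ⟶ Y'), y = (λ_ (𝟙_ A)).inv ≫ (a ⊗ₘ b)})
    (hT : ∀ z : P ⟶ T, z ≫ p = z → ∀ w : 𝟙_ A ⟶ t, ((λ_ P).inv ≫ (w ⊗ₘ z)) ≫ q = 0)
    (x : 𝟙_ A ⟶ H ⊗ Y') : P ◁ x ≫ σ.hom ≫ (pr ⊗ₘ (g ≫ p)) ≫ q = 0 := by
  refine Submodule.span_induction
    (p := fun x _ => P ◁ x ≫ σ.hom ≫ (pr ⊗ₘ (g ≫ p)) ≫ q = 0) ?_ ?_ ?_ ?_ (hz x)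
  · rintro x ⟨a, b, rfl⟩
    have h1 := hT ((ρ_ P).inv ≫ P ◁ b ≫ g ≫ p) (by simp only [Category.assoc, hpp]) (a ≫ pr)
    have h2 : (a ⊗ₘ ((ρ_ P).inv ≫ P ◁ b)) ≫ (pr ⊗ₘ (g ≫ p)) =
        (a ≫ pr) ⊗ₘ ((ρ_ P).inv ≫ P ◁ b ≫ g ≫ p) := by
      rw [tensorHom_comp_tensorHom]
      simp only [Category.assoc]
    calc P ◁ ((λ_ (𝟙_ A)).inv ≫ (a ⊗ₘ b)) ≫ σ.hom ≫ (pr ⊗ₘ (g ≫ p)) ≫ q =
        (P ◁ ((λ_ (𝟙_ A)).inv ≫ (a ⊗ₘ b)) ≫ σ.hom) ≫ (pr ⊗ₘ (g ≫ p)) ≫ q := by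
          rw [Category.assoc]
      _ = (ρ_ P).hom ≫ (λ_ P).inv ≫
          ((a ⊗ₘ ((ρ_ P).inv ≫ P ◁ b)) ≫ (pr ⊗ₘ (g ≫ p))) ≫ q := by
          rw [hσ]
          simp only [Category.assoc]
      _ = (ρ_ P).hom ≫ ((λ_ P).inv ≫ ((a ≫ pr) ⊗ₘ ((ρ_ P).inv ≫ P ◁ b ≫ g ≫ p))) ≫ q := by
          rw [h2]
          simp only [Category.assoc]
      _ = 0 := by rw [h1, Limits.comp_zero]
  · rw [MonoidalPreadditive.whiskerLeft_zero, Limits.zero_comp]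
  · intro x y _ _ hx hy
    rw [MonoidalPreadditive.whiskerLeft_add, Preadditive.add_comp, hx, hy, add_zero]
  · intro r x _ hx
    rw [MonoidalLinear.whiskerLeft_smul, Linear.smul_comp, hx, smul_zero]

omit [SymmetricCategory A] in
theorem IND_step {t H T P Y' Z' : A} {inc : t ⟶ H} {pr : H ⟶ t} (hip : inc ≫ pr = 𝟙 t)
    {f : T ⟶ P ⊗ Y'} {g : P ⊗ Y' ⟶ T} {p : T ⟶ T} (hfg : f ≫ g = p) (hpp : p ≫ p = p)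
    {q : t ⊗ T ⟶ t ⊗ T} (hqq : q ≫ q = q) (hpq : t ◁ p ≫ q = q)
    (θ : Z' ≅ H ⊗ Y') (σ : P ⊗ (H ⊗ Y') ≅ H ⊗ (P ⊗ Y'))
    (hσ : ∀ (a : 𝟙_ A ⟶ H) (b : 𝟙_ A ⟶ Y'), P ◁ ((λ_ (𝟙_ A)).inv ≫ (a ⊗ₘ b)) ≫ σ.hom =
      (ρ_ P).hom ≫ (λ_ P).inv ≫ (a ⊗ₘ ((ρ_ P).inv ≫ P ◁ b)))
    (hz : ∀ z : 𝟙_ A ⟶ H ⊗ Y', z ∈ Submodule.span ℚ
      {y | ∃ (a : 𝟙_ A ⟶ H) (b : 𝟙_ A ⟶ Y'), y = (λ_ (𝟙_ A)).inv ≫ (a ⊗ₘ b)})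
    (hT : ∀ z : P ⟶ T, z ≫ p = z → ∀ w : 𝟙_ A ⟶ t, ((λ_ P).inv ≫ (w ⊗ₘ z)) ≫ q = 0)
    (hP : ∀ X Y : A, Function.Bijective (fun f : X ⟶ Y => P ◁ f))
    {Q : A → Prop} (hBS : ∀ e : Z' ⟶ Z', (∀ x : 𝟙_ A ⟶ Z', x ≫ e = 0) →
      ∃ (W : A) (a : Z' ⟶ W) (b : W ⟶ Z'), Q W ∧ a ≫ b = e) :
    ∃ (W : A) (F : t ⊗ T ⟶ P ⊗ W) (G : P ⊗ W ⟶ t ⊗ T), Q W ∧ F ≫ G = q := by
  obtain ⟨F, hF⟩ : ∃ F, F = q ≫ (inc ⊗ₘ f) ≫ σ.inv ≫ P ◁ θ.inv := ⟨_, rfl⟩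
  obtain ⟨G, hG⟩ : ∃ G, G = P ◁ θ.hom ≫ σ.hom ≫ (pr ⊗ₘ (g ≫ p)) ≫ q := ⟨_, rfl⟩
  have hFG : F ≫ G = q := by
    rw [hF, hG]
    exact IND_FG hip hfg hpp hqq hpq θ σ
  obtain ⟨e, he⟩ := (hP Z' Z').2 (G ≫ F)
  have he' : P ◁ e = G ≫ F := he
  have hx : ∀ x : 𝟙_ A ⟶ Z', x ≫ e = 0 := by
    intro x
    apply (hP _ _).1
    show P ◁ (x ≫ e) = P ◁ (0 : 𝟙_ A ⟶ Z')
    have h1 := IND_zero (g := g) (pr := pr) (q := q) hpp σ hσ hz hT (x ≫ θ.hom)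
    rw [whiskerLeft_comp, he', MonoidalPreadditive.whiskerLeft_zero]
    have h2 : P ◁ x ≫ G = 0 := by
      rw [hG, ← Category.assoc, ← whiskerLeft_comp]
      exact h1
    rw [← Category.assoc, h2, Limits.zero_comp]
  obtain ⟨W, a, b, hQ, hab⟩ := hBS e hx
  refine ⟨W, F ≫ P ◁ a, P ◁ b ≫ G, hQ, ?_⟩
  calc (F ≫ P ◁ a) ≫ P ◁ b ≫ G = F ≫ (P ◁ a ≫ P ◁ b) ≫ G := by simp only [Category.assoc]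
    _ = F ≫ (G ≫ F) ≫ G := by rw [← whiskerLeft_comp, hab, he']
    _ = (F ≫ G) ≫ F ≫ G := by simp only [Category.assoc]
    _ = q := by rw [hFG, hqq]

end

section

variable {V : Type w} {A : Type u} [Category.{v} A] [MonoidalCategory A] [SymmetricCategory A]
  [Preadditive A] [MonoidalPreadditive A] [Linear ℚ A] [MonoidalLinear ℚ A]
  {M : ChowMotives V A} {K : K3Motive M}

theorem p_IND (hTW : Stmt_TW V A M) (hSHF : Stmt_SHF A) : Stmt_IND V A M K := by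
  intro hT n
  induction n with
  | zero =>
    refine ⟨K.S, (ρ_ K.t).hom ≫ K.inc ≫ (λ_ (M.h K.S)).inv,
      (λ_ (M.h K.S)).hom ≫ K.pr ≫ (ρ_ K.t).inv, ?_⟩
    have h1 : alt K.t (0 + 1) = 𝟙 (K.t ⊗ 𝟙_ A) := alt_one (exchE K.t)
    have h2 : ((ρ_ K.t).hom ≫ K.inc ≫ (λ_ (M.h K.S)).inv) ≫
        ((λ_ (M.h K.S)).hom ≫ K.pr ≫ (ρ_ K.t).inv) = 𝟙 (K.t ⊗ 𝟙_ A) := by
      simp only [Category.assoc, Iso.inv_hom_id_assoc]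
      rw [← Category.assoc K.inc, K.inc_pr, Category.id_comp, Iso.hom_inv_id]
    exact h2.trans h1.symm
  | succ n ih =>
    obtain ⟨Y, f, g, hfg⟩ := ih
    obtain ⟨Z, ⟨θ⟩⟩ := M.prod K.S Y
    obtain ⟨σ, hσ⟩ := hSHF (tpow M.L n) (M.h K.S) (M.h Y)
    have hpp : alt K.t (n + 1) ≫ alt K.t (n + 1) = alt K.t (n + 1) :=
      alt_idem (exchE K.t) (n + 1)
    have hqq : alt K.t (n + 2) ≫ alt K.t (n + 2) = alt K.t (n + 2) :=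
      alt_idem (exchE K.t) (n + 2)
    have hpq : K.t ◁ alt K.t (n + 1) ≫ alt K.t (n + 2) = alt K.t (n + 2) :=
      Lalt_alt (exchE K.t) (n + 1)
    obtain ⟨W, F, G, ⟨X, hX⟩, hFG⟩ := IND_step (t := K.t) (H := M.h K.S) (T := tpow K.t (n + 1))
      (P := tpow M.L n) (Y' := M.h Y) (Z' := M.h Z) (inc := K.inc) (pr := K.pr) K.inc_pr
      (f := f) (g := g) (p := alt K.t (n + 1)) hfg hpp (q := alt K.t (n + 2)) hqq hpq θ σ hσ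
      (M.zeroCycles K.S Y) (fun z hz w => hT n z hz w) (hTW n)
      (Q := fun W => ∃ X : V, Nonempty (W ≅ M.L ⊗ M.h X)) (fun e he => by
        obtain ⟨X, a, b, hab⟩ := M.blochSrinivas Z Z e he
        exact ⟨_, a, b, ⟨X, ⟨Iso.refl _⟩⟩, hab⟩)
    obtain ⟨i⟩ := hX
    -- the isomorphism
    have j : tpow M.L n ⊗ W ≅ tpow M.L (n + 1) ⊗ M.h X :=
      whiskerLeftIso (tpow M.L n) i ≪≫ (α_ (tpow M.L n) M.L (M.h X)).symm ≪≫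
        whiskerRightIso (β_ (tpow M.L n) M.L) (M.h X)
    exact ⟨X, F ≫ j.hom, j.inv ≫ G, IND_conj F G j hFG⟩

end

end Pool.VAS
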