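import Pool.Agent.Work.MP_292d0f_va.Interface

/-! # Block SHF: the exchange of the first two factors on zero-cycles -/

open CategoryTheory MonoidalCategory
open Pool.Agent.Work.MP_c42eb9_num.Defs Pool.Agent.Work.MP_c42eb9_num

namespace Pool.VAS

universe v u w

variable (A : Type u) [Category.{v} A] [MonoidalCategory A] [SymmetricCategory A]
  [Preadditive A] [MonoidalPreadditive A] [Linear ℚ A] [MonoidalLinear ℚ A]

theorem p_SHF : Stmt_SHF A := by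
  intro P X Y
  refine ⟨(α_ P X Y).symm ≪≫ whiskerRightIso (β_ P X) Y ≪≫ α_ X P Y, fun a b => ?_⟩
  simp only [Iso.trans_hom, Iso.symm_hom, whiskerRightIso_hom]
  have h1 : P ◁ ((λ_ (𝟙_ A)).inv ≫ (a ⊗ₘ b)) ≫ (α_ P X Y).inv ≫ (β_ P X).hom ▷ Y ≫
      (α_ X P Y).hom = P ◁ (λ_ (𝟙_ A)).inv ≫ (α_ P (𝟙_ A) (𝟙_ A)).inv ≫
        (P ◁ a ≫ (β_ P X).hom) ▷ 𝟙_ A ≫ (α_ X P (𝟙_ A)).hom ≫ X ◁ P ◁ b := by
    rw [MonoidalCategory.tensorHom_def]
    have h2 : (α_ X P (𝟙_ A)).hom ≫ X ◁ P ◁ b = (X ⊗ P) ◁ b ≫ (α_ X P Y).hom := by simp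
    rw [h2, comp_whiskerRight, Category.assoc, ← whisker_exchange_assoc]
    simp
  rw [h1, BraidedCategory.braiding_naturality_right, braiding_tensorUnit_right,
    MonoidalCategory.tensorHom_def]
  monoidal

end Pool.VAS
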