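import Pool.Agent.Work.MP_292d0f_va.Interface

/-!
# Block TW: the twist with a power of the Lefschetz motive is fully faithful
-/

set_option autoImplicit false

open CategoryTheory MonoidalCategory
open Pool.Agent.Work.MP_c42eb9_num.Defs Pool.Agent.Work.MP_c42eb9_num

namespace Pool.VAS

universe v u w

variable (V : Type w) (A : Type u) [Category.{v} A] [MonoidalCategory A] [SymmetricCategory A]
  [Preadditive A] [MonoidalPreadditive A] [Linear ℚ A] [MonoidalLinear ℚ A]
  (M : ChowMotives V A)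

omit [SymmetricCategory A] [Preadditive A] [MonoidalPreadditive A] [Linear ℚ A]
  [MonoidalLinear ℚ A] [MonoidalCategory A] in
theorem TW_iso {X Y X' Y' : A} (a : X' ≅ X) (b : Y ≅ Y') :
    Function.Bijective (fun f : X ⟶ Y => a.hom ≫ f ≫ b.hom) :=
  (Iso.homCongr a.symm b).bijective

theorem p_TW : Stmt_TW V A M := by
  intro n
  induction n with
  | zero =>
    intro X Y
    have e : (fun f : X ⟶ Y => (tpow M.L 0) ◁ f) =
        fun f : X ⟶ Y => (λ_ X).hom ≫ f ≫ (λ_ Y).symm.hom := by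
      funext f
      exact id_whiskerLeft f
    rw [e]
    exact TW_iso A (λ_ X) (λ_ Y).symm
  | succ n ih =>
    intro X Y
    have e : (fun f : X ⟶ Y => (tpow M.L (n + 1)) ◁ f) =
        (fun f : M.L ⊗ (tpow M.L n ⊗ X) ⟶ M.L ⊗ (tpow M.L n ⊗ Y) =>
          (α_ M.L (tpow M.L n) X).hom ≫ f ≫ (α_ M.L (tpow M.L n) Y).symm.hom) ∘
        ((fun f : tpow M.L n ⊗ X ⟶ tpow M.L n ⊗ Y => M.L ◁ f) ∘
          fun f : X ⟶ Y => tpow M.L n ◁ f) := by
      funext f
      exact tensor_whiskerLeft M.L (tpow M.L n) f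
    rw [e]
    exact (TW_iso A (α_ M.L (tpow M.L n) X) (α_ M.L (tpow M.L n) Y).symm).comp
      ((M.cancel _ _).comp (ih X Y))

end Pool.VAS
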