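import Pool.Agent.Work.MP_292d0f_va.Interface

/-! # Block ADD -/

set_option autoImplicit false

open CategoryTheory MonoidalCategory
open Pool.Agent.Work.MP_c42eb9_num.Defs Pool.Agent.Work.MP_c42eb9_num

namespace Pool.VAS

universe v u w

section

variable (A : Type u) [Category.{v} A] [MonoidalCategory A] [SymmetricCategory A]
  [Preadditive A] [MonoidalPreadditive A] [Linear ℚ A] [MonoidalLinear ℚ A]

theorem p_ADD : Stmt_ADD A := by
  intro N a b
  induction a with
  | zero => exact ⟨eqToIso (by rw [Nat.zero_add]) ≪≫ (λ_ (tpow N b)).symm⟩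
  | succ a ih =>
    obtain ⟨e⟩ := ih
    have h : tpow N (a + 1 + b) = N ⊗ tpow N (a + b) := by
      rw [Nat.add_right_comm]
      rfl
    exact ⟨eqToIso h ≪≫ whiskerLeftIso N e ≪≫ (α_ N (tpow N a) (tpow N b)).symm⟩

end

end Pool.VAS
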