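import Pool.Agent.Work.MP_292d0f_va.Interface

open CategoryTheory MonoidalCategory
open Pool.Agent.Work.MP_c42eb9_num.Defs Pool.Agent.Work.MP_c42eb9_num

namespace Pool.VAS

universe v u w

section

variable (A : Type u) [Category.{v} A] [MonoidalCategory A] [SymmetricCategory A]
  [Preadditive A] [MonoidalPreadditive A] [Linear ℚ A] [MonoidalLinear ℚ A]

theorem BRL_aux {A : Type u} [Category.{v} A] [MonoidalCategory A] [SymmetricCategory A]
    (L X : A) (hL : (β_ L L).hom = 𝟙 (L ⊗ L)) (hX : (β_ X X).hom = 𝟙 (X ⊗ X)) :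
    (β_ (L ⊗ X) (L ⊗ X)).hom = 𝟙 ((L ⊗ X) ⊗ (L ⊗ X)) := by
  have h1 : (β_ X (L ⊗ X)).hom = (α_ X L X).inv ≫ (β_ X L).hom ▷ X := by
    rw [BraidedCategory.braiding_tensor_right_hom, hX]
    simp
  have h2 : (β_ L (L ⊗ X)).hom = L ◁ (β_ L X).hom ≫ (α_ L X L).inv := by
    rw [BraidedCategory.braiding_tensor_right_hom, hL]
    simp
  rw [BraidedCategory.braiding_tensor_left_hom, h1, h2]
  have h3 : (β_ X L).hom ≫ (β_ L X).hom = 𝟙 _ := SymmetricCategory.symmetry X L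
  have h4 : L ◁ ((β_ X L).hom ▷ X) ≫ (α_ L (L ⊗ X) X).inv =
      (α_ L (X ⊗ L) X).inv ≫ (L ◁ (β_ X L).hom) ▷ X := by
    rw [associator_inv_naturality_middle]
  rw [whiskerLeft_comp, comp_whiskerRight]
  simp only [Category.assoc]
  rw [reassoc_of% h4]
  have h5 : (L ◁ (β_ X L).hom) ▷ X ≫ (L ◁ (β_ L X).hom) ▷ X = 𝟙 _ := by
    rw [← comp_whiskerRight, ← whiskerLeft_comp, h3]
    simp
  rw [reassoc_of% h5]
  monoidal

theorem p_BRL : Stmt_BRL.{v, u} A := by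
  intro L hL n
  induction n with
  | zero =>
    show (β_ (𝟙_ A) (𝟙_ A)).hom = 𝟙 (𝟙_ A ⊗ 𝟙_ A)
    rw [braiding_tensorUnit_left, unitors_equal]
    simp
  | succ n ih => exact BRL_aux L (tpow L n) hL ih

end

end Pool.VAS
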