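import Pool.Agent.Work.MP_292d0f_va.Interface

/-!
# Block CTR: antisymmetric tensors killed by `ε` are fixed by `𝟙 - ε ≫ o`
-/

open CategoryTheory MonoidalCategory
open Pool.Agent.Work.MP_c42eb9_num.Defs Pool.Agent.Work.MP_c42eb9_num

namespace Pool.VAS

universe v u w

section

variable (A : Type u) [Category.{v} A] [MonoidalCategory A] [SymmetricCategory A]
  [Preadditive A] [MonoidalPreadditive A] [Linear ℚ A] [MonoidalLinear ℚ A]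

omit [SymmetricCategory A] [MonoidalPreadditive A] [Linear ℚ A] [MonoidalLinear ℚ A] in
theorem ctr_aux {X N W W' : A} (ε : N ⟶ 𝟙_ A) (o : 𝟙_ A ⟶ N) (T : W ⟶ W') (z : X ⟶ N ⊗ W)
    (h : z ≫ (ε ▷ W ≫ (λ_ W).hom) = 0) : z ≫ ((ε ≫ o) ⊗ₘ T) = 0 := by
  have h1 : z ≫ ε ▷ W = 0 := by
    have h2 : (z ≫ (ε ▷ W ≫ (λ_ W).hom)) ≫ (λ_ W).inv = 0 := by
      rw [h, Limits.zero_comp]
    simpa only [Category.assoc, Iso.hom_inv_id, Category.comp_id] using h2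
  have h3 : ((ε ≫ o) ⊗ₘ T) = ε ▷ W ≫ (o ⊗ₘ T) := by
    rw [MonoidalCategory.tensorHom_def, MonoidalCategory.tensorHom_def, comp_whiskerRight, Category.assoc]
  rw [h3, ← Category.assoc, h1, Limits.zero_comp]

omit [SymmetricCategory A] [MonoidalPreadditive A] [MonoidalLinear ℚ A] [MonoidalCategory A] in
theorem ctr_aux2 {X W : A} (z : X ⟶ W) (P S R : W ⟶ W) (c : ℚ)
    (h1 : z ≫ P = z) (e : P ≫ 𝟙 W = P ≫ S + c • (P ≫ R ≫ P)) (h2 : z ≫ R = 0) : z ≫ S = z := by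
  have e2 : z ≫ (P ≫ 𝟙 W) = z ≫ (P ≫ S + c • (P ≫ R ≫ P)) := by rw [e]
  rw [Category.comp_id, h1, Preadditive.comp_add, Linear.comp_smul, ← Category.assoc z P S, h1,
    ← Category.assoc z P (R ≫ P), h1, ← Category.assoc z R P, h2, Limits.zero_comp, smul_zero,
    add_zero] at e2
  exact e2.symm

theorem p_CTR (hEXP : Stmt_EXP A) : Stmt_CTR A := by
  intro N X ε o n z h1 h2
  have hb : (β_ (𝟙_ A) (𝟙_ A)).hom = 𝟙 (𝟙_ A ⊗ 𝟙_ A) := by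
    rw [braiding_tensorUnit_left, ← unitors_inv_equal, Iso.hom_inv_id]
  have e := hEXP N (𝟙_ A) hb (𝟙 N - ε ≫ o) ε o n
  rw [sub_add_cancel, tpowMap_id] at e
  exact ctr_aux2 A z (alt N (n + 1)) (tpowMap (𝟙 N - ε ≫ o) (n + 1))
    ((ε ≫ o) ⊗ₘ tpowMap (𝟙 N - ε ≫ o) n : tpow N (n + 1) ⟶ tpow N (n + 1)) ((n : ℚ) + 1) h1 e
    (ctr_aux A ε o (tpowMap (𝟙 N - ε ≫ o) n) z h2)

end

end Pool.VAS
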