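import Pool.Agent.Work.MP_292d0f_va.Interface

/-!
Block EXP: the expansion of the tensor power of a sum on antisymmetric tensors.
-/

open CategoryTheory MonoidalCategory
open Pool.Agent.Work.MP_c42eb9_num.Defs Pool.Agent.Work.MP_c42eb9_num

namespace Pool.VAS

universe v u w

section

variable (A : Type u) [Category.{v} A] [MonoidalCategory A] [SymmetricCategory A]
  [Preadditive A] [MonoidalPreadditive A] [Linear ℚ A] [MonoidalLinear ℚ A]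

variable {A}

omit [SymmetricCategory A] in
theorem EXP_tensor_smul {W X Y Z : A} (f : W ⟶ X) (r : ℚ) (g : Y ⟶ Z) :
    f ⊗ₘ (r • g) = r • (f ⊗ₘ g) := by
  rw [MonoidalCategory.tensorHom_def, MonoidalCategory.tensorHom_def,
    MonoidalLinear.whiskerLeft_smul, Linear.comp_smul]

omit [SymmetricCategory A] in
/-- Absorbing on both sides. -/
theorem EXP_absorb {N Y : A} (P : N ⊗ Y ⟶ N ⊗ Y) (q : Y ⟶ Y) (hPQ : P ≫ N ◁ q = P)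
    (hQP : N ◁ q ≫ P = P) (x : N ⟶ N) (f : Y ⟶ Y) :
    P ≫ (x ⊗ₘ (q ≫ f ≫ q)) ≫ P = P ≫ (x ⊗ₘ f) ≫ P := by
  have h : (x ⊗ₘ (q ≫ f ≫ q)) = N ◁ q ≫ (x ⊗ₘ f) ≫ N ◁ q := by
    rw [← id_tensorHom, tensorHom_comp_tensorHom, tensorHom_comp_tensorHom, Category.comp_id,
      Category.id_comp]
  rw [h, Category.assoc, Category.assoc, hQP, ← Category.assoc P, hPQ]

omit [SymmetricCategory A] in
theorem EXP_absorbL {N Y : A} (P : N ⊗ Y ⟶ N ⊗ Y) (q : Y ⟶ Y) (hPQ : P ≫ N ◁ q = P)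
    (x : N ⟶ N) (f : Y ⟶ Y) :
    P ≫ (x ⊗ₘ (q ≫ f)) = P ≫ (x ⊗ₘ f) := by
  have h : (x ⊗ₘ (q ≫ f)) = N ◁ q ≫ (x ⊗ₘ f) := by
    rw [← id_tensorHom, tensorHom_comp_tensorHom, Category.id_comp]
  rw [h, ← Category.assoc P, hPQ]

omit [SymmetricCategory A] in
/-- The inductive step. -/
theorem EXP_step {N Y : A} (P : N ⊗ Y ⟶ N ⊗ Y) (q : Y ⟶ Y) (hPQ : P ≫ N ◁ q = P)
    (hQP : N ◁ q ≫ P = P) (hPP : P ≫ P = P) (a b : N ⟶ N) (S T B : Y ⟶ Y) (c : ℚ)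
    (hS : P ≫ ((a + b) ⊗ₘ S) = ((a + b) ⊗ₘ S) ≫ P)
    (hT : P ≫ (a ⊗ₘ T) = (a ⊗ₘ T) ≫ P)
    (IH : q ≫ S = q ≫ T + c • (q ≫ B ≫ q))
    (h3 : P ≫ (a ⊗ₘ B) ≫ P = P ≫ (b ⊗ₘ T) ≫ P)
    (h4 : P ≫ (b ⊗ₘ B) ≫ P = 0) :
    P ≫ ((a + b) ⊗ₘ S) = P ≫ (a ⊗ₘ T) + (c + 1) • (P ≫ (b ⊗ₘ T) ≫ P) := by
  have e0 : ∀ F : N ⊗ Y ⟶ N ⊗ Y, P ≫ F = F ≫ P → P ≫ F = P ≫ F ≫ P := by
    intro F hF
    rw [← hF, ← Category.assoc, hPP]
  have e1 : P ≫ ((a + b) ⊗ₘ S) ≫ P = P ≫ ((a + b) ⊗ₘ (q ≫ S)) ≫ P := by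
    rw [← Category.assoc P, ← Category.assoc P, EXP_absorbL P q hPQ]
  have e2 : P ≫ ((a + b) ⊗ₘ (q ≫ T)) ≫ P = P ≫ (a ⊗ₘ T) ≫ P + P ≫ (b ⊗ₘ T) ≫ P := by
    rw [← Category.assoc P, EXP_absorbL P q hPQ, Category.assoc,
      MonoidalPreadditive.add_tensor,
      Preadditive.add_comp, Preadditive.comp_add]
  have e3 : P ≫ ((a + b) ⊗ₘ (q ≫ B ≫ q)) ≫ P = P ≫ (b ⊗ₘ T) ≫ P := by
    rw [EXP_absorb P q hPQ hQP, MonoidalPreadditive.add_tensor, Preadditive.add_comp, Preadditive.comp_add, h3, h4,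
      add_zero]
  rw [e0 _ hS, e1, IH, MonoidalPreadditive.tensor_add, EXP_tensor_smul, Preadditive.add_comp, Linear.smul_comp,
    Preadditive.comp_add, Linear.comp_smul, e2, e3, e0 _ hT, add_smul, one_smul]
  abel

omit [MonoidalCategory A] [SymmetricCategory A] [MonoidalPreadditive A] [MonoidalLinear ℚ A] in
theorem EXP_zero {X Y : A} (f : X ⟶ Y) (h : f = -f) : f = 0 := by
  have h2 : (2 : ℚ) • f = 0 := by
    rw [two_smul]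
    nth_rewrite 1 [h]
    exact neg_add_cancel f
  have h3 := congrArg (fun g => (2 : ℚ)⁻¹ • g) h2
  simp only [smul_smul, smul_zero] at h3
  rw [inv_mul_cancel₀ (by norm_num), one_smul] at h3
  exact h3

omit [Preadditive A] [MonoidalPreadditive A] [Linear ℚ A] [MonoidalLinear ℚ A] in
/-- A square through an object with trivial exchange is fixed by the exchange. -/
theorem EXP_exch {N Λ Z W : A} (hΛ : (β_ Λ Λ).hom = 𝟙 (Λ ⊗ Λ)) (i : Λ ⟶ N) (g : Z ⟶ W) :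
    (i ⊗ₘ (i ⊗ₘ g)) ≫ ((α_ N N W).inv ≫ (β_ N N).hom ▷ W ≫ (α_ N N W).hom) =
      i ⊗ₘ (i ⊗ₘ g) := by
  have h := exch_nat_aux (X := Λ) (Y := N) i g
  rw [← h, hΛ, id_whiskerRight, Category.id_comp, Iso.inv_hom_id, Category.id_comp]

omit [MonoidalLinear ℚ A] in
/-- A square through an object with trivial exchange is killed by the antisymmetriser. -/
theorem EXP_kill {N Λ Z : A} (hΛ : (β_ Λ Λ).hom = 𝟙 (Λ ⊗ Λ)) (i : Λ ⟶ N) (n : ℕ)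
    (g : Z ⟶ tpow N n) :
    (i ⊗ₘ (i ⊗ₘ g) : Λ ⊗ (Λ ⊗ Z) ⟶ tpow N (n + 2)) ≫ alt N (n + 2) = 0 := by
  apply EXP_zero
  have h1 : exch N n ≫ alt N (n + 2) = -alt N (n + 2) := exch_alt (exchE N) n
  have h2 : (i ⊗ₘ (i ⊗ₘ g) : Λ ⊗ (Λ ⊗ Z) ⟶ tpow N (n + 2)) ≫ exch N n = i ⊗ₘ (i ⊗ₘ g) :=
    EXP_exch hΛ i g
  have h3 : ((i ⊗ₘ (i ⊗ₘ g) : Λ ⊗ (Λ ⊗ Z) ⟶ tpow N (n + 2)) ≫ exch N n) ≫ alt N (n + 2) =
      -((i ⊗ₘ (i ⊗ₘ g) : Λ ⊗ (Λ ⊗ Z) ⟶ tpow N (n + 2)) ≫ alt N (n + 2)) := by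
    refine (Category.assoc _ _ _).trans ?_
    refine (congrArg (fun t => (i ⊗ₘ (i ⊗ₘ g) : Λ ⊗ (Λ ⊗ Z) ⟶ tpow N (n + 2)) ≫ t) h1).trans ?_
    exact Preadditive.comp_neg _ _
  exact (congrArg (fun t => t ≫ alt N (n + 2)) h2).symm.trans h3

omit [MonoidalCategory A] [SymmetricCategory A] [MonoidalPreadditive A] [Linear ℚ A]
  [MonoidalLinear ℚ A] in
theorem EXP_three {X : A} (P s F F' : X ⟶ X) (h : P ≫ F = P ≫ F' ≫ (-s)) (hs : s ≫ P = -P) :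
    P ≫ F ≫ P = P ≫ F' ≫ P := by
  rw [← Category.assoc, h, Category.assoc, Category.assoc, Preadditive.neg_comp, hs, neg_neg]

theorem p_EXP : Stmt_EXP A := by
  intro N Λ hΛ a p i n
  induction n with
  | zero =>
    have h1 : alt N (0 + 1) = 𝟙 (tpow N (0 + 1)) := alt_one (exchE N)
    have e1 : alt N (0 + 1) ≫ tpowMap (a + p ≫ i) (0 + 1) = tpowMap (a + p ≫ i) (0 + 1) := by
      rw [h1]; exact Category.id_comp _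
    have e2 : alt N (0 + 1) ≫ tpowMap a (0 + 1) = tpowMap a (0 + 1) := by
      rw [h1]; exact Category.id_comp _
    have e3 : alt N (0 + 1) ≫ ((p ≫ i) ⊗ₘ tpowMap a 0 : tpow N (0 + 1) ⟶ tpow N (0 + 1)) ≫
        alt N (0 + 1) = ((p ≫ i) ⊗ₘ tpowMap a 0 : tpow N (0 + 1) ⟶ tpow N (0 + 1)) := by
      rw [h1]
      exact (Category.id_comp _).trans (Category.comp_id _)
    rw [e1, e2, e3]
    have e4 : ((0 : ℕ) : ℚ) + 1 = 1 := by norm_num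
    rw [e4, one_smul]
    exact MonoidalPreadditive.add_tensor _ _ _
  | succ n ih =>
    have hcast : ((n + 1 : ℕ) : ℚ) + 1 = ((n : ℚ) + 1) + 1 := by push_cast; ring
    rw [hcast]
    have hPQ : alt N (n + 2) ≫ (N ◁ alt N (n + 1) : tpow N (n + 2) ⟶ tpow N (n + 2)) =
        alt N (n + 2) := alt_Lalt (exchE N) (n + 1)
    have hQP : (N ◁ alt N (n + 1) : tpow N (n + 2) ⟶ tpow N (n + 2)) ≫ alt N (n + 2) =
        alt N (n + 2) := Lalt_alt (exchE N) (n + 1)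
    have hPP : alt N (n + 2) ≫ alt N (n + 2) = alt N (n + 2) := alt_idem (exchE N) (n + 2)
    have hs : exch N n ≫ alt N (n + 2) = -alt N (n + 2) := exch_alt (exchE N) n
    have hsw : alt N (n + 2) ≫ (a ⊗ₘ ((p ≫ i) ⊗ₘ tpowMap a n) : tpow N (n + 2) ⟶ tpow N (n + 2)) =
        alt N (n + 2) ≫ ((p ≫ i) ⊗ₘ (a ⊗ₘ tpowMap a n) : tpow N (n + 2) ⟶ tpow N (n + 2)) ≫
          (-exch N n) := alt_swap (exchE N) natE_exch n a (p ≫ i) (tpowMap a n)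
    have h3 : alt N (n + 2) ≫
        (a ⊗ₘ ((p ≫ i) ⊗ₘ tpowMap a n) : tpow N (n + 2) ⟶ tpow N (n + 2)) ≫ alt N (n + 2) =
        alt N (n + 2) ≫ ((p ≫ i) ⊗ₘ (a ⊗ₘ tpowMap a n) : tpow N (n + 2) ⟶ tpow N (n + 2)) ≫
          alt N (n + 2) :=
      EXP_three (alt N (n + 2)) (exch N n) _ _ hsw hs
    have hfac : ((p ≫ i) ⊗ₘ ((p ≫ i) ⊗ₘ tpowMap a n) : tpow N (n + 2) ⟶ tpow N (n + 2)) =
        (p ⊗ₘ (p ⊗ₘ tpowMap a n) : tpow N (n + 2) ⟶ Λ ⊗ (Λ ⊗ tpow N n)) ≫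
          (i ⊗ₘ (i ⊗ₘ 𝟙 (tpow N n))) := by
      show ((p ≫ i) ⊗ₘ ((p ≫ i) ⊗ₘ tpowMap a n)) = (p ⊗ₘ (p ⊗ₘ tpowMap a n)) ≫
          (i ⊗ₘ (i ⊗ₘ 𝟙 (tpow N n)))
      rw [tensorHom_comp_tensorHom, tensorHom_comp_tensorHom, Category.comp_id]
    have h4 : alt N (n + 2) ≫
        ((p ≫ i) ⊗ₘ ((p ≫ i) ⊗ₘ tpowMap a n) : tpow N (n + 2) ⟶ tpow N (n + 2)) ≫
          alt N (n + 2) = 0 := by
      have hk := EXP_kill hΛ i n (𝟙 (tpow N n))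
      have e5 : ((p ≫ i) ⊗ₘ ((p ≫ i) ⊗ₘ tpowMap a n) : tpow N (n + 2) ⟶ tpow N (n + 2)) ≫
          alt N (n + 2) = 0 := by
        rw [hfac]
        refine (Category.assoc _ _ _).trans ?_
        refine (congrArg (fun t =>
          (p ⊗ₘ (p ⊗ₘ tpowMap a n) : tpow N (n + 2) ⟶ Λ ⊗ (Λ ⊗ tpow N n)) ≫ t) hk).trans ?_
        exact Limits.comp_zero
      exact (congrArg (fun t => alt N (n + 2) ≫ t) e5).trans Limits.comp_zero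
    exact EXP_step (N := N) (Y := tpow N (n + 1)) (alt N (n + 2)) (alt N (n + 1)) hPQ hQP hPP a
      (p ≫ i) (tpowMap (a + p ≫ i) (n + 1)) (tpowMap a (n + 1)) ((p ≫ i) ⊗ₘ tpowMap a n)
      ((n : ℚ) + 1) (alt_nat (a + p ≫ i) (n + 2)) (alt_nat a (n + 2)) ih h3 h4

end

end Pool.VAS
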