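import Pool.Agent.Work.MP_292d0f_va.Interface

open CategoryTheory MonoidalCategory
open Pool.Agent.Work.MP_c42eb9_num.Defs Pool.Agent.Work.MP_c42eb9_num

namespace Pool.VAS

universe v u w

section

variable (V : Type w) (A : Type u) [Category.{v} A] [MonoidalCategory A] [SymmetricCategory A]
  [Preadditive A] [MonoidalPreadditive A] [Linear ℚ A] [MonoidalLinear ℚ A]
  (M : ChowMotives V A)

variable (K : K3Motive M)

theorem p_F31 (hCTR : Stmt_CTR A) (hWRI : Stmt_WRI V A M K) : Stmt_F31 V A M K := by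
  intro hk n l hn hl z hz hz0 w hw
  obtain ⟨w₀, hw₀⟩ := hWRI w hw
  have h1 := hCTR (M.h K.S) (tpow M.L l) K.deg K.pt n z hz hz0
  have h2 := hk n l hl z hz w₀
  rw [h1, ← hw₀] at h2
  exact h2

end

end Pool.VAS
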