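import Pool.Agent.Work.MP_292d0f_va.Interface

/-!
# Block F43 (helper16): coniveau implies the vanishing
-/

open CategoryTheory MonoidalCategory
open Pool.Agent.Work.MP_c42eb9_num.Defs Pool.Agent.Work.MP_c42eb9_num

namespace Pool.VAS

universe v u w

variable (V : Type w) (A : Type u) [Category.{v} A] [MonoidalCategory A] [SymmetricCategory A]
  [Preadditive A] [MonoidalPreadditive A] [Linear ℚ A] [MonoidalLinear ℚ A]
  (M : ChowMotives V A) (K : K3Motive M)

theorem p_F43 (hNEG : Stmt_NEG V A M) : Stmt_F43 V A M K := by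
  intro hC n l hl z
  obtain ⟨m, rfl⟩ : ∃ m, n = m + 1 := ⟨n - 1, by omega⟩
  obtain ⟨Y, f, g, hfg⟩ := hC m
  have h1 : z ≫ f = 0 := hNEG l m Y (z ≫ f) (by omega)
  calc z ≫ alt K.t (m + 1) = z ≫ (f ≫ g) := by rw [hfg]
    _ = (z ≫ f) ≫ g := (Category.assoc _ _ _).symm
    _ = 0 := by rw [h1, Limits.zero_comp]

end Pool.VAS
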