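import Pool.Agent.Work.MP_292d0f_va.Interface

/-!
# Block LEI: contraction of an antisymmetrization (typed by helper10)
-/

open CategoryTheory MonoidalCategory
open Pool.Agent.Work.MP_c42eb9_num.Defs Pool.Agent.Work.MP_c42eb9_num

namespace Pool.VAS

universe v u w

section

variable (A : Type u) [Category.{v} A] [MonoidalCategory A] [SymmetricCategory A]
  [Preadditive A] [MonoidalPreadditive A] [Linear ℚ A] [MonoidalLinear ℚ A]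

omit [MonoidalPreadditive A] [Linear ℚ A] [MonoidalLinear ℚ A] [Preadditive A] in
theorem LEI_exch {N Λ B Z Z' : A} (p : N ⟶ Λ) (r : N ⟶ B) (T : Z ⟶ Z') :
    ((α_ N N Z).inv ≫ (β_ N N).hom ▷ Z ≫ (α_ N N Z).hom) ≫ (p ⊗ₘ (r ⊗ₘ T)) =
      (r ⊗ₘ (p ⊗ₘ T)) ≫ ((α_ B Λ Z').inv ≫ (β_ B Λ).hom ▷ Z' ≫ (α_ Λ B Z').hom) := by
  rw [Category.assoc, Category.assoc, ← associator_naturality, associator_inv_naturality_assoc]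
  congr 1
  rw [← Category.assoc, ← Category.assoc]
  congr 1
  rw [← tensorHom_id, ← tensorHom_id, tensorHom_comp_tensorHom, tensorHom_comp_tensorHom,
    BraidedCategory.braiding_naturality, Category.id_comp, Category.comp_id]

omit [MonoidalLinear ℚ A] in
theorem LEI_aux {N Λ B X Y Z Z' : A} (i : X ⟶ N) (p : N ⟶ Λ) (r : N ⟶ B) (T : Z ⟶ Z')
    (a : N ⊗ Z ⟶ N ⊗ Z) (a' : B ⊗ Z' ⟶ B ⊗ Z') (ha : a ≫ (r ⊗ₘ T) = (r ⊗ₘ T) ≫ a')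
    (y : Y ⟶ N ⊗ Z) (c d : ℚ) (hir : i ≫ r = 0) :
    (i ⊗ₘ y) ≫ (c • (N ◁ a - d • (N ◁ a ≫
      ((α_ N N Z).inv ≫ (β_ N N).hom ▷ Z ≫ (α_ N N Z).hom) ≫ N ◁ a))) ≫
        (p ⊗ₘ (r ⊗ₘ T)) = c • ((i ≫ p) ⊗ₘ (y ≫ a ≫ (r ⊗ₘ T))) := by
  have h1 : (i ⊗ₘ y) ≫ N ◁ a ≫ (p ⊗ₘ (r ⊗ₘ T)) = (i ≫ p) ⊗ₘ (y ≫ a ≫ (r ⊗ₘ T)) := by
    rw [← id_tensorHom, tensorHom_comp_tensorHom, tensorHom_comp_tensorHom, Category.id_comp]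
  have h2 : N ◁ a ≫ (p ⊗ₘ (r ⊗ₘ T)) = (p ⊗ₘ (r ⊗ₘ T)) ≫ Λ ◁ a' := by
    rw [← id_tensorHom, ← id_tensorHom, tensorHom_comp_tensorHom, tensorHom_comp_tensorHom,
      ha, Category.id_comp, Category.comp_id]
  have h3 : (i ⊗ₘ y) ≫ N ◁ a ≫ (r ⊗ₘ (p ⊗ₘ T)) = 0 := by
    rw [← id_tensorHom, tensorHom_comp_tensorHom, tensorHom_comp_tensorHom, Category.id_comp,
      hir, zero_tensor']
  have h4 : (i ⊗ₘ y) ≫ (N ◁ a ≫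
      ((α_ N N Z).inv ≫ (β_ N N).hom ▷ Z ≫ (α_ N N Z).hom) ≫ N ◁ a) ≫
        (p ⊗ₘ (r ⊗ₘ T)) = 0 := by
    calc _ = (i ⊗ₘ y) ≫ N ◁ a ≫ ((α_ N N Z).inv ≫ (β_ N N).hom ▷ Z ≫ (α_ N N Z).hom) ≫
          (N ◁ a ≫ (p ⊗ₘ (r ⊗ₘ T))) := by simp only [Category.assoc]
      _ = (i ⊗ₘ y) ≫ N ◁ a ≫ (((α_ N N Z).inv ≫ (β_ N N).hom ▷ Z ≫ (α_ N N Z).hom) ≫
          (p ⊗ₘ (r ⊗ₘ T))) ≫ Λ ◁ a' := by rw [h2]; simp only [Category.assoc]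
      _ = ((i ⊗ₘ y) ≫ N ◁ a ≫ (r ⊗ₘ (p ⊗ₘ T))) ≫
          ((α_ B Λ Z').inv ≫ (β_ B Λ).hom ▷ Z' ≫ (α_ Λ B Z').hom) ≫ Λ ◁ a' := by
            rw [LEI_exch]; simp only [Category.assoc]
      _ = 0 := by rw [h3, Limits.zero_comp]
  rw [Linear.smul_comp, Linear.comp_smul, Preadditive.sub_comp, Preadditive.comp_sub, h1,
    Linear.smul_comp, Linear.comp_smul, h4, smul_zero, sub_zero]

/-- Block LEI. -/
theorem p_LEI : Stmt_LEI A := by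
  intro N Λ B X Y i p r n y hir
  exact LEI_aux A i p r (tpowMap r n) (alt N (n + 1)) (alt B (n + 1)) (alt_nat r (n + 1)) y
    (((n : ℚ) + 2)⁻¹) ((n : ℚ) + 1) hir

end

end Pool.VAS
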