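import Pool.Agent.Work.MP_292d0f_va.Interface

open CategoryTheory MonoidalCategory
open Pool.Agent.Work.MP_c42eb9_num.Defs Pool.Agent.Work.MP_c42eb9_num

namespace Pool.VAS

universe v u w

section

variable (A : Type u) [Category.{v} A] [MonoidalCategory A] [SymmetricCategory A]
  [Preadditive A] [MonoidalPreadditive A] [Linear ℚ A] [MonoidalLinear ℚ A]

theorem NIL_aux {A : Type u} [Category.{v} A] [Preadditive A] {X Y : A} (p : X ⟶ X) (f : X ⟶ Y)
    (g : Y ⟶ X) (hp : p ≫ p = p) (N : End X) (hN : N = p - p ≫ f ≫ g ≫ p) :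
    ∀ k : ℕ, ∃ h : Y ⟶ X, p - (show X ⟶ X from N ^ (k + 1)) = (p ≫ f) ≫ h
  | 0 => ⟨g ≫ p, by
      rw [zero_add, pow_one, hN]
      simp only [Category.assoc]
      abel⟩
  | k + 1 => by
      obtain ⟨h, hh⟩ := NIL_aux p f g hp N hN k
      have h1 : (show X ⟶ X from N ^ (k + 1 + 1)) = (show X ⟶ X from N ^ (k + 1)) ≫
          (show X ⟶ X from N) := by
        rw [pow_succ' N (k + 1)]
        rfl
      have h2 : p ≫ (show X ⟶ X from N) = (show X ⟶ X from N) := by
        show p ≫ N = N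
        rw [hN, Preadditive.comp_sub, hp, ← Category.assoc p p, hp]
      have h3 : p - (show X ⟶ X from N) = (p ≫ f) ≫ (g ≫ p) := by
        have h4 : (show X ⟶ X from N) = p - p ≫ f ≫ g ≫ p := hN
        rw [h4]
        simp only [Category.assoc, sub_sub_cancel]
      refine ⟨g ≫ p + h ≫ (show X ⟶ X from N), ?_⟩
      rw [h1, Preadditive.comp_add, ← h3, ← Category.assoc (p ≫ f) h, ← hh, Preadditive.sub_comp,
        h2]
      abel

theorem p_NIL : Stmt_NIL A := by
  intro X Y p f g hp hn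
  obtain ⟨k, hk⟩ := hn
  obtain ⟨h, hh⟩ := NIL_aux p f g hp _ rfl k
  refine ⟨h, ?_⟩
  have h0 : (show X ⟶ X from (show End X from p - p ≫ f ≫ g ≫ p) ^ (k + 1)) = 0 := by
    show (show End X from p - p ≫ f ≫ g ≫ p) ^ (k + 1) = (0 : End X)
    rw [pow_succ, hk, zero_mul]
  rw [← hh]
  refine (sub_eq_self).2 ?_
  exact h0

end

end Pool.VAS
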