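import Pool.Agent.Work.MP_292d0f_va.Interface

/-! Block PET: the projector of the transcendental part kills if the vanishing holds. -/

open CategoryTheory MonoidalCategory
open Pool.Agent.Work.MP_c42eb9_num.Defs Pool.Agent.Work.MP_c42eb9_num

namespace Pool.VAS

universe v u w

variable (V : Type w) (A : Type u) [Category.{v} A] [MonoidalCategory A] [SymmetricCategory A]
  [Preadditive A] [MonoidalPreadditive A] [Linear ℚ A] [MonoidalLinear ℚ A]
  (M : ChowMotives V A)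

variable {A} in
omit [SymmetricCategory A] [Preadditive A] [MonoidalPreadditive A] [Linear ℚ A]
  [MonoidalLinear ℚ A] in
theorem PET_aux {H L t T T' : A} (w : 𝟙_ A ⟶ t) (i : t ⟶ H) (z : L ⟶ T) (j : T ⟶ T') :
    (λ_ L).inv ≫ ((w ≫ i) ⊗ₘ (z ≫ j)) = ((λ_ L).inv ≫ (w ⊗ₘ z)) ≫ (i ⊗ₘ j) := by
  rw [Category.assoc, tensorHom_comp_tensorHom]

variable (K : K3Motive M)

theorem p_PET : Stmt_PET V A M K := by
  intro hV n l hl z hz w
  have h1 : ext (w ≫ K.inc) (z ≫ tpowMap (K.pr ≫ K.inc) (n + 1)) =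
      ext w (z ≫ tpowMap K.pr (n + 1)) ≫ tpowMap K.inc (n + 2) := by
    rw [tpowMap_comp, ← Category.assoc z]
    exact PET_aux w K.inc (z ≫ tpowMap K.pr (n + 1)) (tpowMap K.inc (n + 1))
  have h2 : ext w (z ≫ tpowMap K.pr (n + 1)) ≫ alt K.t (n + 2) = 0 :=
    hV (n + 2) l (by omega) (ext w (z ≫ tpowMap K.pr (n + 1)))
  rw [h1, Category.assoc, ← alt_nat K.inc (n + 2), ← Category.assoc, h2, Limits.zero_comp]

end Pool.VAS
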