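import Pool.Agent.Work.MP_292d0f_va.Interface

/-!
# Block STP: one more summand `L ^ (k + 1)`
-/

open CategoryTheory MonoidalCategory
open Pool.Agent.Work.MP_c42eb9_num.Defs Pool.Agent.Work.MP_c42eb9_num

namespace Pool.VAS

universe v u w

section Gen

variable {A : Type u} [Category.{v} A] [MonoidalCategory A] [SymmetricCategory A]
  [Preadditive A] [MonoidalPreadditive A] [Linear ℚ A] [MonoidalLinear ℚ A]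

omit [SymmetricCategory A] [Linear ℚ A] [MonoidalLinear ℚ A] in
theorem STP_tensor_zero {X Y X' Y' : A} (g : X' ⟶ Y') : g ⊗ₘ (0 : X ⟶ Y) = 0 := by
  rw [MonoidalCategory.tensorHom_def, MonoidalPreadditive.whiskerLeft_zero, Limits.comp_zero]

omit [SymmetricCategory A] [MonoidalPreadditive A] [MonoidalLinear ℚ A] [Preadditive A]
  [Linear ℚ A] in
theorem STP_unit {Λ P N : A} (w : 𝟙_ A ⟶ N) {T : A} (r : Λ ⟶ P) (f : P ⟶ T) :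
    (λ_ Λ).inv ≫ (w ⊗ₘ (r ≫ f)) = r ≫ (λ_ P).inv ≫ (w ⊗ₘ f) := by
  have e : w ⊗ₘ (r ≫ f) = (𝟙_ A) ◁ r ≫ (w ⊗ₘ f) := by
    rw [← id_tensorHom, tensorHom_comp_tensorHom, Category.id_comp]
  rw [e, ← Category.assoc, ← leftUnitor_inv_naturality, Category.assoc]

omit [SymmetricCategory A] [MonoidalPreadditive A] [MonoidalLinear ℚ A] [Preadditive A]
  [Linear ℚ A] in
theorem STP_left {P N : A} (w : 𝟙_ A ⟶ N) {T T' : A} (f : P ⟶ T) (g : T ⟶ T') :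
    ((λ_ P).inv ≫ (w ⊗ₘ f)) ≫ (N ◁ g) = (λ_ P).inv ≫ (w ⊗ₘ (f ≫ g)) := by
  rw [Category.assoc, ← id_tensorHom, tensorHom_comp_tensorHom, Category.comp_id]

omit [SymmetricCategory A] in
theorem STP_lin {P N T : A} (w : 𝟙_ A ⟶ N) (f g : P ⟶ T) (c : ℚ) :
    (λ_ P).inv ≫ (w ⊗ₘ (f + c • g)) = (λ_ P).inv ≫ (w ⊗ₘ f) + c • ((λ_ P).inv ≫ (w ⊗ₘ g)) := by
  rw [MonoidalCategory.tensorHom_def, MonoidalPreadditive.whiskerLeft_add,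
    MonoidalLinear.whiskerLeft_smul, Preadditive.comp_add, Preadditive.comp_add,
    Linear.comp_smul, Linear.comp_smul, ← MonoidalCategory.tensorHom_def,
    ← MonoidalCategory.tensorHom_def]

theorem STP_core {H Λ P W : A} (a1 : H ⊗ W ⟶ H ⊗ W) (a2 : H ⊗ (H ⊗ W) ⟶ H ⊗ (H ⊗ W))
    (ex : H ⊗ (H ⊗ W) ⟶ H ⊗ (H ⊗ W)) (hx : ex ≫ a2 = -a2) (hL : H ◁ a1 ≫ a2 = a2)
    (w : 𝟙_ A ⟶ H) (i : Λ ⟶ H) (y₁ : P ⟶ W)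
    (hSWP : (λ_ (Λ ⊗ P)).inv ≫ (w ⊗ₘ (i ⊗ₘ y₁)) ≫ ex = i ⊗ₘ ((λ_ P).inv ≫ (w ⊗ₘ y₁)))
    (h0 : ((λ_ P).inv ≫ (w ⊗ₘ y₁)) ≫ a1 = 0) :
    ((λ_ (Λ ⊗ P)).inv ≫ (w ⊗ₘ (i ⊗ₘ y₁))) ≫ a2 = 0 := by
  have e4 : (i ⊗ₘ ((λ_ P).inv ≫ (w ⊗ₘ y₁))) ≫ (H ◁ a1) = 0 := by
    have e5 : (i ⊗ₘ ((λ_ P).inv ≫ (w ⊗ₘ y₁))) ≫ (H ◁ a1) =
        (i ⊗ₘ (((λ_ P).inv ≫ (w ⊗ₘ y₁)) ≫ a1)) := by
      rw [← id_tensorHom, tensorHom_comp_tensorHom, Category.comp_id]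
    rw [h0, STP_tensor_zero] at e5
    exact e5
  have e6 : ((λ_ (Λ ⊗ P)).inv ≫ (w ⊗ₘ (i ⊗ₘ y₁))) ≫ a2 =
      -(((λ_ (Λ ⊗ P)).inv ≫ (w ⊗ₘ (i ⊗ₘ y₁)) ≫ ex) ≫ a2) := by
    rw [Category.assoc, Category.assoc, Category.assoc, hx, Preadditive.comp_neg,
      Preadditive.comp_neg, neg_neg]
  have e7 : (i ⊗ₘ ((λ_ P).inv ≫ (w ⊗ₘ y₁))) ≫ a2 = 0 := by
    calc (i ⊗ₘ ((λ_ P).inv ≫ (w ⊗ₘ y₁))) ≫ a2 =
        ((i ⊗ₘ ((λ_ P).inv ≫ (w ⊗ₘ y₁))) ≫ (H ◁ a1)) ≫ a2 := by rw [Category.assoc, hL]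
      _ = 0 := by rw [e4, Limits.zero_comp]
  rw [e6, hSWP, e7, neg_zero]

/-- The general form of the step. -/
theorem STP_gen {H W X : A} (a1 : H ⊗ W ⟶ H ⊗ W) (a2 : H ⊗ (H ⊗ W) ⟶ H ⊗ (H ⊗ W))
    (hL : H ◁ a1 ≫ a2 = a2) (F G Q : H ⊗ W ⟶ H ⊗ W) (c : ℚ)
    (hexp : a1 ≫ F = a1 ≫ G + c • (a1 ≫ Q ≫ a1)) (w : 𝟙_ A ⟶ H) (z : X ⟶ H ⊗ W)
    (hz : z ≫ a1 = z) (h1 : ((λ_ X).inv ≫ (w ⊗ₘ (z ≫ G))) ≫ a2 = 0)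
    (h2 : ((λ_ X).inv ≫ (w ⊗ₘ (z ≫ Q))) ≫ a2 = 0) :
    ((λ_ X).inv ≫ (w ⊗ₘ (z ≫ F))) ≫ a2 = 0 := by
  have e1 : z ≫ F = z ≫ G + c • ((z ≫ Q) ≫ a1) := by
    calc z ≫ F = z ≫ a1 ≫ F := by rw [← Category.assoc, hz]
      _ = z ≫ (a1 ≫ G + c • (a1 ≫ Q ≫ a1)) := by rw [hexp]
      _ = (z ≫ a1) ≫ G + c • (((z ≫ a1) ≫ Q) ≫ a1) := by
        rw [Preadditive.comp_add, Linear.comp_smul]
        simp only [Category.assoc]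
      _ = _ := by rw [hz]
  have e8 : ((λ_ X).inv ≫ (w ⊗ₘ ((z ≫ Q) ≫ a1))) ≫ a2 = 0 := by
    rw [← STP_left, Category.assoc, hL]
    exact h2
  rw [e1, STP_lin, Preadditive.add_comp, Linear.smul_comp, h1, e8, smul_zero, add_zero]

omit [SymmetricCategory A] in
theorem STP_zero {H W X Λ : A} (a2 : H ⊗ (H ⊗ W) ⟶ H ⊗ (H ⊗ W)) (w : 𝟙_ A ⟶ H)
    (z : X ⟶ H ⊗ W) (p : H ⟶ Λ) (i : Λ ⟶ H) (f : W ⟶ W) (hp : z ≫ p ▷ W = 0) :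
    ((λ_ X).inv ≫ (w ⊗ₘ (z ≫ ((p ≫ i) ⊗ₘ f)))) ≫ a2 = 0 := by
  have h1 : z ≫ ((p ≫ i) ⊗ₘ f) = (z ≫ p ▷ W) ≫ (i ⊗ₘ f) := by
    rw [Category.assoc, ← tensorHom_id, tensorHom_comp_tensorHom, Category.id_comp]
  rw [h1, hp, Limits.zero_comp, STP_tensor_zero, Limits.comp_zero, Limits.zero_comp]

theorem STP_pos {H W X Λ P : A} (a1 : H ⊗ W ⟶ H ⊗ W) (a2 : H ⊗ (H ⊗ W) ⟶ H ⊗ (H ⊗ W))
    (ex : H ⊗ (H ⊗ W) ⟶ H ⊗ (H ⊗ W)) (hx : ex ≫ a2 = -a2) (hL : H ◁ a1 ≫ a2 = a2)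
    (w : 𝟙_ A ⟶ H) (z : X ⟶ H ⊗ W) (p : H ⟶ Λ) (i : Λ ⟶ H) (f : W ⟶ W) (e : X ≅ Λ ⊗ P)
    (z₁ : P ⟶ W) (hz₁ : z ≫ p ▷ W = e.hom ≫ Λ ◁ z₁)
    (hSWP : ∀ y₁ : P ⟶ W, (λ_ (Λ ⊗ P)).inv ≫ (w ⊗ₘ (i ⊗ₘ y₁)) ≫ ex =
      i ⊗ₘ ((λ_ P).inv ≫ (w ⊗ₘ y₁)))
    (h0 : ((λ_ P).inv ≫ (w ⊗ₘ (z₁ ≫ f))) ≫ a1 = 0) :
    ((λ_ X).inv ≫ (w ⊗ₘ (z ≫ ((p ≫ i) ⊗ₘ f)))) ≫ a2 = 0 := by
  have h1 : z ≫ ((p ≫ i) ⊗ₘ f) = (z ≫ p ▷ W) ≫ (i ⊗ₘ f) := by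
    rw [Category.assoc, ← tensorHom_id, tensorHom_comp_tensorHom, Category.id_comp]
  have h6 : (e.hom ≫ Λ ◁ z₁) ≫ (i ⊗ₘ f) = e.hom ≫ (i ⊗ₘ (z₁ ≫ f)) := by
    rw [Category.assoc, ← id_tensorHom, tensorHom_comp_tensorHom, Category.id_comp]
  rw [h1, hz₁, h6, STP_unit, Category.assoc,
    STP_core a1 a2 ex hx hL w i (z₁ ≫ f) (hSWP _) h0, Limits.comp_zero]

omit [SymmetricCategory A] in
theorem STP_anti {H W X Λ P : A} (a1 : H ⊗ W ⟶ H ⊗ W) (b : W ⟶ W) (hb : a1 ≫ H ◁ b = a1)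
    (z : X ⟶ H ⊗ W) (hz : z ≫ a1 = z) (p : H ⟶ Λ) (e : X ≅ Λ ⊗ P) (z₁ : P ⟶ W)
    (hz₁ : Λ ◁ z₁ = e.inv ≫ z ≫ p ▷ W) : Λ ◁ (z₁ ≫ b) = Λ ◁ z₁ := by
  have hzL : z ≫ H ◁ b = z := by
    calc z ≫ H ◁ b = (z ≫ a1) ≫ H ◁ b := by rw [hz]
      _ = z ≫ a1 := by rw [Category.assoc, hb]
      _ = z := hz
  rw [whiskerLeft_comp, hz₁]
  calc (e.inv ≫ z ≫ p ▷ W) ≫ Λ ◁ b = e.inv ≫ z ≫ (p ▷ W ≫ Λ ◁ b) := by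
        simp only [Category.assoc]
    _ = e.inv ≫ (z ≫ H ◁ b) ≫ p ▷ W := by
        rw [← whisker_exchange]
        simp only [Category.assoc]
    _ = e.inv ≫ z ≫ p ▷ W := by rw [hzL]

end Gen

section Fin

variable (V : Type w) (A : Type u) [Category.{v} A] [MonoidalCategory A] [SymmetricCategory A]
  [Preadditive A] [MonoidalPreadditive A] [Linear ℚ A] [MonoidalLinear ℚ A]
  (M : ChowMotives V A) (K : K3Motive M)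

theorem STP_neg (hNEG : Stmt_NEG V A M) (hPOW : Stmt_POW V A M) (l k n : ℕ) (hlk : l < k)
    (x : tpow M.L l ⟶ tpow M.L k ⊗ tpow (M.h K.S) n) : x = 0 := by
  obtain ⟨Z, ⟨θ⟩⟩ := hPOW K.S n
  have h2 := hNEG l k Z (x ≫ tpow M.L k ◁ θ.inv) hlk
  have h3 := congrArg (fun x => x ≫ tpow M.L k ◁ θ.hom) h2
  simp only [Category.assoc, Limits.zero_comp] at h3
  rw [← whiskerLeft_comp, Iso.inv_hom_id, whiskerLeft_id, Category.comp_id] at h3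
  exact h3

theorem p_STP (hADD : Stmt_ADD A) (hTW : Stmt_TW V A M) (hNEG : Stmt_NEG V A M)
    (hPOW : Stmt_POW V A M) (hBRL : Stmt_BRL A) (hEXP : Stmt_EXP A) (hSWP : Stmt_SWP A) :
    Stmt_STP V A M K := by
  intro a j ha n l hl z hz w
  obtain ⟨k, hk⟩ : ∃ k, k = K.k j + 1 := ⟨_, rfl⟩
  have hk0 : 1 ≤ k := by omega
  have key : ∀ (p : M.h K.S ⟶ tpow M.L k) (i : tpow M.L k ⟶ M.h K.S),
      ext (w ≫ K.inc) (z ≫ tpowMap (a + p ≫ i) (n + 1)) ≫ alt (M.h K.S) (n + 2) = 0 := by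
    intro p i
    have hL : ∀ m, M.h K.S ◁ alt (M.h K.S) (m + 1) ≫ alt (M.h K.S) (m + 2) =
        alt (M.h K.S) (m + 2) := fun m => Lalt_alt (exchE (M.h K.S)) (m + 1)
    refine STP_gen (H := M.h K.S) (W := tpow (M.h K.S) n) (X := tpow M.L l)
      (alt (M.h K.S) (n + 1)) (alt (M.h K.S) (n + 2)) (hL n) (tpowMap (a + p ≫ i) (n + 1))
      (tpowMap a (n + 1)) ((p ≫ i) ⊗ₘ tpowMap a n) ((n : ℚ) + 1)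
      (hEXP (M.h K.S) (tpow M.L k) (hBRL M.L M.braid k) a p i n) (w ≫ K.inc) z hz
      (ha n l hl z hz w) ?_
    by_cases hlk : l < k
    · exact STP_zero (H := M.h K.S) (W := tpow (M.h K.S) n) (X := tpow M.L l)
        (alt (M.h K.S) (n + 2)) (w ≫ K.inc) z p i (tpowMap a n)
        (STP_neg V A M K hNEG hPOW l k n hlk _)
    · obtain ⟨l', rfl⟩ : ∃ l', l = k + l' := ⟨l - k, by omega⟩
      obtain ⟨n', rfl⟩ : ∃ n', n = n' + 1 := ⟨n - 1, by omega⟩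
      obtain ⟨e⟩ := hADD M.L k l'
      have hsurj := (hTW k (tpow M.L l') (tpow (M.h K.S) (n' + 1))).2
      obtain ⟨z', hz'⟩ : ∃ z' : tpow M.L (k + l') ⟶ M.h K.S ⊗ tpow (M.h K.S) (n' + 1),
        z' = z := ⟨z, rfl⟩
      obtain ⟨z₁, hz₁⟩ := hsurj (e.inv ≫ z' ≫ p ▷ tpow (M.h K.S) (n' + 1))
      have hz₁' : tpow M.L k ◁ z₁ = e.inv ≫ z' ≫ p ▷ tpow (M.h K.S) (n' + 1) := hz₁
      have hza : z' ≫ (alt (M.h K.S) (n' + 2) : M.h K.S ⊗ tpow (M.h K.S) (n' + 1) ⟶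
          M.h K.S ⊗ tpow (M.h K.S) (n' + 1)) = z' := by
        rw [hz']
        exact hz
      have hanti : z₁ ≫ alt (M.h K.S) (n' + 1) = z₁ := by
        apply (hTW k _ _).1
        exact STP_anti (H := M.h K.S) (W := tpow (M.h K.S) (n' + 1)) (alt (M.h K.S) (n' + 2))
          (alt (M.h K.S) (n' + 1)) (alt_Lalt (exchE (M.h K.S)) (n' + 1)) z' hza p e z₁ hz₁'
      have h5 : z' ≫ p ▷ tpow (M.h K.S) (n' + 1) = e.hom ≫ tpow M.L k ◁ z₁ := by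
        rw [hz₁', Iso.hom_inv_id_assoc]
      have h8 := ha n' l' (by omega) z₁ hanti w
      have h9 := STP_pos (H := M.h K.S) (W := tpow (M.h K.S) (n' + 1))
        (X := tpow M.L (k + l')) (Λ := tpow M.L k) (P := tpow M.L l')
        (alt (M.h K.S) (n' + 2)) (alt (M.h K.S) (n' + 3)) (exch (M.h K.S) (n' + 1))
        (exch_alt (exchE (M.h K.S)) (n' + 1)) (hL (n' + 1)) (w ≫ K.inc) z' p i
        (tpowMap a (n' + 1)) e z₁ h5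
        (fun y₁ => hSWP (M.h K.S) (tpow M.L k) (tpow M.L l') (tpow (M.h K.S) (n' + 1))
          (w ≫ K.inc) i y₁) h8
      rw [hz'] at h9
      exact h9
  subst hk
  exact key (K.up j) (K.dn j)

end Fin

end Pool.VAS
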