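import Pool.Agent.Work.MP_292d0f_va.Interface

set_option autoImplicit false

/-! # SUM: all the summands `L ^ (k + 1)` -/

open CategoryTheory MonoidalCategory
open Pool.Agent.Work.MP_c42eb9_num.Defs Pool.Agent.Work.MP_c42eb9_num

namespace Pool.VAS

universe v u w

variable (V : Type w) (A : Type u) [Category.{v} A] [MonoidalCategory A] [SymmetricCategory A]
  [Preadditive A] [MonoidalPreadditive A] [Linear ℚ A] [MonoidalLinear ℚ A]
  (M : ChowMotives V A) (K : K3Motive M)

theorem p_SUM : Stmt_SUM V A M K := by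
  classical
  intro hstep h0
  have key : ∀ s : Finset (Fin K.m), K.Kills (K.pr ≫ K.inc + ∑ j ∈ s, K.up j ≫ K.dn j) := by
    intro s
    induction s using Finset.induction_on with
    | empty => rw [Finset.sum_empty, add_zero]; exact h0
    | insert j s hj ih =>
      have e : K.pr ≫ K.inc + ∑ i ∈ insert j s, K.up i ≫ K.dn i =
          (K.pr ≫ K.inc + ∑ i ∈ s, K.up i ≫ K.dn i) + K.up j ≫ K.dn j := by
        rw [Finset.sum_insert hj]
        abel
      rw [e]
      exact hstep _ j ih
  have e : 𝟙 (M.h K.S) - K.deg ≫ K.pt = K.pr ≫ K.inc + ∑ j, K.up j ≫ K.dn j := by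
    rw [← K.sum]
    abel
  rw [e]
  exact key Finset.univ

end Pool.VAS
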