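import Pool.Agent.Work.MP_292d0f_va.Interface

set_option autoImplicit false

/-!
# Block SWP: exchange of a zero-cycle
-/

open CategoryTheory MonoidalCategory
open Pool.Agent.Work.MP_c42eb9_num.Defs Pool.Agent.Work.MP_c42eb9_num

namespace Pool.VAS

universe v u w

variable (A : Type u) [Category.{v} A] [MonoidalCategory A] [SymmetricCategory A]
  [Preadditive A] [MonoidalPreadditive A] [Linear ℚ A] [MonoidalLinear ℚ A]

omit [Preadditive A] [MonoidalPreadditive A] [Linear ℚ A] [MonoidalLinear ℚ A] in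
theorem SWP_coh (Λ P : A) :
    (λ_ (Λ ⊗ P)).inv ≫ (α_ (𝟙_ A) Λ P).inv ≫ (β_ (𝟙_ A) Λ).hom ▷ P ≫ (α_ Λ (𝟙_ A) P).hom =
      Λ ◁ (λ_ P).inv := by
  rw [braiding_tensorUnit_left, comp_whiskerRight]
  monoidal

theorem p_SWP : Stmt_SWP A := by
  intro N Λ P W w i y
  have e1 : (w ⊗ₘ (i ⊗ₘ y)) ≫ (α_ N N W).inv = (α_ (𝟙_ A) Λ P).inv ≫ ((w ⊗ₘ i) ⊗ₘ y) :=
    associator_inv_naturality w i y
  have e2 : ((w ⊗ₘ i) ⊗ₘ y) ≫ (β_ N N).hom ▷ W = (β_ (𝟙_ A) Λ).hom ▷ P ≫ ((i ⊗ₘ w) ⊗ₘ y) := by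
    rw [← tensorHom_id, ← tensorHom_id, tensorHom_comp_tensorHom, tensorHom_comp_tensorHom,
      BraidedCategory.braiding_naturality, Category.comp_id, Category.id_comp]
  have e3 : ((i ⊗ₘ w) ⊗ₘ y) ≫ (α_ N N W).hom = (α_ Λ (𝟙_ A) P).hom ≫ (i ⊗ₘ (w ⊗ₘ y)) :=
    associator_naturality i w y
  have e4 : (i ⊗ₘ ((λ_ P).inv ≫ (w ⊗ₘ y))) = Λ ◁ (λ_ P).inv ≫ (i ⊗ₘ (w ⊗ₘ y)) := by
    rw [← id_tensorHom, tensorHom_comp_tensorHom, Category.id_comp]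
  rw [e4, ← SWP_coh A Λ P]
  simp only [Category.assoc]
  rw [← e3, ← reassoc_of% e2, ← reassoc_of% e1]

end Pool.VAS
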