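import Pool.Agent.Work.MP_292d0f_va.Interface

/-!
# Theorem A on Voisin's anti-symmetrization conjecture: block TCC
-/

open CategoryTheory MonoidalCategory
open Pool.Agent.Work.MP_c42eb9_num.Defs Pool.Agent.Work.MP_c42eb9_num

namespace Pool.VAS

universe v u w

section

variable {A : Type u} [Category.{v} A] [MonoidalCategory A] [SymmetricCategory A]
  [Preadditive A] [MonoidalPreadditive A] [Linear ℚ A] [MonoidalLinear ℚ A]

omit [SymmetricCategory A] [Preadditive A] [MonoidalPreadditive A] [Linear ℚ A]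
  [MonoidalLinear ℚ A] in
theorem TCC_aux {P N N' W W' : A} (w : 𝟙_ A ⟶ N) (z : P ⟶ W) (f : N ⟶ N') (F : W ⟶ W') :
    ((λ_ P).inv ≫ (w ⊗ₘ z)) ≫ (f ⊗ₘ F) = (λ_ P).inv ≫ ((w ≫ f) ⊗ₘ (z ≫ F)) := by
  rw [Category.assoc, tensorHom_comp_tensorHom]

omit [SymmetricCategory A] [MonoidalPreadditive A] [MonoidalLinear ℚ A] in
theorem TCC_ext {N N' : A} {l n : ℕ} (L : A) (w : 𝟙_ A ⟶ N) (z : tpow L l ⟶ tpow N n)
    (f : N ⟶ N') : ext w z ≫ tpowMap f (n + 1) = ext (w ≫ f) (z ≫ tpowMap f n) :=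
  TCC_aux w z f (tpowMap f n)

omit [SymmetricCategory A] [Linear ℚ A] [MonoidalLinear ℚ A] in
theorem TCC_zero {X N W W' : A} (z : X ⟶ N ⊗ W) {N' : A} (f : N ⟶ N') (F : W ⟶ W')
    (d : N' ⟶ 𝟙_ A) (h : f ≫ d = 0) : (z ≫ (f ⊗ₘ F)) ≫ (d ▷ W' ≫ (λ_ W').hom) = 0 := by
  have h1 : (f ⊗ₘ F) ≫ (d ▷ W') = 0 := by
    rw [← tensorHom_id, tensorHom_comp_tensorHom, h, MonoidalPreadditive.zero_tensor]
  calc (z ≫ (f ⊗ₘ F)) ≫ (d ▷ W' ≫ (λ_ W').hom) = z ≫ ((f ⊗ₘ F) ≫ (d ▷ W')) ≫ (λ_ W').hom := by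
        simp only [Category.assoc]
    _ = 0 := by rw [h1, Limits.zero_comp, Limits.comp_zero]

end

section

variable (V : Type w) (A : Type u) [Category.{v} A] [MonoidalCategory A] [SymmetricCategory A]
  [Preadditive A] [MonoidalPreadditive A] [Linear ℚ A] [MonoidalLinear ℚ A]
  (M : ChowMotives V A) (K : K3Motive M)

theorem p_TCC : Stmt_TCC V A M K := by
  intro hQ c z hz w
  have h1 := hQ (c + 1) (Nat.succ_le_succ (Nat.zero_le c)) (z ≫ tpowMap K.inc (c + 2)) (by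
      rw [Category.assoc, ← alt_nat, ← Category.assoc, hz])
    (TCC_zero z K.inc (tpowMap K.inc (c + 1)) K.deg K.inc_deg) (w ≫ K.inc) (by
      rw [Category.assoc, K.inc_deg, Limits.comp_zero])
  have h2 : ext (w ≫ K.inc) (z ≫ tpowMap K.inc (c + 2)) ≫ tpowMap K.pr (c + 3) = ext w z := by
    refine (TCC_ext M.L (w ≫ K.inc) (z ≫ tpowMap K.inc (c + 2)) K.pr).trans ?_
    rw [Category.assoc, K.inc_pr, Category.comp_id, Category.assoc, ← tpowMap_comp, K.inc_pr,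
      tpowMap_id, Category.comp_id]
  have h3 : ext (w ≫ K.inc) (z ≫ tpowMap K.inc (c + 2)) ≫ alt (M.h K.S) (c + 3) = 0 := h1
  have h4 := congrArg (fun x => x ≫ tpowMap K.pr (c + 3)) h3
  simp only [Category.assoc, Limits.zero_comp] at h4
  rw [alt_nat, ← Category.assoc, h2] at h4
  exact h4

end

end Pool.VAS
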