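import Pool.Agent.Work.MP_292d0f_va.Interface

/-!
# Block TON: the case `N = 2`, `l = 1` contains `CH_0 t ∧ CH_0 t = 0`
-/

open CategoryTheory MonoidalCategory
open Pool.Agent.Work.MP_c42eb9_num.Defs Pool.Agent.Work.MP_c42eb9_num

namespace Pool.VAS

universe v u w

section Gen

variable {A : Type u} [Category.{v} A] [MonoidalCategory A] [SymmetricCategory A]
  [Preadditive A] [MonoidalPreadditive A] [Linear ℚ A] [MonoidalLinear ℚ A]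

theorem TON_zero_tensor {X Y X' Y' : A} (g : X' ⟶ Y') : (0 : X ⟶ Y) ⊗ₘ g = 0 := by
  rw [MonoidalCategory.tensorHom_def, MonoidalPreadditive.zero_whiskerRight, Limits.zero_comp]

/-- The first term of the contraction. -/
theorem TON_c1 {Λ P N T : A} (D : Λ ⟶ N) (a : P ⟶ T) (ε : N ⟶ 𝟙_ A) (h : D ≫ ε = 0) :
    (D ⊗ₘ a) ≫ ε ▷ T = 0 := by
  rw [← tensorHom_id, tensorHom_comp_tensorHom, h, TON_zero_tensor]

/-- The second term of the contraction. -/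
theorem TON_c2 {Λ P N t W W' : A} (D : Λ ⟶ N) (z : P ⟶ t ⊗ W) (i : t ⟶ N) (g : W ⟶ W')
    (ε : N ⟶ 𝟙_ A) (h : i ≫ ε = 0) :
    (D ⊗ₘ (z ≫ (i ⊗ₘ g))) ≫ ((α_ N N W').inv ≫ (β_ N N).hom ▷ W' ≫ (α_ N N W').hom) ≫
      ε ▷ (N ⊗ W') = 0 := by
  have e1 : D ⊗ₘ (z ≫ (i ⊗ₘ g)) = Λ ◁ z ≫ (D ⊗ₘ (i ⊗ₘ g)) := by
    rw [← id_tensorHom, tensorHom_comp_tensorHom, Category.id_comp]
  have e2 : (D ⊗ₘ (i ⊗ₘ g)) ≫ (α_ N N W').inv = (α_ Λ t W).inv ≫ ((D ⊗ₘ i) ⊗ₘ g) :=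
    associator_inv_naturality _ _ _
  have e3 : ((D ⊗ₘ i) ⊗ₘ g) ≫ (β_ N N).hom ▷ W' = (β_ Λ t).hom ▷ W ≫ ((i ⊗ₘ D) ⊗ₘ g) := by
    rw [← tensorHom_id, ← tensorHom_id, tensorHom_comp_tensorHom, tensorHom_comp_tensorHom,
      Category.comp_id, Category.id_comp, BraidedCategory.braiding_naturality]
  have e4 : ((i ⊗ₘ D) ⊗ₘ g) ≫ (α_ N N W').hom = (α_ t Λ W).hom ≫ (i ⊗ₘ (D ⊗ₘ g)) :=
    associator_naturality _ _ _
  have e5 : (i ⊗ₘ (D ⊗ₘ g)) ≫ ε ▷ (N ⊗ W') = 0 := TON_c1 i (D ⊗ₘ g) ε h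
  rw [e1]
  simp only [Category.assoc]
  rw [reassoc_of% e2, reassoc_of% e3, reassoc_of% e4, e5]
  simp only [Limits.comp_zero]

/-- The antisymmetriser of degree two, contracted. -/
theorem TON_alt2 {Λ' N : A} (y : Λ' ⟶ tpow N 2) (ε : N ⟶ 𝟙_ A)
    (h1 : y ≫ (show tpow N 2 ⟶ 𝟙_ A ⊗ tpow N 1 from ε ▷ tpow N 1) = 0)
    (h2 : y ≫ exch N 0 ≫ (show tpow N 2 ⟶ 𝟙_ A ⊗ tpow N 1 from ε ▷ tpow N 1) = 0) :
    (y ≫ alt N 2) ≫ forget ε 1 = 0 := by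
  have hL : Lalt (exchE N) 1 = 𝟙 _ := by
    unfold Lalt; rw [alt_one]; exact (LN N).map_id _
  have ha : alt N 2 = ((0 : ℕ) + 2 : ℚ)⁻¹ • (𝟙 _ - (((0 : ℕ) : ℚ) + 1) • exch N 0) := by
    have h := alt_succ_succ (exchE N) 0
    have e : Lalt (exchE N) 1 ≫ (exchE N).op 0 ≫ Lalt (exchE N) 1 = exch N 0 := by
      rw [hL, Category.comp_id, Category.id_comp]; rfl
    have h' : (exchE N).alt 2 = ((0 : ℕ) + 2 : ℚ)⁻¹ •
        (Lalt (exchE N) 1 - (((0 : ℕ) : ℚ) + 1) •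
          (Lalt (exchE N) 1 ≫ (exchE N).op 0 ≫ Lalt (exchE N) 1)) := h
    rw [e, hL] at h'
    exact h'
  have hf : forget ε 1 = (show tpow N 2 ⟶ 𝟙_ A ⊗ tpow N 1 from ε ▷ tpow N 1) ≫
    (λ_ (tpow N 1)).hom := rfl
  rw [ha, hf, Linear.comp_smul, Preadditive.comp_sub, Linear.comp_smul, Category.comp_id,
    Linear.smul_comp, Preadditive.sub_comp, Linear.smul_comp, Category.assoc, ← Category.assoc y,
    h1, Limits.zero_comp, ← Category.assoc (exch N 0), ← Category.assoc y, h2, Limits.zero_comp,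
    smul_zero, sub_zero, smul_zero]

theorem TON_unit {Λ P N : A} (w : 𝟙_ A ⟶ N) {T : A} (r : Λ ⟶ P) (f : P ⟶ T) :
    (λ_ Λ).inv ≫ (w ⊗ₘ (r ≫ f)) = r ≫ (λ_ P).inv ≫ (w ⊗ₘ f) := by
  have e : w ⊗ₘ (r ≫ f) = (𝟙_ A) ◁ r ≫ (w ⊗ₘ f) := by
    rw [← id_tensorHom, tensorHom_comp_tensorHom, Category.id_comp]
  rw [e, ← Category.assoc, ← leftUnitor_inv_naturality, Category.assoc]

theorem TON_left {P N : A} (w : 𝟙_ A ⟶ N) {T T' : A} (f : P ⟶ T) (g : T ⟶ T') :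
    ((λ_ P).inv ≫ (w ⊗ₘ f)) ≫ (N ◁ g) = (λ_ P).inv ≫ (w ⊗ₘ (f ≫ g)) := by
  rw [Category.assoc, ← id_tensorHom, tensorHom_comp_tensorHom, Category.comp_id]

theorem TON_two {P N t : A} (w : 𝟙_ A ⟶ t) {T T' : A} (i : t ⟶ N) (p : N ⟶ t) (z : P ⟶ T)
    (f : T ⟶ T') (g : T' ⟶ T) (hip : i ≫ p = 𝟙 t) (hfg : f ≫ g = 𝟙 T) :
    ((λ_ P).inv ≫ ((w ≫ i) ⊗ₘ (z ≫ f))) ≫ (p ⊗ₘ g) = (λ_ P).inv ≫ (w ⊗ₘ z) := by
  rw [Category.assoc, tensorHom_comp_tensorHom, Category.assoc, hip, Category.assoc, hfg,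
    Category.comp_id, Category.comp_id]

theorem TON_assoc {U₁ U₂ U₃ U₄ U₅ U₆ : A} (p : U₁ ⟶ U₂) (q : U₂ ⟶ U₃) (r : U₃ ⟶ U₄)
    (s : U₄ ⟶ U₅) (t : U₅ ⟶ U₆) : p ≫ ((q ≫ r) ≫ s) ≫ t = (p ≫ q ≫ r) ≫ s ≫ t := by
  simp only [Category.assoc]

/-- The main computation. -/
theorem TON_main (hSWP : Stmt_SWP A) (hLEI : Stmt_LEI A) {N t L : A} (D : tpow L 1 ⟶ N)
    (D' : N ⟶ tpow L 1) (hD : D ≫ D' = 𝟙 _) (inc : t ⟶ N) (pr : N ⟶ t) (hip : inc ≫ pr = 𝟙 t)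
    (deg : N ⟶ 𝟙_ A) (hDd : D ≫ deg = 0) (hDp : D ≫ pr = 0) (hid : inc ≫ deg = 0)
    (hTW : Function.Injective
      (fun f : tpow L 0 ⟶ tpow t 2 => tpow L 1 ◁ f))
    (hQ : ∀ z : tpow L 1 ⟶ tpow N 2, z ≫ alt N 2 = z → z ≫ forget deg 1 = 0 →
      ∀ w : 𝟙_ A ⟶ N, w ≫ deg = 0 → ext w z ≫ alt N 3 = 0)
    (z₀ : tpow L 0 ⟶ tpow t 1) (w : 𝟙_ A ⟶ t) : ext w z₀ ≫ alt t 2 = 0 := by
  -- the cycle
  set a : tpow L 0 ⟶ tpow N 1 := z₀ ≫ tpowMap inc 1 with ha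
  set y : tpow L 1 ⟶ tpow N 2 := (ρ_ (tpow L 1)).inv ≫
    (show tpow L 1 ⊗ 𝟙_ A ⟶ tpow N 2 from (D ⊗ₘ a)) with hy
  have hz1 : (y ≫ alt N 2) ≫ alt N 2 = y ≫ alt N 2 := by
    rw [Category.assoc]
    exact congrArg (fun x => y ≫ x) (alt_idem (exchE N) 2)
  have hz2 : (y ≫ alt N 2) ≫ forget deg 1 = 0 := by
    refine TON_alt2 y deg ?_ ?_
    · rw [hy, Category.assoc]
      refine (congrArg (fun x => (ρ_ (tpow L 1)).inv ≫ x) (TON_c1 D a deg hDd)).trans ?_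
      exact Limits.comp_zero
    · rw [hy, Category.assoc]
      refine (congrArg (fun x => (ρ_ (tpow L 1)).inv ≫ x)
        (TON_c2 D z₀ inc (tpowMap inc 0) deg hid)).trans ?_
      exact Limits.comp_zero
  have hw' : (w ≫ inc) ≫ deg = 0 := by rw [Category.assoc, hid, Limits.comp_zero]
  have h1 := hQ (y ≫ alt N 2) hz1 hz2 (w ≫ inc) hw'
  -- remove the inner antisymmetriser
  have h2 : ext (w ≫ inc) y ≫ alt N 3 = 0 := by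
    have e1 : ext (w ≫ inc) (y ≫ alt N 2) = ext (w ≫ inc) y ≫ Lalt (exchE N) 2 :=
      (TON_left (w ≫ inc) y (alt N 2)).symm
    have e2 : Lalt (exchE N) 2 ≫ alt N 3 = alt N 3 := Lalt_alt (exchE N) 2
    rw [e1, Category.assoc, e2] at h1
    exact h1
  -- exchange
  have h3 : (show tpow L 1 ⊗ 𝟙_ A ⟶ tpow N 3 from (D ⊗ₘ ext (w ≫ inc) a)) ≫ alt N 3 = 0 := by
    have e1 : ext (w ≫ inc) y = (ρ_ (tpow L 1)).inv ≫ (λ_ (tpow L 1 ⊗ 𝟙_ A)).inv ≫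
        ((w ≫ inc) ⊗ₘ (show tpow L 1 ⊗ 𝟙_ A ⟶ tpow N 2 from (D ⊗ₘ a))) := TON_unit _ _ _
    have e2 : ((λ_ (tpow L 1 ⊗ 𝟙_ A)).inv ≫
        ((w ≫ inc) ⊗ₘ (show tpow L 1 ⊗ 𝟙_ A ⟶ tpow N 2 from (D ⊗ₘ a)))) ≫ exch N 1 =
          (show tpow L 1 ⊗ 𝟙_ A ⟶ tpow N 3 from (D ⊗ₘ ext (w ≫ inc) a)) := by
      rw [Category.assoc]
      exact hSWP N (tpow L 1) (tpow L 0) (tpow N 1) (w ≫ inc) D a
    have e3 : exch N 1 ≫ alt N 3 = -alt N 3 := exch_alt (exchE N) 1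
    have e4 : ext (w ≫ inc) y ≫ alt N 3 = -(ext (w ≫ inc) y ≫ exch N 1 ≫ alt N 3) := by
      rw [e3, Preadditive.comp_neg, neg_neg]
    have e5 : ext (w ≫ inc) y ≫ exch N 1 ≫ alt N 3 = 0 := by
      rw [h2] at e4
      exact neg_eq_zero.mp e4.symm
    have e6 : (ρ_ (tpow L 1)).inv ≫
        ((show tpow L 1 ⊗ 𝟙_ A ⟶ tpow N 3 from (D ⊗ₘ ext (w ≫ inc) a)) ≫ alt N 3) = 0 := by
      refine Eq.trans ?_ e5
      rw [e1, ← e2]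
      exact TON_assoc _ _ _ _ _
    have e7 := congrArg (fun x => (ρ_ (tpow L 1)).hom ≫ x) e6
    simpa only [Iso.hom_inv_id_assoc, Limits.comp_zero] using e7
  -- contraction
  have h4 := hLEI N (tpow L 1) t (tpow L 1) (tpow L 0) D D' pr 1 (ext (w ≫ inc) a) hDp
  have h5 : (D ≫ D') ⊗ₘ (ext (w ≫ inc) a ≫ alt N 2 ≫ tpowMap pr 2) = 0 := by
    have e1 : (((1 : ℕ) : ℚ) + 2)⁻¹ • ((D ≫ D') ⊗ₘ
        (ext (w ≫ inc) a ≫ alt N (1 + 1) ≫ tpowMap pr (1 + 1))) = 0 := by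
      refine h4.symm.trans ?_
      refine (Category.assoc _ _ _).symm.trans ?_
      refine (congrArg (fun x => x ≫ (D' ⊗ₘ tpowMap pr 2 : tpow N 3 ⟶ tpow L 1 ⊗ tpow t 2))
        h3).trans ?_
      exact Limits.zero_comp
    rcases smul_eq_zero.mp e1 with h | h
    · exfalso; norm_num at h
    · exact h
  have h6 : ext (w ≫ inc) a ≫ alt N 2 ≫ tpowMap pr 2 = 0 := by
    apply hTW
    show tpow L 1 ◁ _ = tpow L 1 ◁ _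
    rw [hD] at h5
    rw [MonoidalPreadditive.whiskerLeft_zero, ← h5]
    exact (id_tensorHom _ _).symm
  have e1 : alt N 2 ≫ tpowMap pr 2 = tpowMap pr 2 ≫ alt t 2 := alt_nat pr 2
  have e2 : ext (w ≫ inc) a ≫ tpowMap pr 2 = ext w z₀ := by
    refine TON_two w inc pr z₀ (tpowMap inc 1) (tpowMap pr 1) hip ?_
    rw [← tpowMap_comp, hip, tpowMap_id]
  rw [e1, ← Category.assoc, e2] at h6
  exact h6

end Gen

section Fin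

variable (V : Type w) (A : Type u) [Category.{v} A] [MonoidalCategory A] [SymmetricCategory A]
  [Preadditive A] [MonoidalPreadditive A] [Linear ℚ A] [MonoidalLinear ℚ A]
  (M : ChowMotives V A) (K : K3Motive M)

theorem TON_div (j : Fin K.m) (k : ℕ) (h : K.k j = k) :
    ∃ (D : tpow M.L (k + 1) ⟶ M.h K.S) (D' : M.h K.S ⟶ tpow M.L (k + 1)),
      D ≫ D' = 𝟙 _ ∧ D ≫ K.deg = 0 ∧ D ≫ K.pr = 0 := by
  subst h
  exact ⟨K.dn j, K.up j, K.dn_up j, K.dn_deg j, K.dn_pr j⟩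

theorem p_TON (hTW : Stmt_TW V A M) (hSWP : Stmt_SWP A) (hLEI : Stmt_LEI A) :
    Stmt_TON V A M K := by
  intro hQ z₀ _ w
  obtain ⟨j, hj⟩ := K.divisor
  obtain ⟨D, D', h1, h2, h3⟩ := TON_div V A M K j 0 hj
  exact TON_main hSWP hLEI D D' h1 K.inc K.pr K.inc_pr K.deg h2 h3 K.inc_deg
    (hTW 1 (tpow M.L 0) (tpow K.t 2)).injective (hQ 1 le_rfl) z₀ w

end Fin

end Pool.VAS
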