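import Pool.Agent.Work.MP_292d0f_va.Interface

set_option autoImplicit false

/-! # Block WRI: zero-cycles of degree zero on a K3 surface -/

open CategoryTheory MonoidalCategory
open Pool.Agent.Work.MP_c42eb9_num.Defs Pool.Agent.Work.MP_c42eb9_num

namespace Pool.VAS

universe v u w

section

variable (V : Type w) (A : Type u) [Category.{v} A] [MonoidalCategory A] [SymmetricCategory A]
  [Preadditive A] [MonoidalPreadditive A] [Linear ℚ A] [MonoidalLinear ℚ A]
  (M : ChowMotives V A) (K : K3Motive M)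

theorem WRI_neg (k : ℕ) (x : 𝟙_ A ⟶ tpow M.L (k + 1)) : x = 0 := by
  obtain ⟨e⟩ := M.isoPt
  have h := M.negative M.pt k (x ≫ (ρ_ (tpow M.L (k + 1))).inv ≫ tpow M.L (k + 1) ◁ e.inv)
  calc x = (x ≫ (ρ_ (tpow M.L (k + 1))).inv ≫ tpow M.L (k + 1) ◁ e.inv) ≫
        tpow M.L (k + 1) ◁ e.hom ≫ (ρ_ (tpow M.L (k + 1))).hom := by
        simp only [Category.assoc, whiskerLeft_inv_hom_assoc, Iso.inv_hom_id, Category.comp_id]
    _ = 0 := by rw [h, Limits.zero_comp]

theorem p_WRI : Stmt_WRI V A M K := by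
  intro w hw
  refine ⟨w ≫ K.pr, ?_⟩
  have h1 : w = w ≫ (K.deg ≫ K.pt + K.pr ≫ K.inc + ∑ j, K.up j ≫ K.dn j) := by
    rw [K.sum, Category.comp_id]
  have h2 : w ≫ ∑ j, K.up j ≫ K.dn j = 0 := by
    rw [Preadditive.comp_sum]
    refine Finset.sum_eq_zero fun j _ => ?_
    rw [← Category.assoc, WRI_neg V A M (K.k j) (w ≫ K.up j), Limits.zero_comp]
  rw [Preadditive.comp_add, Preadditive.comp_add, h2, add_zero, ← Category.assoc, hw,
    Limits.zero_comp, zero_add] at h1
  rw [Category.assoc]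
  exact h1

end

end Pool.VAS
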