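import Pool.Agent.Work.MP_292d0f_va.Skel
import Pool.Agent.Work.MP_292d0f_va.B_ADD
import Pool.Agent.Work.MP_292d0f_va.B_SHF
import Pool.Agent.Work.MP_292d0f_va.B_BRL
import Pool.Agent.Work.MP_292d0f_va.B_EXP
import Pool.Agent.Work.MP_292d0f_va.B_CTR
import Pool.Agent.Work.MP_292d0f_va.B_NIL
import Pool.Agent.Work.MP_292d0f_va.B_SWP
import Pool.Agent.Work.MP_292d0f_va.B_LEI
import Pool.Agent.Work.MP_292d0f_va.B_TW
import Pool.Agent.Work.MP_292d0f_va.B_NEG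
import Pool.Agent.Work.MP_292d0f_va.B_POW
import Pool.Agent.Work.MP_292d0f_va.B_PET
import Pool.Agent.Work.MP_292d0f_va.B_STP
import Pool.Agent.Work.MP_292d0f_va.B_SUM
import Pool.Agent.Work.MP_292d0f_va.B_WRI
import Pool.Agent.Work.MP_292d0f_va.B_F31
import Pool.Agent.Work.MP_292d0f_va.B_TON
import Pool.Agent.Work.MP_292d0f_va.B_TCC
import Pool.Agent.Work.MP_292d0f_va.B_IND
import Pool.Agent.Work.MP_292d0f_va.B_F43

/-!
# Theorem A on Voisin's anti-symmetrization conjecture: the proof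
-/

open CategoryTheory MonoidalCategory
open Pool.Agent.Work.MP_c42eb9_num.Defs Pool.Agent.Work.MP_c42eb9_num

namespace Pool.VAS

universe v u w v' u'

variable {V : Type w} {A : Type u} [Category.{v} A] [MonoidalCategory A] [SymmetricCategory A]
  [Preadditive A] [MonoidalPreadditive A] [Linear ℚ A] [MonoidalLinear ℚ A]
  (M : ChowMotives V A) (K : K3Motive M)

theorem k_NEG : Stmt_NEG V A M := p_NEG V A M (p_TW V A M) (p_ADD A)

theorem k_STP : Stmt_STP V A M K := p_STP V A M K (p_ADD A) (p_TW V A M) (k_NEG M) (p_POW V A M)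
  (p_BRL A) p_EXP (p_SWP A)

theorem k_F31 : Stmt_F31 V A M K := p_F31 V A M K (p_CTR A p_EXP) (p_WRI V A M K)

theorem main :
    (K.Q1 ↔ K.Q1Top) ∧ (K.Q1 ↔ K.Vanishing) ∧ (K.Q1 ↔ K.Coniveau) ∧
    (∀ (K' : K3Motive M) (i : K'.t ⟶ K.t) (r : K.t ⟶ K'.t), i ≫ r = 𝟙 K'.t → K.Q1 → K'.Q1) ∧
    ∀ {C : Type u'} [Category.{v'} C] [Preadditive C] (H : A ⥤ C) [H.Additive],
      (K.Q1 → K.HomConiveau H) ∧ (K.Nilp H → K.HomConiveau H → K.Q1) ∧
      (CurveClasses H M → K.Q1 → K.HodgeClasses H) :=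
  final (p_TON V A M K (p_TW V A M) (p_SWP A) (p_LEI A)) (p_TCC V A M K)
    (p_IND (p_TW V A M) (p_SHF A)) (p_F43 V A M K (k_NEG M)) (p_PET V A M K) (k_STP M K)
    (p_SUM V A M K) (k_F31 M K) (p_NIL A) (fun K' => q1_of_vanishing (p_PET V A M K')
      (k_STP M K') (p_SUM V A M K') (k_F31 M K'))

end Pool.VAS
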