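import Pool.Agent.Work.MP_292d0f_va.Defs
import Pool.Agent.Work.MP_c42eb9_num.Words
import Pool.Agent.Work.MP_c42eb9_num.Nat

/-!
# Theorem A on Voisin's anti-symmetrization conjecture: the blocks

Notation: `A` is the category of covariant Chow motives, `M : ChowMotives V A`, `K : K3Motive M`
(file `Defs`), `L = M.L`, `L^n = tpow L n`, `H = M.h K.S`, `t = K.t`, `Λ^n = alt _ n`. The library
`Pool.Agent.Work.MP_c42eb9_num` has (namespace `Pool.Agent.Work.MP_c42eb9_num`; the exchange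
operators of the tensor power are `exchE X : Exch X`, and `(exchE X).alt n` is `alt X n`,
`(exchE X).op n` is `exch X n`, by `rfl`):
* `alt_idem`, `exch_alt : E.op n ≫ E.alt (n+2) = -E.alt (n+2)`, `alt_exch` (the same on the right,
  file `AltR`), `alt_Lalt : E.alt (n+1) ≫ Lalt E n = E.alt (n+1)`, `Lalt_alt`
  (`Lalt E n` is `X ◁ E.alt n` by `rfl`), `alt_zero`, `alt_one` (file `Alt`);
* `alt_nat : alt X n ≫ tpowMap f n = tpowMap f n ≫ alt Y n`, `exch_nat` (file `Nat`);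
* `tpowMap_comp`, `tpowMap_id` (file `Ideal`); `sw_tensor`, `natE_exch`, `alt_tensor`, `alt_swap`
  (files `Com`, `Words`).
Lean does not see through `tpow N (n+1) = N ⊗ tpow N n` when it rewrites (it is true by `rfl`):
state auxiliary lemmas for general objects `W` in the place of `tpow N n` (as in `alt_nat_aux`,
`swap_aux`, `exch_nat_aux`) and apply them with `exact`, `refine`, `.trans`, `congrArg`, or use
`show`.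
-/

open CategoryTheory MonoidalCategory
open Pool.Agent.Work.MP_c42eb9_num.Defs Pool.Agent.Work.MP_c42eb9_num

namespace Pool.VAS

universe v u w

section

variable (A : Type u) [Category.{v} A] [MonoidalCategory A] [SymmetricCategory A]
  [Preadditive A] [MonoidalPreadditive A] [Linear ℚ A] [MonoidalLinear ℚ A]

/-- ADD (40 lines). `tpow N (a + b) ≅ tpow N a ⊗ tpow N b`.
Proof. Induction on `a` with the associator. -/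
def Stmt_ADD : Prop := ∀ (N : A) (a b : ℕ), Nonempty (tpow N (a + b) ≅ tpow N a ⊗ tpow N b)

/-- SHF (80 lines). The exchange of `P` and `X` in `P ⊗ (X ⊗ Y)`, evaluated on zero-cycles.
Proof. `σ = α⁻¹ ≫ (β_ P X).hom ▷ Y ≫ α`. For the formula: write `a ⊗ₘ b = (a ▷ 𝟙) ≫ (X ◁ b)`, move
`b` to the end (naturality), and use `(P ◁ a) ≫ (β_ P X).hom = (β_ P 𝟙).hom ≫ (a ▷ P)` and
`braiding_rightUnitor`/`braiding_tensorUnit_right` for `β_ P (𝟙_ A)`; the rest is coherence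
(`monoidal` or `simp`). -/
def Stmt_SHF : Prop := ∀ (P X Y : A), ∃ σ : P ⊗ (X ⊗ Y) ≅ X ⊗ (P ⊗ Y),
  ∀ (a : 𝟙_ A ⟶ X) (b : 𝟙_ A ⟶ Y), P ◁ ((λ_ (𝟙_ A)).inv ≫ (a ⊗ₘ b)) ≫ σ.hom =
    (ρ_ P).hom ≫ (λ_ P).inv ≫ (a ⊗ₘ ((ρ_ P).inv ≫ P ◁ b))

/-- BRL (80 lines). If the exchange on `L ⊗ L` is the identity then so is the exchange on
`tpow L n ⊗ tpow L n`.
Proof. Induction on `n`. Write `X = tpow L n`. By the hexagons, `β_ (L ⊗ X) (L ⊗ X)` is, up to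
associators, the composite of the exchange of the middle factors `X, L`, then
`β_ L L ⊗ β_ X X = 𝟙`, then the exchange of the middle factors `L, X`; the first and the last
exchange are inverse to each other (`SymmetricCategory.symmetry`). -/
def Stmt_BRL : Prop := ∀ (L : A), (β_ L L).hom = 𝟙 (L ⊗ L) →
  ∀ n : ℕ, (β_ (tpow L n) (tpow L n)).hom = 𝟙 (tpow L n ⊗ tpow L n)

/-- EXP (150 lines). The expansion of `tpowMap (a + b)` on antisymmetric tensors if `b = p ≫ i`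
factors through an object `Λ` with trivial exchange.
Proof. (1) For `g : X ⟶ tpow N n`: `(i ⊗ₘ (i ⊗ₘ g)) ≫ exch N n = i ⊗ₘ (i ⊗ₘ g)`, since
`(i ⊗ₘ i) ≫ β_ N N = β_ Λ Λ ≫ (i ⊗ₘ i)`; with `exch_alt` the composite with `alt N (n + 2)` is
equal to its negative, so it is `0`. (2) Induction on `n`. `n = 0`: `alt N 1 = 𝟙` and
`(a + b) ⊗ₘ 𝟙 = a ⊗ₘ 𝟙 + b ⊗ₘ 𝟙`. Step, write `P = alt N (n + 2)`, `Q = N ◁ alt N (n + 1)`, so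
`P ≫ Q = P = Q ≫ P`; all maps `tpowMap c` commute with `P` (`alt_nat`), so
`P ≫ tpowMap (a + b) (n + 2) = P ≫ Q ≫ ((a + b) ⊗ₘ tpowMap (a + b) (n + 1)) ≫ P`, which by the
induction hypothesis is `P ≫ ((a + b) ⊗ₘ (tpowMap a (n + 1) + (n + 1) • (alt ≫ (b ⊗ₘ tpowMap a n)
≫ alt))) ≫ P = P ≫ tpowMap a (n + 2) ≫ P + P ≫ (b ⊗ₘ tpowMap a (n + 1)) ≫ P
+ (n + 1) • P ≫ (a ⊗ₘ (b ⊗ₘ tpowMap a n)) ≫ P + (n + 1) • P ≫ (b ⊗ₘ (b ⊗ₘ tpowMap a n)) ≫ P`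
(the inner `alt` are absorbed by `P`). The last term is `0` by (1). In the third term
`P ≫ (a ⊗ₘ (b ⊗ₘ T)) ≫ P = P ≫ (-exch) ≫ (a ⊗ₘ (b ⊗ₘ T)) ≫ P
= P ≫ (b ⊗ₘ (a ⊗ₘ T)) ≫ (-exch) ≫ P = P ≫ (b ⊗ₘ (a ⊗ₘ T)) ≫ P`. -/
def Stmt_EXP : Prop := ∀ (N Λ : A), (β_ Λ Λ).hom = 𝟙 (Λ ⊗ Λ) →
  ∀ (a : N ⟶ N) (p : N ⟶ Λ) (i : Λ ⟶ N) (n : ℕ),
    alt N (n + 1) ≫ tpowMap (a + p ≫ i) (n + 1) = alt N (n + 1) ≫ tpowMap a (n + 1) +
      ((n : ℚ) + 1) • (alt N (n + 1) ≫ ((p ≫ i) ⊗ₘ tpowMap a n : tpow N (n + 1) ⟶ tpow N (n + 1)) ≫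
        alt N (n + 1))

/-- CTR (60 lines, uses EXP). An antisymmetric tensor which is killed by `ε` in the first factor is
fixed by `𝟙 - ε ≫ o` in all factors.
Proof. EXP with `Λ = 𝟙_ A` (its exchange is the identity), `p = ε`, `i = o`, `a = 𝟙 - ε ≫ o`, so
`a + p ≫ i = 𝟙`: `z = z ≫ alt ≫ tpowMap (𝟙) = z ≫ tpowMap a + (n + 1) • z ≫ ((ε ≫ o) ⊗ₘ _) ≫ alt`
and `z ≫ ((ε ≫ o) ⊗ₘ T) = (z ≫ (ε ▷ _)) ≫ (o ⊗ₘ T) = 0` (`forget ε n = ε ▷ _ ≫ λ`). -/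
def Stmt_CTR : Prop := ∀ (N X : A) (ε : N ⟶ 𝟙_ A) (o : 𝟙_ A ⟶ N) (n : ℕ)
  (z : X ⟶ tpow N (n + 1)), z ≫ alt N (n + 1) = z → z ≫ forget ε n = 0 →
    z ≫ tpowMap (𝟙 N - ε ≫ o) (n + 1) = z

/-- NIL (80 lines). An idempotent which factors modulo nilpotent maps factors.
Proof. In the ring `R = End X` (its product is `f * g = g ≫ f`): replace `f, g` by `p ≫ f`,
`g ≫ p`, so `q = f ≫ g` satisfies `p ≫ q = q = q ≫ p`, and `N := p - q` has `H.map N = 0`, so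
`N ^ k = 0` for some `k ≥ 1`. Since `q = p - N` and `N` commute and `p ≫ N = N`,
`p = p - N ^ k = (p - N) ≫ (p + N + ⋯ + N ^ (k - 1)) = q ≫ s = f ≫ (g ≫ s)`; then
`g' = g ≫ s`. (Geometric sum; or: by induction on `k`, `p - N ^ k` is of the form `f ≫ _`:
`p - N ^ (k+1) = (p - N) + N ≫ (p - N ^ k)` read with `N` on the right: `= (p - N) + (p - N ^ k) ≫ N`.) -/
def Stmt_NIL : Prop := ∀ (X Y : A) (p : X ⟶ X) (f : X ⟶ Y) (g : Y ⟶ X), p ≫ p = p →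
    IsNilpotent (show End X from p - p ≫ f ≫ g ≫ p) → ∃ g' : Y ⟶ X, (p ≫ f) ≫ g' = p

/-- SWP (60 lines). Exchange of a zero-cycle `w` with `i`.
Proof. `w ⊗ₘ (i ⊗ₘ y)`, associated to the left, is `(w ⊗ₘ i) ⊗ₘ y`, and
`(w ⊗ₘ i) ≫ (β_ N N).hom = (β_ (𝟙_ A) Λ).hom ≫ (i ⊗ₘ w)` with
`(β_ (𝟙_ A) Λ).hom = (λ_ Λ).hom ≫ (ρ_ Λ).inv` (`braiding_tensorUnit_left`); the rest is coherence. -/
def Stmt_SWP : Prop := ∀ (N Λ P W : A) (w : 𝟙_ A ⟶ N) (i : Λ ⟶ N) (y : P ⟶ W),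
  (λ_ (Λ ⊗ P)).inv ≫ (w ⊗ₘ (i ⊗ₘ y)) ≫
    ((α_ N N W).inv ≫ (β_ N N).hom ▷ W ≫ (α_ N N W).hom) = i ⊗ₘ ((λ_ P).inv ≫ (w ⊗ₘ y))

/-- LEI (100 lines). Contraction of an antisymmetrization.
Proof. By definition `alt N (n + 2) = (n + 2)⁻¹ • (N ◁ a - (n + 1) • (N ◁ a ≫ s ≫ N ◁ a))` with
`a = alt N (n + 1)`, `s = exch N n` (`alt_succ_succ`, `altStep`). The first term gives the right
side. The second one is zero: `tpowMap r (n + 1)` commutes with `alt` (`alt_nat`), so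
`N ◁ a ≫ (p ⊗ₘ tpowMap r (n + 1)) = (p ⊗ₘ tpowMap r (n + 1)) ≫ (Λ ◁ alt B (n + 1))`, and
`s ≫ (p ⊗ₘ (r ⊗ₘ R))` is `(r ⊗ₘ (p ⊗ₘ R))` followed by an exchange `B ⊗ (Λ ⊗ W) ⟶ Λ ⊗ (B ⊗ W)`
(naturality of the braiding), so it starts on the first factor with `i ≫ r = 0`. -/
def Stmt_LEI : Prop := ∀ (N Λ B X Y : A) (i : X ⟶ N) (p : N ⟶ Λ) (r : N ⟶ B) (n : ℕ)
  (y : Y ⟶ tpow N (n + 1)), i ≫ r = 0 →
    (i ⊗ₘ y : X ⊗ Y ⟶ tpow N (n + 2)) ≫ alt N (n + 2) ≫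
      (p ⊗ₘ tpowMap r (n + 1) : tpow N (n + 2) ⟶ Λ ⊗ tpow B (n + 1)) =
    ((n : ℚ) + 2)⁻¹ • ((i ≫ p) ⊗ₘ (y ≫ alt N (n + 1) ≫ tpowMap r (n + 1)))

end

section

variable (V : Type w) (A : Type u) [Category.{v} A] [MonoidalCategory A] [SymmetricCategory A]
  [Preadditive A] [MonoidalPreadditive A] [Linear ℚ A] [MonoidalLinear ℚ A]
  (M : ChowMotives V A)

/-- TW (40 lines). The twist with `L ^ n` is fully faithful.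
Proof. Induction on `n`: for `n = 0` this is `𝟙_ A ◁ f = λ ≫ f ≫ λ⁻¹`; for `n + 1` use
`(L ⊗ X) ◁ f = α ≫ L ◁ (X ◁ f) ≫ α⁻¹` and `M.cancel`. -/
def Stmt_TW : Prop := ∀ (n : ℕ) (X Y : A), Function.Bijective (fun f : X ⟶ Y => tpow M.L n ◁ f)

/-- NEG (60 lines, uses TW and ADD). There are no cycles of dimension `l` on `L ^ n ⊗ h Y` for
`l < n`.
Proof. `n = l + (k + 1)`. With `tpow L n ≅ tpow L l ⊗ tpow L (k + 1)` (ADD) and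
`tpow L l ≅ tpow L l ⊗ 𝟙` the morphism `z` becomes a morphism
`tpow L l ⊗ 𝟙 ⟶ tpow L l ⊗ (tpow L (k + 1) ⊗ h Y)`, which is `tpow L l ◁ x` by TW, with `x = 0` by
`M.negative`. -/
def Stmt_NEG : Prop := ∀ (l n : ℕ) (Y : V) (z : tpow M.L l ⟶ tpow M.L n ⊗ M.h Y), l < n → z = 0

/-- POW (50 lines). All tensor powers of `h S` are motives of varieties.
Proof. Induction with `M.isoPt` and `M.prod`. -/
def Stmt_POW : Prop := ∀ (X : V) (n : ℕ), ∃ Z : V, Nonempty (M.h Z ≅ tpow (M.h X) n)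

variable (K : K3Motive M)

/-- PET (50 lines).
Proof. `z' = z ≫ tpowMap pr (n + 1)`; `tpowMap (pr ≫ inc) = tpowMap pr ≫ tpowMap inc`
(`tpowMap_comp`), so `ext (w ≫ inc) (z ≫ tpowMap (pr ≫ inc) (n + 1)) = ext w z' ≫ tpowMap inc (n + 2)`
and `tpowMap inc (n + 2) ≫ alt (h S) (n + 2) = alt t (n + 2) ≫ tpowMap inc (n + 2)` (`alt_nat`);
`ext w z' ≫ alt t (n + 2) = 0` by `Vanishing`, as `l + 2 ≤ n + 2`. -/
def Stmt_PET : Prop := K.Vanishing → K.Kills (K.pr ≫ K.inc)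

/-- STP (200 lines, uses ADD TW NEG POW BRL EXP SWP). One more summand `L ^ (k + 1)`.
Proof. Let `H = h S`, `Λ = tpow L (k j + 1)`, `p = up j`, `i = dn j`, `w' = w ≫ inc`, and let
`z` with `z ≫ alt H (n + 1) = z`. By EXP (with BRL for `Λ`)
`z ≫ tpowMap (a + p ≫ i) (n + 1) = z ≫ tpowMap a (n + 1) + (n + 1) • z ≫ ((p ≫ i) ⊗ₘ tpowMap a n)
≫ alt H (n + 1)`. `ext w'` is additive and `ℚ`-linear in the second argument, and the first term is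
killed by hypothesis. `ext w' (y ≫ alt H (n + 1)) ≫ alt H (n + 2) = ext w' y ≫ alt H (n + 2)` by
`Lalt_alt`. So it remains to show `ext w' y ≫ alt H (n + 2) = 0` for
`y = z ≫ ((p ≫ i) ⊗ₘ tpowMap a n) = (z ≫ p ▷ tpow H n) ≫ (i ⊗ₘ tpowMap a n)`. Here
`z ≫ p ▷ tpow H n` is a morphism `tpow L l ⟶ Λ ⊗ tpow H n` and `tpow H n ≅ h Z` (POW).
If `l < k j + 1` it is `0` by NEG. Otherwise `l = (k j + 1) + l'`; with
`e : tpow L l ≅ Λ ⊗ tpow L l'` (ADD) it is `e.hom ≫ Λ ◁ z₁` with `z₁ : tpow L l' ⟶ tpow H n` (TW,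
surjective), and `z₁ ≫ alt H n = z₁` (TW, injective, as `z ≫ H ◁ alt H n = z` by `alt_Lalt`). Since
`l ≤ n`, `n = n' + 1` with `l' ≤ n'`. So `y = e.hom ≫ (i ⊗ₘ y₁)` with
`y₁ = z₁ ≫ tpowMap a (n' + 1)`. By SWP (and `exch_alt`)
`ext w' y ≫ alt H (n + 2) = - ext w' y ≫ exch H n ≫ alt H (n + 2)
= - e.hom ≫ (i ⊗ₘ ext w' y₁) ≫ alt H (n + 2)`, and by `Lalt_alt` one may insert
`H ◁ alt H (n + 1)`: `ext w' y₁ ≫ alt H (n' + 2) = 0` by the hypothesis for `n', l', z₁`. -/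
def Stmt_STP : Prop := ∀ (a : M.h K.S ⟶ M.h K.S) (j : Fin K.m),
  K.Kills a → K.Kills (a + K.up j ≫ K.dn j)

/-- SUM (30 lines).
Proof. Induction over the finite sets of indices: `Kills (pr ≫ inc + ∑ j ∈ s, up j ≫ dn j)`; for
`s = univ` this is `𝟙 - deg ≫ pt` by `K.sum`. -/
def Stmt_SUM : Prop :=
  (∀ (a : M.h K.S ⟶ M.h K.S) (j : Fin K.m), K.Kills a → K.Kills (a + K.up j ≫ K.dn j)) →
    K.Kills (K.pr ≫ K.inc) → K.Kills (𝟙 (M.h K.S) - K.deg ≫ K.pt)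

/-- WRI (40 lines). A zero-cycle of degree zero comes from `t`.
Proof. `w = w ≫ 𝟙 = w ≫ deg ≫ pt + (w ≫ pr) ≫ inc + ∑ j, (w ≫ up j) ≫ dn j` (`K.sum`), and
`w ≫ up j = 0`, since `tpow L (k j + 1) ≅ tpow L (k j + 1) ⊗ h pt` (`M.isoPt`, `M.negative`). -/
def Stmt_WRI : Prop := ∀ w : 𝟙_ A ⟶ M.h K.S, w ≫ K.deg = 0 →
  ∃ w₀ : 𝟙_ A ⟶ K.t, w = w₀ ≫ K.inc

/-- F31 (40 lines, uses CTR and WRI).
Proof. Let `z, w` be as in `At n l`. `w = w₀ ≫ inc` by WRI, `z ≫ tpowMap (𝟙 - deg ≫ pt) (n + 1) = z`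
by CTR; apply `Kills`. -/
def Stmt_F31 : Prop := K.Kills (𝟙 (M.h K.S) - K.deg ≫ K.pt) → K.Q1

/-- TON (150 lines, uses TW SWP LEI). `N = 2`, `l = 1` contains `CH_0 t ∧ CH_0 t = 0`.
Proof. From `K.divisor` we have `D : tpow L 1 ⟶ h S`, `D' : h S ⟶ tpow L 1` with `D ≫ D' = 𝟙`,
`D ≫ deg = 0`, `D ≫ pr = 0` (`dn j`, `up j` with `k j = 0`; `rw`/`subst` in a general lemma, or
`eqToHom`). Given `z₀ : tpow L 0 ⟶ tpow t 1` and `w : 𝟙_ A ⟶ t` (`alt t 1 = 𝟙`, so there is no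
condition on `z₀`). Put `H = h S`, `a = z₀ ≫ tpowMap inc 1 : tpow L 0 ⟶ tpow H 1`,
`z = (ρ_ (tpow L 1)).inv ≫ (D ⊗ₘ a) ≫ alt H 2 : tpow L 1 ⟶ tpow H 2` (`tpow L 0 = 𝟙_ A` by `rfl`).
`z ≫ alt H 2 = z` (`alt_idem`). `z ≫ forget deg 1 = 0`: `2 • alt H 2 = 𝟙 - exch H 0`
(`alt_succ_succ` with `alt_one`), `D ≫ deg = 0` kills the first term, and `exch H 0 ≫ (deg ▷ _)` is,
up to coherence, `H ◁ (deg ▷ _)`, which is killed by `a = z₀ ≫ (inc ⊗ₘ 𝟙)` since `inc ≫ deg = 0`.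
`K.Q1Top 1` gives `ext (w ≫ inc) z ≫ alt H 3 = 0`; by `Lalt_alt` the `alt H 2` in `z` can be
removed, and by SWP and `exch_alt` (as in STP): `(D ⊗ₘ ext (w ≫ inc) a) ≫ alt H 3 = 0`. Compose
with `D' ⊗ₘ tpowMap pr 2` and use LEI (`n = 1`, `i = D`, `r = pr`): `0 = 3⁻¹ •
(𝟙 ⊗ₘ (ext (w ≫ inc) a ≫ alt H 2 ≫ tpowMap pr 2))`, and `ext (w ≫ inc) a ≫ alt H 2 ≫ tpowMap pr 2
= ext (w ≫ inc) a ≫ tpowMap pr 2 ≫ alt t 2 = ext w z₀ ≫ alt t 2` (`alt_nat`, `tpowMap_comp`,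
`inc ≫ pr = 𝟙`). By TW (injective, `n = 1`) it is zero. -/
def Stmt_TON : Prop := K.Q1Top → K.T 0

/-- TCC (60 lines). `N = c + 2`, `l = c + 1`.
Proof. Given `z` and `w` for `T (c + 1)`, apply `K.Q1Top (c + 1)` to `z ≫ tpowMap inc (c + 2)`
(antisymmetric by `alt_nat`; killed by `forget deg` since `inc ≫ deg = 0`) and `w ≫ inc`; compose
the result with `tpowMap pr (c + 3)` and use `alt_nat`, `tpowMap_comp`, `inc ≫ pr = 𝟙`. -/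
def Stmt_TCC : Prop := K.Q1Top → ∀ c : ℕ, K.T (c + 1)

/-- IND (250 lines, uses TW and SHF). The main step: Bloch and Srinivas with coefficients in `L ^ n`.
Proof. Induction on `n`. `n = 0`: `Y = S`, `f = ρ ≫ inc ≫ λ⁻¹`, `g = λ ≫ pr ≫ ρ⁻¹` (`alt t 1 = 𝟙`,
`tpow L 0 = 𝟙_ A`, `tpow t 1 = t ⊗ 𝟙_ A`). Step: let `P = tpow L n`, `f : tpow t (n + 1) ⟶ P ⊗ h Y`,
`g` back, `f ≫ g = p := alt t (n + 1)`. Replace `g` by `g ≫ p` (`p ≫ p = p`), so `g ≫ p = g`. Let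
`q = alt t (n + 2)`; `q ≫ q = q`, `t ◁ p ≫ q = q` (`Lalt_alt`), `q ≫ t ◁ p = q`. Let
`θ : h Z ≅ h S ⊗ h Y` (`M.prod`) and `σ : P ⊗ (h S ⊗ h Y) ≅ h S ⊗ (P ⊗ h Y)` from SHF. Put
`F = q ≫ (inc ⊗ₘ f) ≫ σ.inv ≫ P ◁ θ.inv : tpow t (n + 2) ⟶ P ⊗ h Z` and
`G = P ◁ θ.hom ≫ σ.hom ≫ (pr ⊗ₘ g) ≫ q`. Then `F ≫ G = q ≫ ((inc ≫ pr) ⊗ₘ (f ≫ g)) ≫ q
= q ≫ t ◁ p ≫ q = q`. By TW (surjective) `G ≫ F = P ◁ e₀` with `e₀ : h Z ⟶ h Z`. Claim: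
`x ≫ e₀ = 0` for all `x : 𝟙_ A ⟶ h Z`. By TW (injective) it suffices that `P ◁ x ≫ G = 0`. The set
of the `x' : 𝟙_ A ⟶ h S ⊗ h Y` with `P ◁ x' ≫ σ.hom ≫ (pr ⊗ₘ g) ≫ q = 0` is a `ℚ`-subspace
(`MonoidalLinear`), so by `M.zeroCycles` we may take `x' = λ⁻¹ ≫ (a ⊗ₘ b)`. By SHF the morphism is
`ρ ≫ λ⁻¹ ≫ ((a ≫ pr) ⊗ₘ (ρ⁻¹ ≫ P ◁ b ≫ g)) ≫ q = ρ ≫ ext (a ≫ pr) z ≫ q` with
`z = ρ⁻¹ ≫ P ◁ b ≫ g : tpow L n ⟶ tpow t (n + 1)`, `z ≫ p = z`; it is zero by `K.T n`. By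
`M.blochSrinivas` `e₀ = a ≫ b` with `a : h Z ⟶ L ⊗ h W`, `b : L ⊗ h W ⟶ h Z`. Finally
`q = F ≫ G = F ≫ G ≫ F ≫ G = F ≫ P ◁ a ≫ P ◁ b ≫ G` factors through
`P ⊗ (L ⊗ h W) ≅ tpow L (n + 1) ⊗ h W` (`= (L ⊗ P) ⊗ h W` by `rfl`; use the braiding or SHF). -/
def Stmt_IND : Prop := (∀ c : ℕ, K.T c) → K.Coniveau

/-- F43 (40 lines, uses NEG).
Proof. `n = m + 1` with `l < m`; `z ≫ alt t (m + 1) = (z ≫ f) ≫ g` and
`z ≫ f : tpow L l ⟶ tpow L m ⊗ h Y` is zero by NEG. -/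
def Stmt_F43 : Prop := K.Coniveau → K.Vanishing

end

end Pool.VAS
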