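import Pool.Agent.Work.MP_292d0f_va.InterfaceC
import Pool.Agent.Work.MP_c42eb9_num.AltR

/-!
Block ALC: on antisymmetric tensors all contractions agree up to sign.
-/

open CategoryTheory MonoidalCategory
open Pool.Agent.Work.MP_c42eb9_num.Defs Pool.Agent.Work.MP_c42eb9_num
  Pool.Agent.Work.MP_c42eb9_num.RealPart

namespace Pool.VAS

universe v u

section

variable {A : Type u} [Category.{v} A] [MonoidalCategory A]
  (ω : A ⥤ ModuleCat.{0} ℚ) [ω.Monoidal] {N : A}

theorem alc_drop_LT (n : ℕ) (g : ω.obj (tpow N (n + 1)) →ₗ[ℚ] ω.obj (tpow N n))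
    (a : tpow N (n + 1) ⟶ tpow N (n + 1)) (w : ω.obj (tpow N (n + 2))) :
    dropT ω n g (om ω (LT N (n + 1) a) w) = dropT ω n (g ∘ₗ om ω a) w := by
  have h : dropT ω n g ∘ₗ om ω (LT N (n + 1) a) = dropT ω n (g ∘ₗ om ω a) := by
    apply muT_ext
    intro x y
    rw [LinearMap.comp_apply, om_LT, dropT_muT, dropT_muT]
    rfl
  exact congrArg (fun k => k w) h

theorem alc_drop_smul (n : ℕ) (c : ℚ) (g : ω.obj (tpow N (n + 1)) →ₗ[ℚ] ω.obj (tpow N n))
    (w : ω.obj (tpow N (n + 2))) :
    dropT ω n (c • g) w = c • dropT ω n g w := by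
  have h : dropT ω n (c • g) = c • dropT ω n g := by
    apply muT_ext
    intro x y
    rw [LinearMap.smul_apply, dropT_muT, dropT_muT, LinearMap.smul_apply, map_smul]
  exact congrArg (fun k => k w) h

theorem alc_exch [SymmetricCategory A]
    (hb : ∀ x y : ω.obj N, om ω (β_ N N).hom (mu ω N N x y) = mu ω N N y x)
    (n : ℕ) (x1 x2 : ω.obj N) (z : ω.obj (tpow N n)) :
    om ω (exch N n) (muT ω N (n + 1) x1 (muT ω N n x2 z))
      = muT ω N (n + 1) x2 (muT ω N n x1 z) := by
  have h1 : om ω (exch N n) (muT ω N (n + 1) x1 (muT ω N n x2 z))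
      = om ω ((α_ N N (tpow N n)).inv ≫ (β_ N N).hom ▷ tpow N n ≫ (α_ N N (tpow N n)).hom)
        (mu ω N (N ⊗ tpow N n) x1 (mu ω N (tpow N n) x2 z)) := rfl
  rw [h1, om_comp_apply, om_comp_apply, om_assoc_inv, om_whiskerRight, hb, om_assoc]
  rfl

theorem alc_con_exch [SymmetricCategory A]
    (hb : ∀ x y : ω.obj N, om ω (β_ N N).hom (mu ω N N x y) = mu ω N N y x)
    (ξ : ω.obj N →ₗ[ℚ] ℚ) (n : ℕ) (w : ω.obj (tpow N (n + 2))) :
    conT ω N (n + 1) ξ (om ω (exch N n) w) = dropT ω n (conT ω N n ξ) w := by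
  have h : conT ω N (n + 1) ξ ∘ₗ om ω (exch N n) = dropT ω n (conT ω N n ξ) := by
    apply muT_ext
    intro x1 v
    have h2 : (conT ω N (n + 1) ξ ∘ₗ om ω (exch N n)) ∘ₗ muT ω N (n + 1) x1
        = dropT ω n (conT ω N n ξ) ∘ₗ muT ω N (n + 1) x1 := by
      apply muT_ext
      intro x2 z
      rw [LinearMap.comp_apply, LinearMap.comp_apply, LinearMap.comp_apply, alc_exch ω hb,
        conT_muT, dropT_muT, conT_muT, map_smul]
    exact congrArg (fun k => k v) h2
  exact congrArg (fun k => k w) h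

end

theorem p_ALC (A : Type u) [Category.{v} A] [MonoidalCategory A] [SymmetricCategory A]
    [Preadditive A] [MonoidalPreadditive A] [Linear ℚ A] [MonoidalLinear ℚ A]
    (ω : A ⥤ ModuleCat.{0} ℚ) [ω.Monoidal] [ω.Additive] : Stmt_ALC A ω := by
  intro N hb ξ n
  induction n with
  | zero =>
    intro y _
    rw [altCon_zero]
    simp
  | succ n ih =>
    intro y hy
    have e1 : om ω (LT N (n + 1) (alt N (n + 1))) y = y := by
      have h : alt N (n + 2) ≫ LT N (n + 1) (alt N (n + 1)) = alt N (n + 2) :=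
        alt_Lalt (exchE N) (n + 1)
      have h2 := congrArg (fun f => om ω f y) h
      simp only [om_comp_apply] at h2
      rw [hy] at h2
      exact h2
    have e2 : om ω (exch N n) y = -y := by
      have h : alt N (n + 2) ≫ exch N n = -alt N (n + 2) := alt_exch (exchE N) n
      have h2 := congrArg (fun f => om ω f y) h
      simp only [om_comp_apply, om_neg, LinearMap.neg_apply] at h2
      rw [hy] at h2
      exact h2
    have e3 : altCon ω ξ n ∘ₗ om ω (alt N (n + 1))
        = ((n : ℚ) + 1) • (conT ω N n ξ ∘ₗ om ω (alt N (n + 1))) := by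
      refine LinearMap.ext fun w => ?_
      have h : alt N (n + 1) ≫ alt N (n + 1) = alt N (n + 1) := alt_idem (exchE N) (n + 1)
      have h2 : om ω (alt N (n + 1)) (om ω (alt N (n + 1)) w) = om ω (alt N (n + 1)) w := by
        rw [← om_comp_apply, h]
      exact ih _ h2
    have e4 : dropT ω n (altCon ω ξ n) y = -(((n : ℚ) + 1) • conT ω N (n + 1) ξ y) := by
      calc dropT ω n (altCon ω ξ n) y
          = dropT ω n (altCon ω ξ n) (om ω (LT N (n + 1) (alt N (n + 1))) y) := by rw [e1]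
        _ = ((n : ℚ) + 1) • dropT ω n (conT ω N n ξ) (om ω (LT N (n + 1) (alt N (n + 1))) y) := by
            rw [alc_drop_LT, e3, alc_drop_smul, alc_drop_LT]
        _ = ((n : ℚ) + 1) • conT ω N (n + 1) ξ (om ω (exch N n) y) := by
            rw [e1, alc_con_exch ω hb]
        _ = _ := by rw [e2, map_neg, smul_neg]
    rw [altCon_succ, LinearMap.sub_apply, e4, sub_neg_eq_add]
    push_cast
    module

end Pool.VAS
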