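import Pool.Agent.Work.MP_292d0f_va.InterfaceC

/-! # Voisin's anti-symmetrization conjecture, block GAM (helper68) -/

open CategoryTheory MonoidalCategory
open Pool.Agent.Work.MP_c42eb9_num.Defs Pool.Agent.Work.MP_c42eb9_num
  Pool.Agent.Work.MP_c42eb9_num.RealPart

namespace Pool.VAS

universe v u w

section

variable {A : Type u} [Category.{v} A] [MonoidalCategory A]
  (ω : A ⥤ ModuleCat.{0} ℚ) [ω.Monoidal]

theorem GAM_lam (w : ω.obj (𝟙_ A)) : w = lam ω w • oneV ω := by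
  have h1 := congrArg ModuleCat.Hom.hom (Functor.Monoidal.η_ε ω)
  have h2 : (Functor.LaxMonoidal.ε ω).hom (lam ω w) = w := congrArg (fun k => k w) h1
  have h3 : (Functor.LaxMonoidal.ε ω).hom (lam ω w • (1 : ℚ)) =
      lam ω w • (Functor.LaxMonoidal.ε ω).hom (1 : ℚ) := map_smul _ _ _
  rw [smul_eq_mul, mul_one] at h3
  rw [h2] at h3
  exact h3

end

variable (A : Type u) [Category.{v} A] [MonoidalCategory A] [SymmetricCategory A]
  [Preadditive A] [MonoidalPreadditive A] [Linear ℚ A] [MonoidalLinear ℚ A]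
  (ω : A ⥤ ModuleCat.{0} ℚ) [ω.Monoidal] [ω.Additive]

theorem p_GAM : Stmt_GAM A ω := by
  intro N E L γ u c hL hN hγ n
  induction n with
  | zero =>
      refine ⟨𝟙 (𝟙_ A ⊗ E), fun y e => ?_⟩
      have hy := GAM_lam ω y
      have h1 : om ω (𝟙 (𝟙_ A ⊗ E)) (mu ω (𝟙_ A) E y e) = mu ω (𝟙_ A) E y e :=
        om_id_apply ω _ _
      have h3 : mu ω (𝟙_ A) E y e = mu ω (𝟙_ A) E (oneV ω) (lam ω y • e) := by
        have h4 : mu ω (𝟙_ A) E y e = mu ω (𝟙_ A) E (lam ω y • oneV ω) e := by rw [← hy]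
        rw [h4, map_smul, map_smul, LinearMap.smul_apply]
      exact h1.trans h3
  | succ n ih =>
      obtain ⟨Γ, hΓ⟩ := ih
      obtain ⟨G, hG⟩ : ∃ G : (N ⊗ tpow N n) ⊗ E ⟶ (L ⊗ tpow L n) ⊗ E, G =
        (α_ N (tpow N n) E).hom ≫ N ◁ Γ ≫ (α_ N (tpow L n) E).inv ≫
        (β_ N (tpow L n)).hom ▷ E ≫ (α_ (tpow L n) N E).hom ≫ tpow L n ◁ γ ≫
        (α_ (tpow L n) L E).inv ≫ (β_ L (tpow L n)).inv ▷ E := ⟨_, rfl⟩
      have hb : om ω (β_ L (tpow L n)).inv (mu ω _ _ (upow ω u n) u) =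
          mu ω _ _ u (upow ω u n) := by
        have h1 := hL (tpow L n) u (upow ω u n)
        rw [← h1, ← om_comp_apply, Iso.hom_inv_id, om_id_apply]
      have hmain : ∀ (x : ω.obj N) (z : ω.obj (tpow N n)) (e : ω.obj E),
          om ω G (mu ω (N ⊗ tpow N n) E (mu ω N (tpow N n) x z) e) =
            mu ω (L ⊗ tpow L n) E (mu ω L (tpow L n) u (upow ω u n)) (c x (cl ω c n z e)) := by
        intro x z e
        rw [hG, om_comp_apply, om_assoc, om_comp_apply, om_whiskerLeft, hΓ, om_comp_apply,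
          om_assoc_inv, om_comp_apply, om_whiskerRight, hN, om_comp_apply, om_assoc,
          om_comp_apply, om_whiskerLeft, hγ, om_comp_apply, om_assoc_inv, om_whiskerRight, hb]
      refine ⟨G, fun y e => ?_⟩
      have key : (om ω G) ∘ₗ (mu ω (N ⊗ tpow N n) E).flip e =
          (mu ω (L ⊗ tpow L n) E (upow ω u (n + 1))) ∘ₗ ((cl ω c (n + 1)).flip e) := by
        apply muT_ext
        intro x z
        have e2 : ((mu ω (L ⊗ tpow L n) E (upow ω u (n + 1))) ∘ₗ ((cl ω c (n + 1)).flip e))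
            (muT ω N n x z) = mu ω (L ⊗ tpow L n) E (mu ω L (tpow L n) u (upow ω u n))
              (cl ω c (n + 1) (muT ω N n x z) e) := rfl
        rw [e2, cl_mu]
        exact hmain x z e
      exact congrArg (fun k => k y) key

end Pool.VAS
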