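import Pool.Agent.Work.MP_292d0f_va.InterfaceC

set_option autoImplicit false

/-!
# Block INJ: antisymmetric tensors act faithfully
-/

open CategoryTheory MonoidalCategory
open Pool.Agent.Work.MP_c42eb9_num.Defs Pool.Agent.Work.MP_c42eb9_num
  Pool.Agent.Work.MP_c42eb9_num.RealPart

namespace Pool.VAS

universe v u w

variable (A : Type u) [Category.{v} A] [MonoidalCategory A] [SymmetricCategory A]
  [Preadditive A] [MonoidalPreadditive A] [Linear ℚ A] [MonoidalLinear ℚ A]
  (ω : A ⥤ ModuleCat.{0} ℚ) [ω.Monoidal] [ω.Additive]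

omit [SymmetricCategory A] [Preadditive A] [MonoidalPreadditive A] [Linear ℚ A]
  [MonoidalLinear ℚ A] [ω.Additive] in
theorem INJ_lam (y : ω.obj (𝟙_ A)) (h : lam ω y = 0) : y = 0 := by
  have h1 : (Functor.LaxMonoidal.ε ω).hom ((Functor.OplaxMonoidal.η ω).hom y) = y :=
    congrArg (fun k => k.hom y) (Functor.Monoidal.η_ε ω)
  have h2 : (Functor.OplaxMonoidal.η ω).hom y = 0 := h
  rw [h2, map_zero] at h1
  exact h1.symm

omit [MonoidalLinear ℚ A] [ω.Additive] in
theorem INJ_alt [MonoidalLinear ℚ A] (N : A) (n : ℕ) (y : ω.obj (tpow N (n + 1)))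
    (hy : om ω (alt N (n + 1)) y = y) : om ω (LT N n (alt N n)) y = y := by
  have h1 : alt N (n + 1) ≫ LT N n (alt N n) = alt N (n + 1) := alt_Lalt (exchE N) n
  have h2 := om_comp_apply ω (alt N (n + 1)) (LT N n (alt N n)) y
  rw [h1, hy] at h2
  exact h2.symm

theorem p_INJ (hSUC : Stmt_SUC ω) (hNDG : Stmt_NDG ω) (hALC : Stmt_ALC A ω) :
    Stmt_INJ A ω := by
  intro N E c b hc hb hE hbr n
  induction n with
  | zero =>
    intro y _ hcl
    obtain ⟨e, he⟩ := exists_ne (0 : ω.obj E)
    have h1 : lam ω y • e = 0 := hcl e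
    exact INJ_lam A ω y ((smul_eq_zero.mp h1).resolve_right he)
  | succ n ih =>
    intro y hy hcl
    have hLT := INJ_alt A ω N n y hy
    have hcon : ∀ x, conT ω N n (b x) y = 0 := by
      intro x
      refine ih _ ?_ ?_
      · rw [← conT_LT, hLT]
      · intro e
        have h1 := hSUC N E c b hc n x y e
        rw [hcl e, hcl (c x e), hALC N hbr (b x) n y hy, map_zero, smul_zero, sub_zero,
          map_smul, LinearMap.smul_apply] at h1
        exact (smul_eq_zero.mp h1.symm).resolve_left (by positivity)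
    exact hNDG N (tpow N n) b hb y hcon

end Pool.VAS
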