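import Pool.Agent.Work.MP_292d0f_va.InterfaceC

open CategoryTheory MonoidalCategory
open Pool.Agent.Work.MP_c42eb9_num.Defs Pool.Agent.Work.MP_c42eb9_num
  Pool.Agent.Work.MP_c42eb9_num.RealPart

namespace Pool.VAS

universe v u w

section

variable (V : Type w) (A : Type u) [Category.{v} A] [MonoidalCategory A] [SymmetricCategory A]
  [Preadditive A] [MonoidalPreadditive A] [Linear ℚ A] [MonoidalLinear ℚ A]
  (M : ChowMotives V A) (K : K3Motive M) (ω : A ⥤ ModuleCat.{0} ℚ) [ω.Monoidal] [ω.Additive]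
  (X : KugaSatake K ω)

/-- All vectors of `ω (Y ⊗ L)` are products with `u` if `u` spans `ω L`. -/
theorem KSF_prod {A : Type u} [Category.{v} A] [MonoidalCategory A] (ω : A ⥤ ModuleCat.{0} ℚ)
    [ω.Monoidal] (Y L : A) (u : ω.obj L) (hu : ∀ x : ω.obj L, ∃ r : ℚ, x = r • u)
    (w : ω.obj (Y ⊗ L)) : ∃ y : ω.obj Y, w = mu ω Y L y u := by
  let R : Submodule ℚ (ω.obj (Y ⊗ L)) := LinearMap.range ((mu ω Y L).flip u)
  have h : R.mkQ = 0 := by
    refine mu_ext ω ?_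
    intro x y
    obtain ⟨r, rfl⟩ := hu y
    rw [LinearMap.zero_apply, Submodule.mkQ_apply, Submodule.Quotient.mk_eq_zero]
    refine ⟨r • x, ?_⟩
    rw [LinearMap.flip_apply, map_smul, LinearMap.smul_apply, map_smul]
  have h2 : w ∈ R := by
    rw [← Submodule.Quotient.mk_eq_zero, ← Submodule.mkQ_apply, h, LinearMap.zero_apply]
  obtain ⟨y, hy⟩ := h2
  exact ⟨y, hy.symm⟩

theorem p_KSF (hNIL : Stmt_NIL A) (hINJ : Stmt_INJ A ω) (hPHI : Stmt_PHI V A M K ω X) :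
    Stmt_KSF V A M K ω X := by
  intro hN hR n
  obtain ⟨Φ, hΦ⟩ := hPHI n
  have hal : alt K.t n ≫ alt K.t n = alt K.t n := alt_idem (exchE K.t) n
  have hp : (alt K.t n ▷ M.L) ≫ (alt K.t n ▷ M.L) = alt K.t n ▷ M.L := by
    rw [← comp_whiskerRight, hal]
  -- (1)
  have hA : ∀ w : ω.obj (tpow K.t n ⊗ M.L), om ω Φ (om ω (alt K.t n ▷ M.L) w) = 0 →
      om ω (alt K.t n ▷ M.L) w = 0 := by
    intro w hw
    obtain ⟨y, rfl⟩ := KSF_prod ω (tpow K.t n) M.L X.u X.u_span w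
    rw [om_whiskerRight] at hw ⊢
    have h1 := hΦ _ hw
    have h2 : om ω (alt K.t n) (om ω (alt K.t n) y) = om ω (alt K.t n) y := by
      rw [← om_comp_apply, hal]
    have h3 := hINJ K.t X.E X.c X.b X.clifford X.nondeg X.ne (fun x y => X.symt K.t x y) n _ h2 h1
    rw [h3, map_zero, LinearMap.zero_apply]
  -- (2)
  obtain ⟨g, hg⟩ := hR n (alt K.t n ▷ M.L ≫ Φ)
  have hg' : ∀ w, om ω Φ (om ω (alt K.t n ▷ M.L) (om ω g (om ω Φ (om ω (alt K.t n ▷ M.L) w)))) =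
      om ω Φ (om ω (alt K.t n ▷ M.L) w) := by
    intro w
    have h1 := congrArg (fun f => f.hom w) hg
    have h2 : om ω ((alt K.t n ▷ M.L ≫ Φ) ≫ g ≫ alt K.t n ▷ M.L ≫ Φ) w =
      om ω (alt K.t n ▷ M.L ≫ Φ) w := h1
    rw [om_comp_apply, om_comp_apply, om_comp_apply, om_comp_apply] at h2
    exact h2
  have hB : ∀ w, om ω (alt K.t n ▷ M.L) (om ω g (om ω Φ (om ω (alt K.t n ▷ M.L) w))) =
      om ω (alt K.t n ▷ M.L) w := by
    intro w
    have h1 := hA (om ω g (om ω Φ (om ω (alt K.t n ▷ M.L) w)) - w) (by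
      rw [map_sub, map_sub, hg' w, sub_self])
    rw [map_sub, sub_eq_zero] at h1
    exact h1
  have hZ : ω.map (alt K.t n ▷ M.L - alt K.t n ▷ M.L ≫ Φ ≫ g ≫ alt K.t n ▷ M.L) = 0 := by
    have : om ω (alt K.t n ▷ M.L - alt K.t n ▷ M.L ≫ Φ ≫ g ≫ alt K.t n ▷ M.L) = 0 := by
      refine LinearMap.ext fun w => ?_
      rw [om_sub, LinearMap.sub_apply, om_comp_apply, om_comp_apply, om_comp_apply, hB w, sub_self,
        LinearMap.zero_apply]
    exact ModuleCat.hom_ext this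
  -- (3)
  have hnil := hN n (alt K.t n ▷ M.L - alt K.t n ▷ M.L ≫ Φ ≫ g ≫ alt K.t n ▷ M.L) hZ
  obtain ⟨g', hg2⟩ := hNIL _ _ (alt K.t n ▷ M.L) Φ g hp hnil
  exact ⟨alt K.t n ▷ M.L ≫ Φ, g', hg2⟩

end

end Pool.VAS
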