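import Pool.Agent.Work.MP_292d0f_va.InterfaceC

/-!
# Block KSV: the vanishing from the Kuga-Satake factorization
-/

open CategoryTheory MonoidalCategory
open Pool.Agent.Work.MP_c42eb9_num.Defs Pool.Agent.Work.MP_c42eb9_num
  Pool.Agent.Work.MP_c42eb9_num.RealPart

namespace Pool.VAS

universe v u w

variable (V : Type w) (A : Type u) [Category.{v} A] [MonoidalCategory A] [SymmetricCategory A]
  [Preadditive A] [MonoidalPreadditive A] [Linear ℚ A] [MonoidalLinear ℚ A]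
  (M : ChowMotives V A) (K : K3Motive M) (ω : A ⥤ ModuleCat.{0} ℚ) [ω.Monoidal] [ω.Additive]
  (X : KugaSatake K ω)

omit [Linear ℚ A] [MonoidalLinear ℚ A] in
theorem KSV_whisker {P Q L : A} (f : P ⟶ Q) (h : f ▷ L = 0) : L ◁ f = 0 := by
  have h1 : L ◁ f ≫ (β_ L Q).hom = (β_ L P).hom ≫ f ▷ L := by
    rw [BraidedCategory.braiding_naturality_right]
  have h2 : L ◁ f = (L ◁ f ≫ (β_ L Q).hom) ≫ (β_ L Q).inv := by
    rw [Category.assoc, Iso.hom_inv_id, Category.comp_id]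
  rw [h2, h1, h, Limits.comp_zero, Limits.zero_comp]

omit [SymmetricCategory A] [MonoidalPreadditive A] [Linear ℚ A] [MonoidalLinear ℚ A] in
theorem KSV_aux {P Q T W E H : A} (b : P ≅ Q) (z : Q ⟶ T) (f : T ⟶ W ⊗ E) (emb : E ⟶ H)
    (ret : H ⟶ E) (he : emb ≫ ret = 𝟙 E) (h : b.hom ≫ z ≫ f ≫ W ◁ emb = 0) : z ≫ f = 0 := by
  have h1 : z ≫ f = b.inv ≫ (b.hom ≫ z ≫ f ≫ W ◁ emb) ≫ W ◁ ret := by
    have h2 : W ◁ emb ≫ W ◁ ret = 𝟙 (W ⊗ E) := by
      rw [← MonoidalCategory.whiskerLeft_comp, he, MonoidalCategory.whiskerLeft_id]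
    simp only [Category.assoc]
    rw [h2, Category.comp_id, Iso.inv_hom_id_assoc]
  rw [h1, h, Limits.zero_comp, Limits.comp_zero]

theorem p_KSV (hNEG : Stmt_NEG V A M) : Stmt_KSV V A M K ω X := by
  intro hF n l hl z
  obtain ⟨f, g, hfg⟩ := hF n
  have h0 : (β_ M.L (tpow M.L l)).hom ≫ z ▷ M.L ≫ f ≫ tpow M.L n ◁ X.emb = 0 :=
    hNEG (l + 1) n X.B2 _ (by omega)
  have h1 : z ▷ M.L ≫ f = 0 :=
    KSV_aux A (β_ M.L (tpow M.L l)) (z ▷ M.L) f X.emb X.ret X.emb_ret h0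
  have h3 : (z ≫ alt K.t n) ▷ M.L = 0 := by
    rw [MonoidalCategory.comp_whiskerRight, ← hfg, ← Category.assoc, h1, Limits.zero_comp]
  have h4 : M.L ◁ (z ≫ alt K.t n) = 0 := KSV_whisker A _ h3
  refine (M.cancel _ _).1 ?_
  show M.L ◁ (z ≫ alt K.t n) = M.L ◁ (0 : tpow M.L l ⟶ tpow K.t n)
  rw [h4, MonoidalPreadditive.whiskerLeft_zero]

end Pool.VAS
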