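import Pool.Agent.Work.MP_292d0f_va.InterfaceC

/-!
Block LIN: coefficients of linearly independent vectors.
-/

open CategoryTheory MonoidalCategory
open Pool.Agent.Work.MP_c42eb9_num.Defs Pool.Agent.Work.MP_c42eb9_num
  Pool.Agent.Work.MP_c42eb9_num.RealPart

namespace Pool.VAS

universe v u w

variable {A : Type u} [Category.{v} A] [MonoidalCategory A]
  (ω : A ⥤ ModuleCat.{0} ℚ) [ω.Monoidal]

theorem p_LIN : Stmt_LIN ω := by
  intro X Y s x e' he h i
  rw [← Module.forall_dual_apply_eq_zero_iff ℚ]
  intro f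
  have h1 : ∑ j, f (x j) • e' j = 0 := by
    have h2 := congrArg (con ω Y f) h
    rw [map_sum, map_zero] at h2
    rw [← h2]
    exact Finset.sum_congr rfl fun j _ => (con_mu ω f (x j) (e' j)).symm
  exact (Fintype.linearIndependent_iff.1 he) _ h1 i

end Pool.VAS
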