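import Pool.Agent.Work.MP_292d0f_va.InterfaceC

/-!
Block MUN: the product with a nonzero vector is injective.
-/

open CategoryTheory MonoidalCategory
open Pool.Agent.Work.MP_c42eb9_num.Defs Pool.Agent.Work.MP_c42eb9_num
  Pool.Agent.Work.MP_c42eb9_num.RealPart

namespace Pool.VAS

universe v u w

variable {A : Type u} [Category.{v} A] [MonoidalCategory A]
  (ω : A ⥤ ModuleCat.{0} ℚ) [ω.Monoidal]

theorem p_MUN : Stmt_MUN ω := by
  intro X Y x y hx h
  obtain ⟨f, hf⟩ := Module.Projective.exists_dual_eq_one ℚ hx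
  have h1 := con_mu ω f x y
  rw [h, map_zero, hf, one_smul] at h1
  exact h1.symm

end Pool.VAS
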