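import Pool.Agent.Work.MP_292d0f_va.InterfaceC

/-! # Block NDG (helper73): a tensor whose contractions with a nondegenerate form vanish is zero -/

open CategoryTheory MonoidalCategory
open Pool.Agent.Work.MP_c42eb9_num.Defs Pool.Agent.Work.MP_c42eb9_num
  Pool.Agent.Work.MP_c42eb9_num.RealPart
open scoped TensorProduct

namespace Pool.VAS

universe v u w

theorem NDG_aux {P Q : Type*} [AddCommGroup P] [Module ℚ P] [AddCommGroup Q] [Module ℚ Q]
    (b : P →ₗ[ℚ] P →ₗ[ℚ] ℚ) (hb : ∀ y, (∀ x, b x y = 0) → y = 0) (t : P ⊗[ℚ] Q)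
    (h : ∀ x, TensorProduct.lift ((LinearMap.lsmul ℚ Q).comp (b x)) t = 0) : t = 0 := by
  classical
  let 𝓑 := Module.Basis.ofVectorSpace ℚ Q
  apply (TensorProduct.equivFinsuppOfBasisRight (M := P) 𝓑).injective
  rw [map_zero]
  ext i
  rw [Finsupp.zero_apply]
  apply hb
  intro x
  have key : ∀ t : P ⊗[ℚ] Q, b x (TensorProduct.equivFinsuppOfBasisRight (M := P) 𝓑 t i) =
      𝓑.repr (TensorProduct.lift ((LinearMap.lsmul ℚ Q).comp (b x)) t) i := by
    intro t
    induction t using TensorProduct.induction_on with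
    | zero => simp
    | tmul p q =>
      rw [TensorProduct.equivFinsuppOfBasisRight_apply_tmul_apply, TensorProduct.lift.tmul]
      simp [mul_comm]
    | add s t hs ht => simp only [map_add, Finsupp.add_apply, hs, ht]
  rw [key, h x]
  simp

variable {A : Type u} [Category.{v} A] [MonoidalCategory A]
  (ω : A ⥤ ModuleCat.{0} ℚ) [ω.Monoidal]

theorem p_NDG : Stmt_NDG ω := by
  intro X Y b hb w hw
  have h1 : (Functor.OplaxMonoidal.δ ω X Y).hom w = 0 := by
    refine NDG_aux (P := ω.obj X) (Q := ω.obj Y) b hb _ fun x => ?_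
    exact hw x
  have h2 : (Functor.LaxMonoidal.μ ω X Y).hom ((Functor.OplaxMonoidal.δ ω X Y).hom w) = w := by
    have := congrArg ModuleCat.Hom.hom (Functor.Monoidal.δ_μ ω X Y)
    exact congrArg (fun k => k w) this
  have h3 : (Functor.LaxMonoidal.μ ω X Y).hom ((Functor.OplaxMonoidal.δ ω X Y).hom w) =
      (Functor.LaxMonoidal.μ ω X Y).hom 0 :=
    congrArg (fun k => (Functor.LaxMonoidal.μ ω X Y).hom k) h1
  rw [← h2, h3]
  exact map_zero _

end Pool.VAS
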