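import Pool.Agent.Work.MP_292d0f_va.Interface

/-! # Block NEG: no cycles of dimension `l` on `L ^ n ⊗ h Y` for `l < n` -/

set_option linter.unusedSectionVars false

open CategoryTheory MonoidalCategory
open Pool.Agent.Work.MP_c42eb9_num.Defs Pool.Agent.Work.MP_c42eb9_num

namespace Pool.VAS

universe v u w

variable (V : Type w) (A : Type u) [Category.{v} A] [MonoidalCategory A] [SymmetricCategory A]
  [Preadditive A] [MonoidalPreadditive A] [Linear ℚ A] [MonoidalLinear ℚ A]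
  (M : ChowMotives V A)

theorem p_NEG (hTW : Stmt_TW V A M) (hADD : Stmt_ADD A) : Stmt_NEG V A M := by
  intro l n Y z hln
  obtain ⟨k, rfl⟩ : ∃ k, n = l + (k + 1) := ⟨n - l - 1, by omega⟩
  obtain ⟨e⟩ := hADD M.L l (k + 1)
  obtain ⟨x, hx⟩ := (hTW l (𝟙_ A) (tpow M.L (k + 1) ⊗ M.h Y)).2
    ((ρ_ (tpow M.L l)).hom ≫ z ≫ (e.hom ▷ M.h Y) ≫ (α_ _ _ _).hom)
  have hx0 : x = 0 := M.negative Y k x
  have hx' : tpow M.L l ◁ x =
    (ρ_ (tpow M.L l)).hom ≫ z ≫ (e.hom ▷ M.h Y) ≫ (α_ _ _ _).hom := hx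
  rw [hx0, MonoidalPreadditive.whiskerLeft_zero] at hx'
  have h1 : z = (ρ_ (tpow M.L l)).inv ≫ ((ρ_ (tpow M.L l)).hom ≫ z ≫ (e.hom ▷ M.h Y) ≫
      (α_ _ _ _).hom) ≫ (α_ _ _ _).inv ≫ (e.inv ▷ M.h Y) := by
    simp [← comp_whiskerRight]
  rw [h1, ← hx']
  simp

end Pool.VAS
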