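import Pool.Agent.Work.MP_292d0f_va.InterfaceC

/-!
# Block PHI
-/

open CategoryTheory MonoidalCategory
open Pool.Agent.Work.MP_c42eb9_num.Defs Pool.Agent.Work.MP_c42eb9_num
  Pool.Agent.Work.MP_c42eb9_num.RealPart

namespace Pool.VAS

universe v u w

section

variable {A : Type u} [Category.{v} A] [MonoidalCategory A]
  (ω : A ⥤ ModuleCat.{0} ℚ) [ω.Monoidal]

theorem PHI_oneV : oneV ω ≠ 0 := by
  intro h
  have h1 := congrArg ModuleCat.Hom.hom (Functor.Monoidal.ε_η ω)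
  have h2 : (Functor.OplaxMonoidal.η ω).hom (oneV ω) = (1 : ℚ) :=
    congrArg (fun k => k (1 : ℚ)) h1
  rw [h, map_zero] at h2
  have h3 : (0 : ℚ) = 1 := h2
  exact absurd h3 (by norm_num)

theorem PHI_upow (hMUN : Stmt_MUN ω) {L : A} (u : ω.obj L) (hu : u ≠ 0) (n : ℕ) :
    upow ω u n ≠ 0 := by
  induction n with
  | zero => exact PHI_oneV ω
  | succ n ih => exact fun h => ih (hMUN L (tpow L n) u (upow ω u n) hu h)

end

variable (V : Type w) (A : Type u) [Category.{v} A] [MonoidalCategory A] [SymmetricCategory A]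
  [Preadditive A] [MonoidalPreadditive A] [Linear ℚ A] [MonoidalLinear ℚ A]
  (M : ChowMotives V A) (K : K3Motive M) (ω : A ⥤ ModuleCat.{0} ℚ) [ω.Monoidal] [ω.Additive]
  (X : KugaSatake K ω)

theorem p_PHI (hGAM : Stmt_GAM A ω) (hLIN : Stmt_LIN ω) (hMUN : Stmt_MUN ω) :
    Stmt_PHI V A M K ω X := by
  intro n
  obtain ⟨Γ, hΓ⟩ := hGAM K.t X.E M.L X.γ X.u X.c X.symL X.symt X.act_γ n
  obtain ⟨s, e, e', hη, hspan, hind⟩ := X.copairing
  refine ⟨tpow K.t n ◁ X.η ≫ (α_ (tpow K.t n) X.E X.E).inv ≫ Γ ▷ X.E ≫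
    (α_ (tpow M.L n) X.E X.E).hom, ?_⟩
  intro y hy
  have hη' : om ω X.η X.u = ∑ i, mu ω X.E X.E (e i) (e' i) := hη
  have key : om ω (tpow K.t n ◁ X.η ≫ (α_ (tpow K.t n) X.E X.E).inv ≫ Γ ▷ X.E ≫
      (α_ (tpow M.L n) X.E X.E).hom) (mu ω _ _ y X.u) =
      mu ω _ _ (upow ω X.u n) (∑ i, mu ω X.E X.E (cl ω X.c n y (e i)) (e' i)) := by
    rw [om_comp_apply, om_comp_apply, om_comp_apply, om_whiskerLeft, hη', map_sum, map_sum,
      map_sum, map_sum, map_sum]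
    refine Finset.sum_congr rfl fun i _ => ?_
    rw [om_assoc_inv, om_whiskerRight, hΓ, om_assoc]
  rw [key] at hy
  have h1 : ∑ i, mu ω X.E X.E (cl ω X.c n y (e i)) (e' i) = 0 :=
    hMUN _ _ _ _ (PHI_upow ω hMUN X.u X.u_ne n) hy
  have h2 : ∀ i, cl ω X.c n y (e i) = 0 := hLIN X.E X.E s _ e' hind h1
  have h3 : cl ω X.c n y = 0 := by
    refine LinearMap.ext_on (s := Set.range e) hspan ?_
    rintro _ ⟨i, rfl⟩
    rw [h2 i, LinearMap.zero_apply]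
  intro z
  rw [h3, LinearMap.zero_apply]

end Pool.VAS
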