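import Pool.Agent.Work.MP_292d0f_va.InterfaceC

/-!
# Voisin's anti-symmetrization conjecture, Theorem C: block SUC
-/

open CategoryTheory MonoidalCategory
open Pool.Agent.Work.MP_c42eb9_num.Defs Pool.Agent.Work.MP_c42eb9_num
  Pool.Agent.Work.MP_c42eb9_num.RealPart

namespace Pool.VAS

universe v u w

variable {A : Type u} [Category.{v} A] [MonoidalCategory A]
  (ω : A ⥤ ModuleCat.{0} ℚ) [ω.Monoidal]

theorem SUC_ext {N E : A} (c : ω.obj N →ₗ[ℚ] ω.obj E →ₗ[ℚ] ω.obj E)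
    (b : ω.obj N →ₗ[ℚ] ω.obj N →ₗ[ℚ] ℚ) (n : ℕ) (x : ω.obj N) (e : ω.obj E)
    (H : ∀ (x₁ : ω.obj N) (y : ω.obj (tpow N n)),
      c x (cl ω c (n + 1) (muT ω N n x₁ y) e) -
        (-1 : ℚ) ^ (n + 1) • cl ω c (n + 1) (muT ω N n x₁ y) (c x e) =
        cl ω c n (altCon ω (b x) n (muT ω N n x₁ y)) e) (y : ω.obj (tpow N (n + 1))) :
    c x (cl ω c (n + 1) y e) - (-1 : ℚ) ^ (n + 1) • cl ω c (n + 1) y (c x e) =
      cl ω c n (altCon ω (b x) n y) e := by
  have h : (c x) ∘ₗ ((cl ω c (n + 1)).flip e) -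
      (-1 : ℚ) ^ (n + 1) • ((cl ω c (n + 1)).flip (c x e)) =
      ((cl ω c n).flip e) ∘ₗ (altCon ω (b x) n) := by
    apply muT_ext
    intro x₁ y'
    exact H x₁ y'
  exact congrArg (fun k => k y) h

theorem p_SUC : Stmt_SUC ω := by
  intro N E c b hcb n
  induction n with
  | zero =>
    intro x y e
    refine SUC_ext ω c b 0 x e ?_ y
    intro x₁ y'
    rw [cl_mu, cl_mu, altCon_zero, conT_muT, map_smul, LinearMap.smul_apply, cl_zero, cl_zero,
      map_smul, map_smul, map_smul]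
    have h := hcb x x₁ e
    have h2 : c x (c x₁ e) = b x x₁ • e - c x₁ (c x e) := eq_sub_of_add_eq h
    rw [h2, smul_sub, pow_succ, pow_zero, one_mul, neg_smul, one_smul, sub_neg_eq_add,
      sub_add_cancel, smul_comm]
  | succ n ih =>
    intro x y e
    refine SUC_ext ω c b (n + 1) x e ?_ y
    intro x₁ y'
    rw [cl_mu, cl_mu, altCon_succ, LinearMap.sub_apply, conT_muT, dropT_muT, map_sub, map_smul,
      LinearMap.sub_apply, LinearMap.smul_apply, cl_mu]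
    have h2 : c x (c x₁ (cl ω c (n + 1) y' e)) =
        b x x₁ • (cl ω c (n + 1) y' e) - c x₁ (c x (cl ω c (n + 1) y' e)) :=
      eq_sub_of_add_eq (hcb x x₁ _)
    have h3 : c x (cl ω c (n + 1) y' e) = cl ω c n (altCon ω (b x) n y') e +
        (-1 : ℚ) ^ (n + 1) • cl ω c (n + 1) y' (c x e) := eq_add_of_sub_eq (ih x y' e)
    rw [h2, h3, map_add, map_smul]
    have h4 : (-1 : ℚ) ^ (n + 1 + 1) = -(-1 : ℚ) ^ (n + 1) := by
      rw [pow_succ]
      ring
    rw [h4, neg_smul]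
    abel

end Pool.VAS
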