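import Pool.Agent.Work.MP_c42eb9_num.Defs

/-!
# Voisin's anti-symmetrization conjecture: definitions

`A` is the category of covariant Chow motives over `ℂ` with rational coefficients (a `ℚ`-linear
symmetric monoidal category), `V` the class of smooth projective complex varieties (not
necessarily connected), `h X` the motive of `X`, with `Hom (h X) (h Y) = CH_{dim X} (X × Y)`, and
`L` the Lefschetz motive. A cycle class of dimension `l` on the motive `N` is a morphism
`tpow L l ⟶ N`. The fields of `ChowMotives` and `K3Motive` are well known facts.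
-/

open CategoryTheory MonoidalCategory
open Pool.Agent.Work.MP_c42eb9_num.Defs

namespace Pool.VAS

universe v u w

/-- The covariant Chow motives of smooth projective complex varieties, with rational
coefficients. -/
structure ChowMotives (V : Type w) (A : Type u) [Category.{v} A] [MonoidalCategory A]
    [SymmetricCategory A] [Preadditive A] [Linear ℚ A] where
  /-- The motive of a variety. -/
  h : V → A
  /-- The Lefschetz motive. -/
  L : A
  /-- The point. -/
  pt : V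
  isoPt : Nonempty (h pt ≅ 𝟙_ A)
  /-- The motive of a product. -/
  prod : ∀ X Y : V, ∃ Z : V, Nonempty (h Z ≅ h X ⊗ h Y)
  /-- The exchange of the factors of `L ⊗ L` is the identity. -/
  braid : (β_ L L).hom = 𝟙 (L ⊗ L)
  /-- Cancellation: the twist with `L` is fully faithful. -/
  cancel : ∀ X Y : A, Function.Bijective (fun f : X ⟶ Y => L ◁ f)
  /-- There are no cycles of negative dimension. -/
  negative : ∀ (X : V) (k : ℕ) (z : 𝟙_ A ⟶ tpow L (k + 1) ⊗ h X), z = 0
  /-- The zero-cycles of a product are generated by products of zero-cycles. -/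
  zeroCycles : ∀ (X Y : V) (z : 𝟙_ A ⟶ h X ⊗ h Y), z ∈ Submodule.span ℚ
    {y | ∃ (a : 𝟙_ A ⟶ h X) (b : 𝟙_ A ⟶ h Y), y = (λ_ (𝟙_ A)).inv ≫ (a ⊗ₘ b)}
  /-- The theorem of Bloch and Srinivas: a correspondence which kills all zero-cycles is supported
  over a divisor, so it factors through a variety of smaller dimension, twisted with `L`. -/
  blochSrinivas : ∀ (X Y : V) (f : h X ⟶ h Y), (∀ x : 𝟙_ A ⟶ h X, x ≫ f = 0) →
    ∃ (Z : V) (a : h X ⟶ L ⊗ h Z) (b : L ⊗ h Z ⟶ h Y), a ≫ b = f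

section

variable {V : Type w} {A : Type u} [Category.{v} A] [MonoidalCategory A] [SymmetricCategory A]
  [Preadditive A] [Linear ℚ A]

/-- The decomposition of the motive of a K3 surface (Kahn, Murre, Pedrini):
`h S = 𝟙 ⊕ L ⊕ ⋯ ⊕ L ⊕ t ⊕ L²`, where `t` is the transcendental motive. -/
structure K3Motive (M : ChowMotives V A) where
  /-- The surface. -/
  S : V
  /-- The transcendental motive. -/
  t : A
  /-- The degree. -/
  deg : M.h S ⟶ 𝟙_ A
  /-- The class of a point. -/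
  pt : 𝟙_ A ⟶ M.h S
  inc : t ⟶ M.h S
  pr : M.h S ⟶ t
  /-- The number of the summands `L ^ (k j + 1)`. -/
  m : ℕ
  k : Fin m → ℕ
  up : ∀ j, M.h S ⟶ tpow M.L (k j + 1)
  dn : ∀ j, tpow M.L (k j + 1) ⟶ M.h S
  pt_deg : pt ≫ deg = 𝟙 (𝟙_ A)
  inc_pr : inc ≫ pr = 𝟙 t
  dn_up : ∀ j, dn j ≫ up j = 𝟙 _
  inc_deg : inc ≫ deg = 0
  pt_pr : pt ≫ pr = 0
  dn_deg : ∀ j, dn j ≫ deg = 0
  pt_up : ∀ j, pt ≫ up j = 0
  dn_pr : ∀ j, dn j ≫ pr = 0
  inc_up : ∀ j, inc ≫ up j = 0
  dn_up_ne : ∀ i j, i ≠ j → dn i ≫ up j = 0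
  sum : deg ≫ pt + pr ≫ inc + ∑ j, up j ≫ dn j = 𝟙 (M.h S)
  /-- There is a divisor, for instance an ample one. -/
  divisor : ∃ j, k j = 0

/-- The exterior product of a zero-cycle `w` and an `l`-dimensional cycle `z`. -/
def ext {H L : A} {l n : ℕ} (w : 𝟙_ A ⟶ H) (z : tpow L l ⟶ tpow H n) :
    tpow L l ⟶ tpow H (n + 1) := (λ_ (tpow L l)).inv ≫ (w ⊗ₘ z)

/-- The push-forward along the projection which forgets one factor. -/
def forget {H : A} (ε : H ⟶ 𝟙_ A) (n : ℕ) : tpow H (n + 1) ⟶ tpow H n :=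
  ε ▷ tpow H n ≫ (λ_ (tpow H n)).hom

namespace K3Motive

variable {M : ChowMotives V A} (K : K3Motive M)

/-- The statement of the conjecture for `S`, `N = n + 1` and `l`: if `z` is an antisymmetric cycle
of dimension `l` on `S ^ N` with push-forward zero to `S ^ (N - 1)` and `w` a zero-cycle of degree
zero, the antisymmetrization of `w × z` is zero. -/
def At (n l : ℕ) : Prop :=
  ∀ z : tpow M.L l ⟶ tpow (M.h K.S) (n + 1), z ≫ alt (M.h K.S) (n + 1) = z →
    z ≫ forget K.deg n = 0 → ∀ w : 𝟙_ A ⟶ M.h K.S, w ≫ K.deg = 0 →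
    ext w z ≫ alt (M.h K.S) (n + 2) = 0

/-- Q1 for the surface: all `N ≥ 2` and all `l < N`. -/
def Q1 : Prop := ∀ n l : ℕ, 1 ≤ n → l ≤ n → K.At n l

/-- Q1 for the surface with `l = N - 1` only. -/
def Q1Top : Prop := ∀ n : ℕ, 1 ≤ n → K.At n n

/-- The exterior power `∧ ^ n t` has no cycles of dimension `≤ n - 2`. -/
def Vanishing : Prop :=
  ∀ n l : ℕ, l + 2 ≤ n → ∀ z : tpow M.L l ⟶ tpow K.t n, z ≫ alt K.t n = 0

/-- For all `n ≥ 1` the exterior power `∧ ^ n t` is a direct summand of `L ^ (n - 1) ⊗ h Y` for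
some smooth projective `Y` (the index is `n + 1` for `n`). -/
def Coniveau : Prop :=
  ∀ n : ℕ, ∃ (Y : V) (f : tpow K.t (n + 1) ⟶ tpow M.L n ⊗ M.h Y)
    (g : tpow M.L n ⊗ M.h Y ⟶ tpow K.t (n + 1)), f ≫ g = alt K.t (n + 1)

section Hom

universe v' u'

variable {C : Type u'} [Category.{v'} C] [Preadditive C] (H : A ⥤ C)

/-- The same for the homological motives, for a realization `H`. -/
def HomConiveau : Prop :=
  ∀ n : ℕ, ∃ (Y : V) (f : tpow K.t (n + 1) ⟶ tpow M.L n ⊗ M.h Y)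
    (g : tpow M.L n ⊗ M.h Y ⟶ tpow K.t (n + 1)), H.map (f ≫ g) = H.map (alt K.t (n + 1))

/-- The homologically trivial endomorphisms of the tensor powers of `t` are nilpotent (this holds
if the motive of `S` is finite-dimensional). -/
def Nilp : Prop :=
  ∀ (n : ℕ) (φ : End (tpow K.t n)), H.map φ = 0 → IsNilpotent φ

/-- The Hodge classes (for the Hodge realization `H`: the morphisms from the realization of
`L ^ n`) in `∧ ^ n t` are algebraic, for all `n ≥ 1` (the index is `n + 1` for `n`). -/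
def HodgeClasses : Prop :=
  ∀ (n : ℕ) (x : H.obj (tpow M.L (n + 1)) ⟶ H.obj (tpow K.t (n + 1))),
    x ≫ H.map (alt K.t (n + 1)) = x → ∃ z : tpow M.L (n + 1) ⟶ tpow K.t (n + 1), H.map z = x

end Hom

/-- Products of classes in `CH_c (∧ ^ (c + 1) t)` and in `CH_0 (t)` vanish. -/
def T (c : ℕ) : Prop :=
  ∀ z : tpow M.L c ⟶ tpow K.t (c + 1), z ≫ alt K.t (c + 1) = z → ∀ w : 𝟙_ A ⟶ K.t,
    ext w z ≫ alt K.t (c + 2) = 0

/-- Auxiliary property of an endomorphism `a` of `h S`. -/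
def Kills (a : M.h K.S ⟶ M.h K.S) : Prop :=
  ∀ n l : ℕ, l ≤ n → ∀ z : tpow M.L l ⟶ tpow (M.h K.S) (n + 1),
    z ≫ alt (M.h K.S) (n + 1) = z → ∀ w : 𝟙_ A ⟶ K.t,
    ext (w ≫ K.inc) (z ≫ tpowMap a (n + 1)) ≫ alt (M.h K.S) (n + 2) = 0

end K3Motive

section Hodge

universe v' u'

variable {C : Type u'} [Category.{v'} C] (H : A ⥤ C)

/-- For the Hodge realization `H`: all Hodge classes in the second homology of the smooth
projective varieties are algebraic (the Lefschetz theorem on `(1,1)`-classes and the hard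
Lefschetz theorem). -/
def CurveClasses (M : ChowMotives V A) : Prop :=
  ∀ (n : ℕ) (Y : V) (x : H.obj (tpow M.L (n + 1)) ⟶ H.obj (tpow M.L n ⊗ M.h Y)),
    ∃ a : tpow M.L (n + 1) ⟶ tpow M.L n ⊗ M.h Y, H.map a = x

end Hodge

end

end Pool.VAS
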