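import Pool.Agent.Work.MP_292d0f_va.Defs

/-!
# Voisin's anti-symmetrization conjecture and the Kuga-Satake correspondence: definitions

`ω` is the Betti realization (rational homology) of the motives. `act ω f` is the action of a
morphism, `mulV` the product of homology classes (file `Pool.Agent.Work.MP_c42eb9_num.Defs`).
-/

open CategoryTheory MonoidalCategory
open Pool.Agent.Work.MP_c42eb9_num.Defs

namespace Pool.VAS

universe v u w

variable {V : Type w} {A : Type u} [Category.{v} A] [MonoidalCategory A] [SymmetricCategory A]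
  [Preadditive A] [Linear ℚ A] {M : ChowMotives V A}

/-- The homology of `Z` is in even degrees (Koszul sign rule): exchanging `Z` with another motive exchanges the
factors of a product. -/
def EvenHomology (ω : A ⥤ ModuleCat.{0} ℚ) [ω.Monoidal] (Z : A) : Prop :=
  ∀ (Y : A) (x : ω.obj Z) (y : ω.obj Y), act ω (β_ Z Y).hom (mulV ω x y) = mulV ω y x

/-- The relations of a Clifford algebra: `c x (c y e) + c y (c x e) = b x y • e`. -/
def CliffordAction {T H : Type} [AddCommGroup T] [Module ℚ T] [AddCommGroup H] [Module ℚ H]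
    (c : T →ₗ[ℚ] H →ₗ[ℚ] H) (b : T →ₗ[ℚ] T →ₗ[ℚ] ℚ) : Prop :=
  ∀ (x y : T) (e : H), c x (c y e) + c y (c x e) = b x y • e

/-- `η` maps `u` to a nondegenerate copairing `∑ i, e i ⊗ e' i` of `ω E`. -/
def Copairing (ω : A ⥤ ModuleCat.{0} ℚ) [ω.Monoidal] {L E : A} (u : ω.obj L) (η : L ⟶ E ⊗ E) : Prop :=
  ∃ (s : ℕ) (e e' : Fin s → ω.obj E), act ω η u = ∑ i, mulV ω (e i) (e' i) ∧
    Submodule.span ℚ (Set.range e) = ⊤ ∧ LinearIndependent ℚ e'

/-- An algebraic Kuga-Satake correspondence for the K3 surface. `E` is the motive `h¹` of the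
Kuga-Satake abelian variety `B` (a direct summand of `h B`, so `E ⊗ E` is a direct summand of
`h (B × B)`); `γ` is the Kuga-Satake correspondence: the transcendental homology `ω t` acts on
`ω E` by `c`, with the relations of a Clifford algebra for the nondegenerate form `b`; `η` is given
by a polarization of `B`. -/
structure KugaSatake (K : K3Motive M) (ω : A ⥤ ModuleCat.{0} ℚ) [ω.Monoidal] where
  /-- The motive `h¹ (B)`. -/
  E : A
  /-- The variety `B × B`. -/
  B2 : V
  emb : E ⊗ E ⟶ M.h B2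
  ret : M.h B2 ⟶ E ⊗ E
  emb_ret : emb ≫ ret = 𝟙 (E ⊗ E)
  /-- A generator of the homology of `L`. -/
  u : ω.obj M.L
  u_ne : u ≠ 0
  u_span : ∀ x : ω.obj M.L, ∃ r : ℚ, x = r • u
  /-- The homology of `L` and of `t` is in even degrees (Koszul sign rule). -/
  symL : EvenHomology ω M.L
  symt : EvenHomology ω K.t
  /-- The Kuga-Satake correspondence. -/
  γ : K.t ⊗ E ⟶ M.L ⊗ E
  c : ω.obj K.t →ₗ[ℚ] ω.obj E →ₗ[ℚ] ω.obj E
  b : ω.obj K.t →ₗ[ℚ] ω.obj K.t →ₗ[ℚ] ℚ
  act_γ : ∀ (x : ω.obj K.t) (e : ω.obj E), act ω γ (mulV ω x e) = mulV ω u (c x e)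
  clifford : CliffordAction c b
  nondeg : ∀ y : ω.obj K.t, (∀ x, b x y = 0) → y = 0
  ne : Nontrivial (ω.obj E)
  /-- The copairing given by a polarization of `B`. -/
  η : M.L ⟶ E ⊗ E
  copairing : Copairing ω u η

namespace KugaSatake

variable {K : K3Motive M} {ω : A ⥤ ModuleCat.{0} ℚ} [ω.Monoidal] (X : KugaSatake K ω)

/-- The homologically trivial endomorphisms of the motives `t ^ n ⊗ L` are nilpotent: this holds
if the motive of the surface is finite-dimensional in the sense of Kimura and O'Sullivan. -/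
def Nilpotence (_ : KugaSatake K ω) : Prop :=
  ∀ (n : ℕ) (φ : End (tpow K.t n ⊗ M.L)), ω.map φ = 0 → IsNilpotent φ

/-- Consequence of the semisimplicity of the category of homological motives of products of
surfaces and abelian varieties (Lieberman, Kleiman, Jannsen). -/
def Regularity : Prop :=
  ∀ (n : ℕ) (f : tpow K.t n ⊗ M.L ⟶ tpow M.L n ⊗ (X.E ⊗ X.E)),
    ∃ g : tpow M.L n ⊗ (X.E ⊗ X.E) ⟶ tpow K.t n ⊗ M.L, ω.map (f ≫ g ≫ f) = ω.map f

end KugaSatake

end Pool.VAS
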