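import Pool.Agent.Work.MP_292d0f_va.SkelC
import Pool.Agent.Work.MP_292d0f_va.Final
import Pool.Agent.Work.MP_292d0f_va.B_SUC
import Pool.Agent.Work.MP_292d0f_va.B_NDG
import Pool.Agent.Work.MP_292d0f_va.B_LIN
import Pool.Agent.Work.MP_292d0f_va.B_MUN
import Pool.Agent.Work.MP_292d0f_va.B_ALC
import Pool.Agent.Work.MP_292d0f_va.B_INJ
import Pool.Agent.Work.MP_292d0f_va.B_GAM
import Pool.Agent.Work.MP_292d0f_va.B_PHI
import Pool.Agent.Work.MP_292d0f_va.B_KSF
import Pool.Agent.Work.MP_292d0f_va.B_KSV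

/-!
# Theorem C on Voisin's anti-symmetrization conjecture: the proof
-/

open CategoryTheory MonoidalCategory
open Pool.Agent.Work.MP_c42eb9_num.Defs Pool.Agent.Work.MP_c42eb9_num

namespace Pool.VAS

universe v u w

variable {V : Type w} {A : Type u} [Category.{v} A] [MonoidalCategory A] [SymmetricCategory A]
  [Preadditive A] [MonoidalPreadditive A] [Linear ℚ A] [MonoidalLinear ℚ A]
  {M : ChowMotives V A} {K : K3Motive M} {ω : A ⥤ ModuleCat.{0} ℚ} [ω.Monoidal] [ω.Additive]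

theorem mainC (X : KugaSatake K ω) (hN : X.Nilpotence) (hR : X.Regularity) :
    K.Q1 ∧ K.Vanishing :=
  finalC (p_PET V A M K) (k_STP M K) (p_SUM V A M K) (k_F31 M K) X
    (p_KSF V A M K ω X (p_NIL A) (p_INJ A ω (p_SUC ω) (p_NDG ω) (p_ALC A ω))
      (p_PHI V A M K ω X (p_GAM A ω) (p_LIN ω) (p_MUN ω)))
    (p_KSV V A M K ω X (k_NEG M)) hN hR

end Pool.VAS
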