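import Pool.Agent.Work.MP_292d0f_va.Interface
import Pool.Agent.Work.MP_292d0f_va.DefsC
import Pool.Agent.Work.MP_c42eb9_num.RealCpx

/-!
# Theorem C on Voisin's anti-symmetrization conjecture (Kuga-Satake): the blocks

The library for the realization `ω` is in `Pool.Agent.Work.MP_c42eb9_num.RealBasic` (namespace
`RealPart`): `om ω f` (`= act ω f` by `rfl`), `mu ω X Y x y` (`= mulV ω x y` by `rfl`), `mu_ext`,
`om_tensor`, `om_whiskerLeft`, `om_whiskerRight`, `om_assoc`, `om_assoc_inv`, `om_comp_apply`,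
`om_add`, `tens`, `tens_mu`, `con`, `con_mu`, and in `RealCpx` the same for tensor powers: `muT`,
`muT_ext`, `conT`, `conT_muT`, `LT`, `om_LT`, `conT_LT`. The file `SS` has (namespace `SSPart` or
similar, its own copies of `om`, `mu`) `mu_surj`, `lam`, `lam_one`, `lam_smul`,
`om_leftUnitor`, `om_rightUnitor`: copy what you need with your prefix.
-/

open CategoryTheory MonoidalCategory
open Pool.Agent.Work.MP_c42eb9_num.Defs Pool.Agent.Work.MP_c42eb9_num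
  Pool.Agent.Work.MP_c42eb9_num.RealPart

namespace Pool.VAS

universe v u w

section

variable {A : Type u} [Category.{v} A] [MonoidalCategory A]
  (ω : A ⥤ ModuleCat.{0} ℚ) [ω.Monoidal] {N E : A}

/-- The isomorphism of `ω 𝟙` with `ℚ`. -/
noncomputable def lam : ω.obj (𝟙_ A) →ₗ[ℚ] ℚ := (Functor.OplaxMonoidal.η ω).hom

/-- The action of tensors on `ω E`: `cl (x₁ ⊗ ⋯ ⊗ xₙ) = c x₁ ∘ ⋯ ∘ c xₙ`. -/
noncomputable def cl (c : ω.obj N →ₗ[ℚ] ω.obj E →ₗ[ℚ] ω.obj E) :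
    ∀ n : ℕ, ω.obj (tpow N n) →ₗ[ℚ] ω.obj E →ₗ[ℚ] ω.obj E
  | 0 => LinearMap.smulRight (lam ω) LinearMap.id
  | n + 1 => (TensorProduct.lift ((LinearMap.llcomp ℚ (ω.obj E) (ω.obj E) (ω.obj E)).compl₁₂ c
      (cl c n))) ∘ₗ (Functor.OplaxMonoidal.δ ω N (tpow N n)).hom

theorem cl_zero (c : ω.obj N →ₗ[ℚ] ω.obj E →ₗ[ℚ] ω.obj E) (y : ω.obj (𝟙_ A)) (e : ω.obj E) :
    cl ω c 0 y e = lam ω y • e := rfl

theorem cl_mu (c : ω.obj N →ₗ[ℚ] ω.obj E →ₗ[ℚ] ω.obj E) (n : ℕ) (x : ω.obj N)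
    (y : ω.obj (tpow N n)) (e : ω.obj E) :
    cl ω c (n + 1) (muT ω N n x y) e = c x (cl ω c n y e) := by
  have h := delta_mu ω (X := N) (Y := tpow N n) x y
  have h2 : cl ω c (n + 1) (muT ω N n x y) = TensorProduct.lift
      ((LinearMap.llcomp ℚ (ω.obj E) (ω.obj E) (ω.obj E)).compl₁₂ c (cl ω c n))
      ((Functor.OplaxMonoidal.δ ω N (tpow N n)).hom (mu ω N (tpow N n) x y)) := rfl
  rw [h2, h, TensorProduct.lift.tmul]
  rfl

/-- The map `id ⊗ g` on the realization of a tensor power. -/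
noncomputable def dropT (n : ℕ) (g : ω.obj (tpow N (n + 1)) →ₗ[ℚ] ω.obj (tpow N n)) :
    ω.obj (tpow N (n + 2)) →ₗ[ℚ] ω.obj (tpow N (n + 1)) :=
  tens ω (X := N) (Y := tpow N (n + 1)) (X' := N) (Y' := tpow N n) LinearMap.id g

theorem dropT_muT (n : ℕ) (g : ω.obj (tpow N (n + 1)) →ₗ[ℚ] ω.obj (tpow N n)) (x : ω.obj N)
    (y : ω.obj (tpow N (n + 1))) :
    dropT ω n g (muT ω N (n + 1) x y) = muT ω N n x (g y) := tens_mu ω LinearMap.id g x y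

/-- The alternating sum of the contractions of the factors with `ξ`. -/
noncomputable def altCon (ξ : ω.obj N →ₗ[ℚ] ℚ) :
    ∀ n : ℕ, ω.obj (tpow N (n + 1)) →ₗ[ℚ] ω.obj (tpow N n)
  | 0 => conT ω N 0 ξ
  | n + 1 => conT ω N (n + 1) ξ - dropT ω n (altCon ξ n)

theorem altCon_zero (ξ : ω.obj N →ₗ[ℚ] ℚ) : altCon ω ξ 0 = conT ω N 0 ξ := rfl

theorem altCon_succ (ξ : ω.obj N →ₗ[ℚ] ℚ) (n : ℕ) :
    altCon ω ξ (n + 1) = conT ω N (n + 1) ξ - dropT ω n (altCon ω ξ n) := rfl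

/-- The product `u ⊗ ⋯ ⊗ u` in `ω (L ^ n)`. -/
noncomputable def upow {L : A} (u : ω.obj L) : ∀ n : ℕ, ω.obj (tpow L n)
  | 0 => oneV ω
  | n + 1 => muT ω L n u (upow u n)

/-- SUC (120 lines). The super-commutator of `x` and a tensor.
Proof. Induction on `n`; both sides are linear in `y`, so (`muT_ext`) `y = muT x₁ y'`.
`n = 0`: `cl 1 y = lam y' • c x₁`, and `c x (c x₁ e) + c x₁ (c x e) = b x x₁ • e`. Step:
`c x (c x₁ (cl (n+1) y' e)) = b x x₁ • cl (n+1) y' e - c x₁ (c x (cl (n+1) y' e))`, and by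
induction `c x (cl (n+1) y' e) = (-1)^(n+1) • cl (n+1) y' (c x e) + cl n (altCon y') e`. -/
def Stmt_SUC : Prop := ∀ (N E : A) (c : ω.obj N →ₗ[ℚ] ω.obj E →ₗ[ℚ] ω.obj E)
  (b : ω.obj N →ₗ[ℚ] ω.obj N →ₗ[ℚ] ℚ), (∀ x y e, c x (c y e) + c y (c x e) = b x y • e) →
  ∀ (n : ℕ) (x : ω.obj N) (y : ω.obj (tpow N (n + 1))) (e : ω.obj E),
    c x (cl ω c (n + 1) y e) - (-1 : ℚ) ^ (n + 1) • cl ω c (n + 1) y (c x e) =
      cl ω c n (altCon ω (b x) n y) e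

/-- NDG (60 lines). A tensor all of whose contractions with a nondegenerate form vanish is zero.
Proof. `ω (X ⊗ Y)` is `ω X ⊗ ω Y` (`δ`, `μ`), `con ω Y ξ` is `ξ ⊗ id`. Write the tensor as
`∑ x_j ⊗ y_j` with a basis `y_j` of `ω Y` (finitely many `j`); then `b x x_j = 0` for all `x`, so
`x_j = 0`. -/
def Stmt_NDG : Prop := ∀ (X Y : A) (b : ω.obj X →ₗ[ℚ] ω.obj X →ₗ[ℚ] ℚ),
  (∀ y, (∀ x, b x y = 0) → y = 0) → ∀ w : ω.obj (X ⊗ Y), (∀ x, con ω Y (b x) w = 0) → w = 0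

/-- LIN (60 lines). Proof. `ω (X ⊗ Y)` is `ω X ⊗ ω Y`; extend `e'` to a basis. -/
def Stmt_LIN : Prop := ∀ (X Y : A) (s : ℕ) (x : Fin s → ω.obj X) (e' : Fin s → ω.obj Y),
  LinearIndependent ℚ e' → ∑ i, mu ω X Y (x i) (e' i) = 0 → ∀ i, x i = 0

/-- MUN (40 lines). Proof. `ω (X ⊗ Y)` is `ω X ⊗ ω Y` over the field `ℚ`. -/
def Stmt_MUN : Prop := ∀ (X Y : A) (x : ω.obj X) (y : ω.obj Y), x ≠ 0 → mu ω X Y x y = 0 → y = 0

end

section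

variable (A : Type u) [Category.{v} A] [MonoidalCategory A] [SymmetricCategory A]
  [Preadditive A] [MonoidalPreadditive A] [Linear ℚ A] [MonoidalLinear ℚ A]
  (ω : A ⥤ ModuleCat.{0} ℚ) [ω.Monoidal] [ω.Additive]

/-- ALC (120 lines). On antisymmetric tensors all contractions agree up to sign.
Proof. Induction on `n`. `n = 0` is the definition. Step: `y = om (N ◁ alt N (n + 1)) y` and
`om (exch N n) y = -y` (from `alt_Lalt`, `alt_exch`). `altCon (n + 1) y = conT y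
- dropT (altCon n) y`, and by the induction hypothesis (for the vectors `om alt y'`)
`altCon n ∘ om alt = (n + 1) • (conT n ∘ om alt)`, so `dropT (altCon n) y
= (n + 1) • dropT (conT n ξ) y`. On `muT x₁ (muT x₂ z)` one sees that
`dropT (conT n ξ) = conT (n + 1) ξ ∘ om (exch N n)` (with the hypothesis on the braiding), so
this is `-(n + 1) • conT (n + 1) ξ y`. -/
def Stmt_ALC : Prop := ∀ (N : A), (∀ x y : ω.obj N, om ω (β_ N N).hom (mu ω N N x y) = mu ω N N y x) →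
  ∀ (ξ : ω.obj N →ₗ[ℚ] ℚ) (n : ℕ) (y : ω.obj (tpow N (n + 1))), om ω (alt N (n + 1)) y = y →
    altCon ω ξ n y = ((n : ℚ) + 1) • conT ω N n ξ y

/-- INJ (100 lines, uses SUC NDG ALC). Antisymmetric tensors act faithfully.
Proof. Induction on `n`. `n = 0`: `lam y • e = 0` for all `e`, and `ω E ≠ 0`, so `lam y = 0`, and
`lam` is injective (`y = lam y • oneV`). Step: `y` antisymmetric in `ω (tpow N (n + 1))` with
`cl (n + 1) y = 0`. By SUC and ALC `(n + 1) • cl n (conT (b x) y) = 0` for all `x`. The vector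
`conT (b x) y` is antisymmetric (`conT_LT`, and `y = om (N ◁ alt N n) y` by `alt_Lalt`), so it is
zero by induction, for all `x`; NDG gives `y = 0`. -/
def Stmt_INJ : Prop := ∀ (N E : A) (c : ω.obj N →ₗ[ℚ] ω.obj E →ₗ[ℚ] ω.obj E)
  (b : ω.obj N →ₗ[ℚ] ω.obj N →ₗ[ℚ] ℚ), (∀ x y e, c x (c y e) + c y (c x e) = b x y • e) →
  (∀ y, (∀ x, b x y = 0) → y = 0) → Nontrivial (ω.obj E) →
  (∀ x y : ω.obj N, om ω (β_ N N).hom (mu ω N N x y) = mu ω N N y x) →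
  ∀ (n : ℕ) (y : ω.obj (tpow N n)), om ω (alt N n) y = y → (∀ e, cl ω c n y e = 0) → y = 0

/-- GAM (120 lines). The iterated correspondence `γ`.
Proof. Recursion: `Γ 0 = 𝟙`, and `Γ (n + 1) : (N ⊗ tpow N n) ⊗ E ≅ N ⊗ (tpow N n ⊗ E) ⟶
N ⊗ (tpow L n ⊗ E) ≅ tpow L n ⊗ (N ⊗ E) ⟶ tpow L n ⊗ (L ⊗ E) ≅ (L ⊗ tpow L n) ⊗ E` with the
braidings `β_ N (tpow L n)` and `(β_ L (tpow L n)).inv`; on vectors
`(x y) e ↦ x (u^n (cl y e)) ↦ u^n (x (cl y e)) ↦ u^n (u (c x (cl y e))) ↦ (u u^n) (c x (cl y e))`.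
(For `n = 0`: `oneV` and `lam`: `mu y e = lam y • mu oneV e`.) -/
def Stmt_GAM : Prop := ∀ (N E L : A) (γ : N ⊗ E ⟶ L ⊗ E) (u : ω.obj L)
  (c : ω.obj N →ₗ[ℚ] ω.obj E →ₗ[ℚ] ω.obj E),
  (∀ (Y : A) (x : ω.obj L) (y : ω.obj Y), om ω (β_ L Y).hom (mu ω _ _ x y) = mu ω _ _ y x) →
  (∀ (Y : A) (x : ω.obj N) (y : ω.obj Y), om ω (β_ N Y).hom (mu ω _ _ x y) = mu ω _ _ y x) →
  (∀ x e, om ω γ (mu ω _ _ x e) = mu ω _ _ u (c x e)) →
  ∀ n : ℕ, ∃ Γ : tpow N n ⊗ E ⟶ tpow L n ⊗ E, ∀ (y : ω.obj (tpow N n)) (e : ω.obj E),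
    om ω Γ (mu ω _ _ y e) = mu ω _ _ (upow ω u n) (cl ω c n y e)

end

section

variable (V : Type w) (A : Type u) [Category.{v} A] [MonoidalCategory A] [SymmetricCategory A]
  [Preadditive A] [MonoidalPreadditive A] [Linear ℚ A] [MonoidalLinear ℚ A]
  (M : ChowMotives V A) (K : K3Motive M) (ω : A ⥤ ModuleCat.{0} ℚ) [ω.Monoidal] [ω.Additive]
  (X : KugaSatake K ω)

/-- PHI (100 lines, uses GAM LIN MUN).
Proof. `Φ = tpow t n ◁ η ≫ α⁻¹ ≫ Γ ▷ E ≫ α` with `Γ` from GAM (for `N = t`). With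
`om η u = ∑ i, mu (e i) (e' i)`: `om Φ (mu y u) = ∑ i, mu (upow u n) (mu (cl n y (e i)) (e' i))
= mu (upow u n) (∑ i, …)`. If it is `0`: `upow u n ≠ 0` (MUN and `u ≠ 0`, `oneV ≠ 0`), so the sum is
`0` (MUN), so `cl n y (e i) = 0` for all `i` (LIN), and the `e i` span. -/
def Stmt_PHI : Prop := ∀ n : ℕ, ∃ Φ : tpow K.t n ⊗ M.L ⟶ tpow M.L n ⊗ (X.E ⊗ X.E),
  ∀ y : ω.obj (tpow K.t n), om ω Φ (mu ω _ _ y X.u) = 0 → ∀ e, cl ω X.c n y e = 0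

/-- KSF (100 lines, uses NIL INJ PHI).
Proof. Let `p = alt t n ▷ L`, `p ≫ p = p`, `Φ` from PHI. (1) `om p` and `om Φ`: if
`om Φ (om p w) = 0` then `om p w = 0`: `w` is a sum of vectors `mu y x`, `x = r • u`
(`X.u_span`), so `w = mu y u` for some `y` (the set of these `w` is a submodule which contains all
`mu y x`: `mu_surj` in `SS`, or `mu_ext` for the quotient map), `om p w = mu (om alt y) u`, so
`cl n (om alt y) = 0` by PHI and `om alt y = 0` by INJ. (2) Regularity for `f = p ≫ Φ`: `g` with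
`om (f ≫ g ≫ f) = om f`. For all `w`: `om Φ (om p (om g (om f w) - w)) = om f (om g (om f w)) -
om f w = 0`, so `om p (om g (om f w)) = om p w`, i.e. `ω.map (p - p ≫ Φ ≫ g ≫ p) = 0`. (3) This
endomorphism is nilpotent (Nilpotence); NIL gives `g'` with `(p ≫ Φ) ≫ g' = p`. -/
def Stmt_KSF : Prop := X.Nilpotence → X.Regularity → ∀ n : ℕ,
  ∃ (f : tpow K.t n ⊗ M.L ⟶ tpow M.L n ⊗ (X.E ⊗ X.E))
    (g : tpow M.L n ⊗ (X.E ⊗ X.E) ⟶ tpow K.t n ⊗ M.L), f ≫ g = alt K.t n ▷ M.L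

/-- KSV (80 lines, uses NEG).
Proof. Let `l + 2 ≤ n`, `z : tpow L l ⟶ tpow t n`. `(z ≫ alt t n) ▷ L = (z ▷ L ≫ f) ≫ g`. With the
braiding `tpow L (l + 1) = L ⊗ tpow L l ≅ tpow L l ⊗ L`; then
`β ≫ z ▷ L ≫ f ≫ tpow L n ◁ emb : tpow L (l + 1) ⟶ tpow L n ⊗ h B2` is zero by NEG, and
`tpow L n ◁ emb ≫ tpow L n ◁ ret = 𝟙`, so `z ▷ L ≫ f = 0`. So `(z ≫ alt t n) ▷ L = 0`, hence
`L ◁ (z ≫ alt t n) = 0` (braiding) and `z ≫ alt t n = 0` (`M.cancel`, injective). -/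
def Stmt_KSV : Prop := (∀ n : ℕ,
  ∃ (f : tpow K.t n ⊗ M.L ⟶ tpow M.L n ⊗ (X.E ⊗ X.E))
    (g : tpow M.L n ⊗ (X.E ⊗ X.E) ⟶ tpow K.t n ⊗ M.L), f ≫ g = alt K.t n ▷ M.L) → K.Vanishing

end

end Pool.VAS
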