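import Pool.Agent.Work.MP_292d0f_va.Interface

/-!
# Theorem A on Voisin's anti-symmetrization conjecture: the composition of the blocks
-/

open CategoryTheory MonoidalCategory
open Pool.Agent.Work.MP_c42eb9_num.Defs Pool.Agent.Work.MP_c42eb9_num

namespace Pool.VAS

universe v u w v' u'

variable {V : Type w} {A : Type u} [Category.{v} A] [MonoidalCategory A] [SymmetricCategory A]
  [Preadditive A] [MonoidalPreadditive A] [Linear ℚ A] [MonoidalLinear ℚ A]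
  {M : ChowMotives V A} {K : K3Motive M}

theorem t_all (h0 : Stmt_TON V A M K) (h1 : Stmt_TCC V A M K) (h : K.Q1Top) : ∀ c, K.T c
  | 0 => h0 h
  | c + 1 => h1 h c

theorem q1_top (h : K.Q1) : K.Q1Top := fun n hn => h n n hn le_rfl

theorem q1_of_vanishing (hPET : Stmt_PET V A M K) (hSTP : Stmt_STP V A M K)
    (hSUM : Stmt_SUM V A M K) (hF31 : Stmt_F31 V A M K) (h : K.Vanishing) : K.Q1 :=
  hF31 (hSUM hSTP (hPET h))

theorem homConiveau {C : Type u'} [Category.{v'} C] (H : A ⥤ C) (h : K.Coniveau) :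
    K.HomConiveau H := fun n => by
  obtain ⟨Y, f, g, e⟩ := h n
  exact ⟨Y, f, g, congrArg H.map e⟩

theorem hodge {C : Type u'} [Category.{v'} C] (H : A ⥤ C) (hH : CurveClasses H M)
    (h : K.Coniveau) : K.HodgeClasses H := fun n x hx => by
  obtain ⟨Y, f, g, e⟩ := h n
  obtain ⟨a, ha⟩ := hH n Y (x ≫ H.map f)
  refine ⟨a ≫ g, ?_⟩
  rw [H.map_comp, ha, Category.assoc, ← H.map_comp, e, hx]

theorem coniveau_of_hom (hNIL : Stmt_NIL A) {C : Type u'} [Category.{v'} C] [Preadditive C]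
    (H : A ⥤ C) [H.Additive] (hN : K.Nilp H) (h : K.HomConiveau H) : K.Coniveau := fun n => by
  obtain ⟨Y, f, g, e⟩ := h n
  have hp : alt K.t (n + 1) ≫ alt K.t (n + 1) = alt K.t (n + 1) := alt_idem (exchE K.t) (n + 1)
  have h0 : H.map (alt K.t (n + 1) - alt K.t (n + 1) ≫ f ≫ g ≫ alt K.t (n + 1)) = 0 := by
    have h1 : alt K.t (n + 1) ≫ f ≫ g ≫ alt K.t (n + 1)
        = alt K.t (n + 1) ≫ (f ≫ g) ≫ alt K.t (n + 1) := by simp only [Category.assoc]
    rw [h1, H.map_sub, H.map_comp, H.map_comp, e, ← H.map_comp, ← H.map_comp, hp, hp, sub_self]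
  obtain ⟨g', hg⟩ := hNIL _ _ _ f g hp (hN (n + 1) _ h0)
  exact ⟨Y, alt K.t (n + 1) ≫ f, g', hg⟩

/-- The conjecture passes to the K3 surfaces whose transcendental motive is a direct summand. -/
theorem vanishing_retract {K' : K3Motive M} (i : K'.t ⟶ K.t) (r : K.t ⟶ K'.t)
    (h : i ≫ r = 𝟙 K'.t) (hK : K.Vanishing) : K'.Vanishing := by
  intro n l hl z
  have h1 := hK n l hl (z ≫ tpowMap i n)
  have h2 : tpowMap i n ≫ tpowMap r n = 𝟙 _ := by
    rw [← tpowMap_comp, h, tpowMap_id]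
  have h3 : (z ≫ tpowMap i n) ≫ alt K.t n ≫ tpowMap r n = 0 := by
    rw [← Category.assoc, h1, Limits.zero_comp]
  rw [alt_nat r n] at h3
  calc z ≫ alt K'.t n = z ≫ (tpowMap i n ≫ tpowMap r n) ≫ alt K'.t n := by
        rw [h2, Category.id_comp]
    _ = (z ≫ tpowMap i n) ≫ tpowMap r n ≫ alt K'.t n := by simp only [Category.assoc]
    _ = 0 := h3

theorem final (hTON : Stmt_TON V A M K) (hTCC : Stmt_TCC V A M K) (hIND : Stmt_IND V A M K)
    (hF43 : Stmt_F43 V A M K) (hPET : Stmt_PET V A M K) (hSTP : Stmt_STP V A M K)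
    (hSUM : Stmt_SUM V A M K) (hF31 : Stmt_F31 V A M K) (hNIL : Stmt_NIL A)
    (hV : ∀ K' : K3Motive M, K'.Vanishing → K'.Q1) :
    (K.Q1 ↔ K.Q1Top) ∧ (K.Q1 ↔ K.Vanishing) ∧ (K.Q1 ↔ K.Coniveau) ∧
    (∀ (K' : K3Motive M) (i : K'.t ⟶ K.t) (r : K.t ⟶ K'.t), i ≫ r = 𝟙 K'.t → K.Q1 → K'.Q1) ∧
    ∀ {C : Type u'} [Category.{v'} C] [Preadditive C] (H : A ⥤ C) [H.Additive],
      (K.Q1 → K.HomConiveau H) ∧ (K.Nilp H → K.HomConiveau H → K.Q1) ∧
      (CurveClasses H M → K.Q1 → K.HodgeClasses H) := by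
  have a1 : K.Q1Top → K.Coniveau := fun h => hIND (t_all hTON hTCC h)
  have a2 : K.Vanishing → K.Q1 := q1_of_vanishing hPET hSTP hSUM hF31
  have a3 : K.Q1 → K.Coniveau := fun h => a1 (q1_top h)
  refine ⟨⟨q1_top, fun h => a2 (hF43 (a1 h))⟩, ⟨fun h => hF43 (a3 h), a2⟩,
    ⟨a3, fun h => a2 (hF43 h)⟩,
    fun K' i r e h => hV K' (vanishing_retract i r e (hF43 (a3 h))), ?_⟩
  intro C _ _ H _
  exact ⟨fun h => homConiveau H (a3 h),
    fun hN h => a2 (hF43 (coniveau_of_hom hNIL H hN h)), fun hH h => hodge H hH (a3 h)⟩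

end Pool.VAS
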