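import Pool.Agent.Work.MP_292d0f_va.InterfaceC
import Pool.Agent.Work.MP_292d0f_va.Skel

/-!
# Theorem C on Voisin's anti-symmetrization conjecture: the composition of the blocks
-/

open CategoryTheory MonoidalCategory
open Pool.Agent.Work.MP_c42eb9_num.Defs Pool.Agent.Work.MP_c42eb9_num

namespace Pool.VAS

universe v u w

variable {V : Type w} {A : Type u} [Category.{v} A] [MonoidalCategory A] [SymmetricCategory A]
  [Preadditive A] [MonoidalPreadditive A] [Linear ℚ A] [MonoidalLinear ℚ A]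
  {M : ChowMotives V A} {K : K3Motive M} {ω : A ⥤ ModuleCat.{0} ℚ} [ω.Monoidal] [ω.Additive]

theorem finalC (hPET : Stmt_PET V A M K) (hSTP : Stmt_STP V A M K)
    (hSUM : Stmt_SUM V A M K) (hF31 : Stmt_F31 V A M K) (X : KugaSatake K ω)
    (hKSF : Stmt_KSF V A M K ω X) (hKSV : Stmt_KSV V A M K ω X)
    (hN : X.Nilpotence) (hR : X.Regularity) : K.Q1 ∧ K.Vanishing :=
  have h : K.Vanishing := hKSV (hKSF hN hR)
  ⟨q1_of_vanishing hPET hSTP hSUM hF31 h, h⟩

end Pool.VAS
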